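import Mathlib

/-!
# Piece L5: balancing

`D : Finset E → ZMod 3` is a function with the exchange identity.  A colouring of `E` with `k`
colours, all classes with `D ≠ 0`, can be changed so that the elements of `O` (`#O < 2 k`) are
distributed in a balanced way.
-/

set_option autoImplicit false
set_option linter.unusedSectionVars false

namespace G3
open Finset

variable {E : Type*} [Fintype E] [DecidableEq E]

/-- colour class -/
def cls {k : ℕ} (c : E → Fin k) (b : Fin k) : Finset E := univ.filter (fun e => c e = b)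

omit [DecidableEq E] in
theorem mem_cls {k : ℕ} {c : E → Fin k} {b : Fin k} {e : E} : e ∈ cls c b ↔ c e = b := by
  simp [cls]

/-- the exchange identity -/
def ExchId (D : Finset E → ZMod 3) : Prop :=
  ∀ S₁ S₂ : Finset E, Disjoint S₁ S₂ → ∀ g ∈ S₁,
    ∑ e ∈ S₂, D (insert g (S₂.erase e)) * D (insert e (S₁.erase g)) = 2 * D S₁ * D S₂

theorem cls_swap_left {k : ℕ} {c : E → Fin k} {g e : E} (h : c g ≠ c e) :
    cls (c ∘ Equiv.swap g e) (c g) = insert e ((cls c (c g)).erase g) := by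
  ext x
  simp only [mem_cls, Function.comp_apply, mem_insert, mem_erase]
  by_cases h1 : x = g
  · subst h1
    rw [Equiv.swap_apply_left]
    constructor
    · intro h2; exact absurd h2.symm h
    · rintro (h2 | h2)
      · subst h2; exact absurd rfl h
      · exact absurd rfl h2.1
  · by_cases h2 : x = e
    · subst h2
      rw [Equiv.swap_apply_right]
      simp
    · rw [Equiv.swap_apply_of_ne_of_ne h1 h2]
      simp [h1, h2]

theorem cls_swap_right {k : ℕ} {c : E → Fin k} {g e : E} (h : c g ≠ c e) :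
    cls (c ∘ Equiv.swap g e) (c e) = insert g ((cls c (c e)).erase e) := by
  rw [Equiv.swap_comm]
  exact cls_swap_left h.symm

theorem cls_swap_ne {k : ℕ} {c : E → Fin k} {g e : E} {b : Fin k} (h1 : b ≠ c g) (h2 : b ≠ c e) :
    cls (c ∘ Equiv.swap g e) b = cls c b := by
  ext x
  simp only [mem_cls, Function.comp_apply]
  by_cases h3 : x = g
  · subst h3
    rw [Equiv.swap_apply_left]
    exact ⟨fun h => absurd h.symm h2, fun h => absurd h.symm h1⟩
  · by_cases h4 : x = e
    · subst h4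
      rw [Equiv.swap_apply_right]
      exact ⟨fun h => absurd h.symm h1, fun h => absurd h.symm h2⟩
    · rw [Equiv.swap_apply_of_ne_of_ne h3 h4]

/-- all classes good -/
def GoodC {k : ℕ} (D : Finset E → ZMod 3) (c : E → Fin k) : Prop := ∀ b, D (cls c b) ≠ 0

theorem goodC_swap {k : ℕ} {D : Finset E → ZMod 3} {c : E → Fin k} (hc : GoodC D c) {g e : E}
    (h : c g ≠ c e)
    (h1 : D (insert g ((cls c (c e)).erase e)) * D (insert e ((cls c (c g)).erase g)) ≠ 0) :
    GoodC D (c ∘ Equiv.swap g e) := by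
  intro b
  by_cases hb1 : b = c g
  · subst hb1
    rw [cls_swap_left h]
    exact right_ne_zero_of_mul h1
  · by_cases hb2 : b = c e
    · subst hb2
      rw [cls_swap_right h]
      exact left_ne_zero_of_mul h1
    · rw [cls_swap_ne hb1 hb2]
      exact hc b

/-- number of elements of `O` in a class -/
def cnt {k : ℕ} (O : Finset E) (c : E → Fin k) (b : Fin k) : ℕ := #{e ∈ O | c e = b}

/-- the effect of a swap of an element of `O` and an element which is not in `O` -/
theorem cnt_swap_out {k : ℕ} {O : Finset E} {c : E → Fin k} {g e : E} (hg : g ∈ O) (he : e ∉ O)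
    (h : c g ≠ c e) :
    cnt O (c ∘ Equiv.swap g e) (c g) + 1 = cnt O c (c g) ∧
      cnt O (c ∘ Equiv.swap g e) (c e) = cnt O c (c e) + 1 ∧
      ∀ b, b ≠ c g → b ≠ c e → cnt O (c ∘ Equiv.swap g e) b = cnt O c b := by
  have key : ∀ b, {x ∈ O | (c ∘ Equiv.swap g e) x = b} =
      {x ∈ O.erase g | c x = b} ∪ (if c e = b then {g} else ∅) := by
    intro b
    ext x
    simp only [mem_filter, Function.comp_apply, mem_union, mem_erase]
    by_cases h1 : x = g
    · subst h1
      rw [Equiv.swap_apply_left]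
      split_ifs with h2
      · simp [hg, h2]
      · simp [h2]
    · have h2 : x ∈ O → x ≠ e := fun h h' => he (h' ▸ h)
      split_ifs with h3
      · simp only [mem_singleton, h1, or_false, ne_eq, not_false_eq_true, true_and]
        constructor
        · rintro ⟨h4, h5⟩
          rw [Equiv.swap_apply_of_ne_of_ne h1 (h2 h4)] at h5
          exact ⟨h4, h5⟩
        · rintro ⟨h4, h5⟩
          rw [Equiv.swap_apply_of_ne_of_ne h1 (h2 h4)]
          exact ⟨h4, h5⟩
      · simp only [notMem_empty, or_false, ne_eq, h1, not_false_eq_true, true_and]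
        constructor
        · rintro ⟨h4, h5⟩
          rw [Equiv.swap_apply_of_ne_of_ne h1 (h2 h4)] at h5
          exact ⟨h4, h5⟩
        · rintro ⟨h4, h5⟩
          rw [Equiv.swap_apply_of_ne_of_ne h1 (h2 h4)]
          exact ⟨h4, h5⟩
  have key2 : ∀ b, b ≠ c g → {x ∈ O.erase g | c x = b} = {x ∈ O | c x = b} := by
    intro b hb
    ext x
    simp only [mem_filter, mem_erase]
    constructor
    · rintro ⟨⟨_, h1⟩, h2⟩; exact ⟨h1, h2⟩
    · rintro ⟨h1, h2⟩
      refine ⟨⟨?_, h1⟩, h2⟩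
      rintro rfl
      exact hb h2.symm
  refine ⟨?_, ?_, ?_⟩
  · unfold cnt
    rw [key, if_neg h.symm, union_empty]
    have : {x ∈ O.erase g | c x = c g} = ({x ∈ O | c x = c g}).erase g := by
      ext x
      simp only [mem_filter, mem_erase]
      tauto
    rw [this, card_erase_of_mem (by simp [hg])]
    have : 0 < #{x ∈ O | c x = c g} := card_pos.2 ⟨g, by simp [hg]⟩
    omega
  · unfold cnt
    rw [key, if_pos rfl, key2 _ h.symm, card_union_of_disjoint, card_singleton]
    rw [disjoint_singleton_right]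
    simp [h]
  · intro b hb1 hb2
    unfold cnt
    rw [key, if_neg (Ne.symm hb2), union_empty, key2 _ hb1]

/-- the effect of a swap of two elements of `O` -/
theorem cnt_swap_in {k : ℕ} {O : Finset E} {c : E → Fin k} {g e : E} (hg : g ∈ O) (he : e ∈ O)
    (b : Fin k) : cnt O (c ∘ Equiv.swap g e) b = cnt O c b := by
  unfold cnt
  refine card_bij (fun x _ => Equiv.swap g e x) ?_ ?_ ?_
  · intro x hx
    obtain ⟨h1, h2⟩ := mem_filter.1 hx
    refine mem_filter.2 ⟨?_, h2⟩
    by_cases h3 : x = g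
    · subst h3; rw [Equiv.swap_apply_left]; exact he
    · by_cases h4 : x = e
      · subst h4; rw [Equiv.swap_apply_right]; exact hg
      · rw [Equiv.swap_apply_of_ne_of_ne h3 h4]; exact h1
  · intro x _ y _ hxy
    exact (Equiv.swap g e).injective hxy
  · intro x hx
    obtain ⟨h1, h2⟩ := mem_filter.1 hx
    refine ⟨Equiv.swap g e x, ?_, Equiv.swap_apply_self _ _ _⟩
    refine mem_filter.2 ⟨?_, ?_⟩
    · by_cases h3 : x = g
      · subst h3; rw [Equiv.swap_apply_left]; exact he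
      · by_cases h4 : x = e
        · subst h4; rw [Equiv.swap_apply_right]; exact hg
        · rw [Equiv.swap_apply_of_ne_of_ne h3 h4]; exact h1
    · simp only [Function.comp_apply, Equiv.swap_apply_self]
      exact h2

/-- an exchange with a given class -/
theorem exists_swap {k : ℕ} {D : Finset E → ZMod 3} (hD : ExchId D) {c : E → Fin k}
    (hc : GoodC D c) {g : E} {b : Fin k} (hb : c g ≠ b) :
    ∃ e, c e = b ∧ GoodC D (c ∘ Equiv.swap g e) := by
  have hdis : Disjoint (cls c (c g)) (cls c b) := by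
    rw [Finset.disjoint_left]
    intro x h1 h2
    rw [mem_cls] at h1 h2
    exact hb (h1 ▸ h2)
  have h1 := hD _ _ hdis g (mem_cls.2 rfl)
  have h2 : (2 * D (cls c (c g)) * D (cls c b) : ZMod 3) ≠ 0 :=
    mul_ne_zero (mul_ne_zero (by decide) (hc _)) (hc _)
  rw [← h1] at h2
  obtain ⟨e, he, h3⟩ := exists_ne_zero_of_sum_ne_zero h2
  rw [mem_cls] at he
  subst he
  exact ⟨e, rfl, goodC_swap hc hb h3⟩

/-- the move `(a, 1) → (a - 1, 2)` -/
theorem exists_move_one {k : ℕ} {D : Finset E → ZMod 3} (hD : ExchId D) {O : Finset E}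
    {c : E → Fin k} (hc : GoodC D c) {b₁ b₂ : Fin k} (hb : b₁ ≠ b₂) (h1 : 2 ≤ cnt O c b₁)
    (h2 : cnt O c b₂ = 1) :
    ∃ c' : E → Fin k, GoodC D c' ∧ cnt O c' b₁ + 1 = cnt O c b₁ ∧ cnt O c' b₂ = 2 ∧
      ∀ b, b ≠ b₁ → b ≠ b₂ → cnt O c' b = cnt O c b := by
  by_contra hcon
  let val : (E → Fin k) → ZMod 3 := fun c => D (cls c b₁) * D (cls c b₂)
  -- the identity when there is no move
  have key : ∀ c' : E → Fin k, GoodC D c' → (∀ b, cnt O c' b = cnt O c b) →
      ∀ g ∈ O, c' g = b₁ → ∀ g' ∈ O, c' g' = b₂ →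
      GoodC D (c' ∘ Equiv.swap g g') ∧ val (c' ∘ Equiv.swap g g') = 2 * val c' := by
    intro c' hc' hcnt g hgO hg g' hg'O hg'
    have hne : c' g ≠ c' g' := by rw [hg, hg']; exact hb
    have hdis : Disjoint (cls c' b₁) (cls c' b₂) := by
      rw [Finset.disjoint_left]
      intro x h1 h2
      rw [mem_cls] at h1 h2
      exact hb (h1 ▸ h2)
    have h3 := hD _ _ hdis g (mem_cls.2 hg)
    have huniq : ∀ x ∈ O, c' x = b₂ → x = g' := by
      intro x hx hx2
      have h4 : #{e ∈ O | c' e = b₂} ≤ 1 := by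
        have := hcnt b₂
        rw [h2] at this
        exact this.le
      exact card_le_one.1 h4 x (by simp [hx, hx2]) g' (by simp [hg'O, hg'])
    have h4 : ∀ e ∈ cls c' b₂, e ≠ g' →
        D (insert g ((cls c' b₂).erase e)) * D (insert e ((cls c' b₁).erase g)) = 0 := by
      intro e he hne'
      by_contra h5
      rw [mem_cls] at he
      have heO : e ∉ O := fun h => hne' (huniq e h he)
      have hge : c' g ≠ c' e := by rw [hg, he]; exact hb
      have h6 : GoodC D (c' ∘ Equiv.swap g e) := by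
        refine goodC_swap hc' hge ?_
        rw [hg, he]
        exact h5
      obtain ⟨h7, h8, h9⟩ := cnt_swap_out hgO heO hge
      rw [hg] at h7
      rw [he] at h8
      refine hcon ⟨_, h6, ?_, ?_, ?_⟩
      · rw [h7, hcnt]
      · rw [h8, hcnt, h2]
      · intro b hb1 hb2
        rw [h9 b (by rw [hg]; exact hb1) (by rw [he]; exact hb2), hcnt]
    rw [sum_eq_single_of_mem g' (mem_cls.2 hg') h4] at h3
    have h5 : val (c' ∘ Equiv.swap g g') = 2 * val c' := by
      simp only [val]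
      rw [← hg, ← hg', cls_swap_left hne, cls_swap_right hne, hg, hg', mul_comm, h3]
      ring
    refine ⟨goodC_swap hc' hne ?_, h5⟩
    rw [hg, hg', h3]
    exact mul_ne_zero (mul_ne_zero (by decide) (hc' _)) (hc' _)
  obtain ⟨g₁, hg₁, g₂, hg₂, hg12⟩ : ∃ g₁ ∈ O.filter (fun e => c e = b₁),
      ∃ g₂ ∈ O.filter (fun e => c e = b₁), g₁ ≠ g₂ := by
    have : 1 < #(O.filter (fun e => c e = b₁)) := h1
    obtain ⟨a, ha, b, hb, hab⟩ := one_lt_card.1 this
    exact ⟨a, ha, b, hb, hab⟩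
  obtain ⟨hg₁O, hg₁c⟩ := mem_filter.1 hg₁
  obtain ⟨hg₂O, hg₂c⟩ := mem_filter.1 hg₂
  obtain ⟨g', hg'⟩ : ∃ g', g' ∈ O.filter (fun e => c e = b₂) := by
    have : 0 < #(O.filter (fun e => c e = b₂)) := by
      have h3 : #(O.filter (fun e => c e = b₂)) = 1 := h2
      omega
    obtain ⟨x, hx⟩ := card_pos.1 this
    exact ⟨x, hx⟩
  obtain ⟨hg'O, hg'c⟩ := mem_filter.1 hg'
  have hne1 : g₁ ≠ g' := by
    rintro rfl
    exact hb (hg₁c.symm.trans hg'c)
  have hne2 : g₂ ≠ g' := by
    rintro rfl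
    exact hb (hg₂c.symm.trans hg'c)
  obtain ⟨hB1, hB2⟩ := key c hc (fun _ => rfl) g₁ hg₁O hg₁c g' hg'O hg'c
  obtain ⟨_, hC2⟩ := key c hc (fun _ => rfl) g₂ hg₂O hg₂c g' hg'O hg'c
  obtain ⟨_, hX2⟩ := key (c ∘ Equiv.swap g₁ g') hB1 (fun b => cnt_swap_in hg₁O hg'O b) g₂ hg₂O
    (by
      rw [Function.comp_apply, Equiv.swap_apply_of_ne_of_ne hg12.symm hne2]
      exact hg₂c) g₁ hg₁O (by
      rw [Function.comp_apply, Equiv.swap_apply_left]
      exact hg'c)
  have heq : (c ∘ Equiv.swap g₁ g') ∘ Equiv.swap g₂ g₁ = c ∘ Equiv.swap g₂ g' := by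
    funext x
    simp only [Function.comp_apply]
    by_cases hx1 : x = g₁
    · subst hx1
      rw [Equiv.swap_apply_right, Equiv.swap_apply_of_ne_of_ne hg12.symm hne2,
        Equiv.swap_apply_of_ne_of_ne hg12 hne1, hg₁c, hg₂c]
    · by_cases hx2 : x = g₂
      · subst hx2
        rw [Equiv.swap_apply_left, Equiv.swap_apply_left, Equiv.swap_apply_left]
      · rw [Equiv.swap_apply_of_ne_of_ne hx2 hx1]
        by_cases hx3 : x = g'
        · subst hx3
          rw [Equiv.swap_apply_right, Equiv.swap_apply_right, hg₁c, hg₂c]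
        · rw [Equiv.swap_apply_of_ne_of_ne hx1 hx3, Equiv.swap_apply_of_ne_of_ne hx2 hx3]
  rw [heq, hC2, hB2] at hX2
  have h6 : val c ≠ 0 := mul_ne_zero (hc _) (hc _)
  apply h6
  have h7 : ∀ x : ZMod 3, 2 * x = 2 * (2 * x) → x = 0 := by decide
  exact h7 _ hX2

/-- **Balancing.** -/
theorem balance {k : ℕ} {D : Finset E → ZMod 3} (hD : ExchId D) (O : Finset E)
    (hO : #O < 2 * k) {c : E → Fin k} (hc : GoodC D c) :
    ∃ c' : E → Fin k, GoodC D c' ∧ (∀ b, cnt O c' b ≤ 2) ∧
      ∀ b b', cnt O c' b = 0 → cnt O c' b' ≤ 1 := by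
  classical
  let sq : (E → Fin k) → ℕ := fun c => ∑ b, cnt O c b * cnt O c b
  have hex : ∃ n, ∃ c' : E → Fin k, GoodC D c' ∧ sq c' = n := ⟨_, c, hc, rfl⟩
  obtain ⟨c', hc', hn⟩ := Nat.find_spec hex
  have hmin : ∀ c'' : E → Fin k, GoodC D c'' → sq c' ≤ sq c'' := by
    intro c'' hc''
    rw [hn]
    exact Nat.find_min' hex ⟨c'', hc'', rfl⟩
  have hsplit : ∀ (b₁ b₂ : Fin k), b₁ ≠ b₂ → ∀ f : Fin k → ℕ,
      ∑ b, f b = f b₁ + f b₂ + ∑ b ∈ ({b₁, b₂} : Finset (Fin k))ᶜ, f b := by
    intro b₁ b₂ hb f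
    rw [← sum_add_sum_compl ({b₁, b₂} : Finset (Fin k)) f, sum_pair hb]
  have hcomp : ∀ (b₁ b₂ : Fin k), b₁ ≠ b₂ → ∀ c'' : E → Fin k, GoodC D c'' →
      (∀ b, b ≠ b₁ → b ≠ b₂ → cnt O c'' b = cnt O c' b) →
      cnt O c' b₁ * cnt O c' b₁ + cnt O c' b₂ * cnt O c' b₂ ≤
        cnt O c'' b₁ * cnt O c'' b₁ + cnt O c'' b₂ * cnt O c'' b₂ := by
    intro b₁ b₂ hb c'' hc'' h
    have h1 := hmin c'' hc''
    simp only [sq] at h1
    rw [hsplit b₁ b₂ hb, hsplit b₁ b₂ hb] at h1
    have h2 : ∑ b ∈ ({b₁, b₂} : Finset (Fin k))ᶜ, cnt O c'' b * cnt O c'' b =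
        ∑ b ∈ ({b₁, b₂} : Finset (Fin k))ᶜ, cnt O c' b * cnt O c' b := by
      refine sum_congr rfl fun b hb => ?_
      simp only [mem_compl, mem_insert, mem_singleton, not_or] at hb
      rw [h b hb.1 hb.2]
    omega
  -- no pair `(a, 0)` with `a ≥ 2`
  have hA : ∀ b₁ b₂, cnt O c' b₂ = 0 → cnt O c' b₁ ≤ 1 := by
    intro b₁ b₂ h0
    by_contra h1
    push Not at h1
    have hb : b₁ ≠ b₂ := by
      rintro rfl
      omega
    obtain ⟨g, hg⟩ : ∃ g, g ∈ O.filter (fun e => c' e = b₁) := by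
      have : 0 < #(O.filter (fun e => c' e = b₁)) := by
        have : 1 < #(O.filter (fun e => c' e = b₁)) := h1
        omega
      obtain ⟨x, hx⟩ := card_pos.1 this
      exact ⟨x, hx⟩
    obtain ⟨hgO, hgc⟩ := mem_filter.1 hg
    obtain ⟨e, he, hgood⟩ := exists_swap hD hc' (g := g) (b := b₂) (by rw [hgc]; exact hb)
    have heO : e ∉ O := by
      intro h
      have : e ∈ O.filter (fun e => c' e = b₂) := by simp [h, he]
      have h3 : 0 < #(O.filter (fun e => c' e = b₂)) := card_pos.2 ⟨e, this⟩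
      have h4 : #(O.filter (fun e => c' e = b₂)) = 0 := h0
      omega
    obtain ⟨h7, h8, h9⟩ := cnt_swap_out hgO heO (c := c') (by rw [hgc, he]; exact hb)
    rw [hgc] at h7
    rw [he] at h8
    have h10 := hcomp b₁ b₂ hb _ hgood (fun b hb1 hb2 => h9 b (by rw [hgc]; exact hb1)
      (by rw [he]; exact hb2))
    rw [h8, h0, ← h7] at h10
    have h11 : 1 ≤ cnt O (c' ∘ Equiv.swap g e) b₁ := by omega
    nlinarith
  refine ⟨c', hc', ?_, fun b b' h => hA b' b h⟩
  intro b₁
  by_contra h1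
  push Not at h1
  have hsum : ∑ b, cnt O c' b = #O := by
    unfold cnt
    exact (card_eq_sum_card_fiberwise (f := c') (t := univ) (s := O)
      (fun _ _ => mem_coe.2 (mem_univ _))).symm
  obtain ⟨b₂, hb2⟩ : ∃ b₂, cnt O c' b₂ ≤ 1 := by
    by_contra hcon
    push Not at hcon
    have : ∑ _b : Fin k, 2 ≤ ∑ b, cnt O c' b := sum_le_sum fun b _ => hcon b
    rw [sum_const, card_univ, Fintype.card_fin, smul_eq_mul, hsum] at this
    omega
  have hb : b₁ ≠ b₂ := by
    rintro rfl
    omega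
  have hb2' : cnt O c' b₂ = 1 := by
    by_contra h
    have := hA b₁ b₂ (by omega)
    omega
  obtain ⟨c'', h3, h4, h5, h6⟩ := exists_move_one hD hc' hb (by omega) hb2'
  have h10 := hcomp b₁ b₂ hb c'' h3 h6
  rw [h5, hb2', ← h4] at h10
  have h11 : 2 ≤ cnt O c'' b₁ := by omega
  nlinarith

end G3
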