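import Pool.Agent.Lib_MP_e457e7_g3.DefsG

/-! # Piece P5: the exchange identity -/

set_option autoImplicit false

namespace G3
open MvPolynomial Finset

variable {W : Type*} [Fintype W] [DecidableEq W] {E : Type*} [DecidableEq E]

private theorem lin_eq (φ : (W → ZMod 3) →ₗ[ZMod 3] ZMod 3) (y : W → ZMod 3) :
    φ y = ∑ j, φ (Pi.single j 1) * y j := by
  conv_lhs => rw [← LinearMap.sum_single_apply (fun _ : W => ZMod 3) y]
  rw [map_sum]
  refine sum_congr rfl fun j _ => ?_
  have h1 : (Pi.single j (y j) : W → ZMod 3) = y j • Pi.single j 1 := by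
    rw [← Pi.single_smul, smul_eq_mul, mul_one]
  rw [h1, map_smul, smul_eq_mul, mul_comm]

omit [DecidableEq W] in
private theorem pderiv_lf (j : W) (y : W → ZMod 3) : pderiv j (lf y) = C (y j) := by
  rw [lf, map_sum, sum_eq_single j]
  · rw [pderiv_C_mul, pderiv_X_self, mul_one]
  · intro b _ hb
    rw [pderiv_C_mul, pderiv_X_of_ne hb, mul_zero]
  · intro h
    exact absurd (mem_univ j) h

omit [Fintype W] [DecidableEq W] in
private theorem pderiv_prod (j : W) (S : Finset E) (g : E → MvPolynomial W (ZMod 3)) :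
    pderiv j (∏ e ∈ S, g e) = ∑ e ∈ S, (∏ e' ∈ S.erase e, g e') * pderiv j (g e) := by
  induction S using Finset.induction_on with
  | empty => simp
  | insert a s ha ih =>
    rw [prod_insert ha, pderiv_mul, ih, sum_insert ha, erase_insert ha, mul_comm (pderiv j (g a)),
      mul_sum]
    congr 1
    refine sum_congr rfl fun e he => ?_
    have hae : a ≠ e := fun h => ha (h ▸ he)
    rw [erase_insert_of_ne hae, prod_insert (fun h => ha (mem_of_mem_erase h)), mul_assoc]

omit [Fintype W] in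
private theorem coeff_X_pderiv (T : W →₀ ℕ) (hT : ∀ w, T w = 2) (i j : W)
    (P : MvPolynomial W (ZMod 3)) :
    coeff T (X i * pderiv j P) = if i = j then 2 * coeff T P else 0 := by
  rw [coeff_X_mul', if_pos (by rw [Finsupp.mem_support_iff, hT]; decide), coeff_pderiv]
  split_ifs with h
  · subst h
    have h1 : T - Finsupp.single i 1 + Finsupp.single i 1 = T := by
      ext w
      by_cases h : w = i
      · subst h
        simp [hT]
      · simp [Finsupp.single_eq_of_ne h]
    have h2 : (T - Finsupp.single i 1 : W →₀ ℕ) i = 1 := by simp [hT]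
    rw [h1, h2]
    push_cast
    ring
  · have h2 : (T - Finsupp.single i 1 : W →₀ ℕ) j = 2 := by
      simp [hT, Finsupp.single_eq_of_ne (Ne.symm h)]
    have h3 : (((2 : ℕ) : ZMod 3) + 1) = 0 := by decide
    rw [h2, h3, mul_zero]

private theorem cf_lf_pderiv (z : W → ZMod 3) (j : W) (P : MvPolynomial W (ZMod 3)) :
    cf (lf z * pderiv j P) = 2 * z j * cf P := by
  rw [lf, sum_mul, cf_sum, sum_eq_single j]
  · rw [mul_assoc, cf_C_mul, cf, coeff_X_pderiv _ (fun w => rfl), if_pos rfl, cf]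
    ring
  · intro i _ hi
    rw [mul_assoc, cf_C_mul, cf, coeff_X_pderiv _ (fun w => rfl), if_neg hi, mul_zero]
  · intro h
    exact absurd (mem_univ j) h

/-- PIECE P5a. PROOF. The derivation `δ` of the polynomial ring with `δ (X j) = φ (single j 1) * lf z`
satisfies `δ (lf y) = φ y * lf z`, and `cf (δ f) = 2 * φ z * cf f` for every `f`: check it on
monomials, `δ X ^ m = ∑ j, m_j X ^ (m - j) φ_j lf z`, and the coefficient of `∏ X ^ 2` is `2 φ_j z_j` from
`m = (2,..,2)`, and `3 = 0` from `m = (2,..,2) + j - i`, `i ≠ j`. Apply it to `∏ lf (y e)`. -/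
theorem cf_exch (S : Finset E) (y : E → W → ZMod 3) (z : W → ZMod 3)
    (φ : (W → ZMod 3) →ₗ[ZMod 3] ZMod 3) :
    ∑ e ∈ S, φ (y e) * cf (lf z * ∏ e' ∈ S.erase e, lf (y e')) =
      2 * φ z * cf (∏ e ∈ S, lf (y e)) := by
  have h1 : ∑ j, φ (Pi.single j 1) * cf (lf z * pderiv j (∏ e ∈ S, lf (y e))) =
      2 * φ z * cf (∏ e ∈ S, lf (y e)) := by
    rw [lin_eq φ z, mul_sum, sum_mul]
    refine sum_congr rfl fun j _ => ?_
    rw [cf_lf_pderiv]
    ring
  rw [← h1]
  have h2 : ∀ j, φ (Pi.single j 1) * cf (lf z * pderiv j (∏ e ∈ S, lf (y e))) =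
      ∑ e ∈ S, φ (Pi.single j 1) * y e j * cf (lf z * ∏ e' ∈ S.erase e, lf (y e')) := by
    intro j
    rw [pderiv_prod, mul_sum, cf_sum, mul_sum]
    refine sum_congr rfl fun e _ => ?_
    rw [pderiv_lf, ← mul_assoc, mul_comm _ (C (y e j)), cf_C_mul]
    ring
  simp only [h2]
  rw [sum_comm]
  refine sum_congr rfl fun e _ => ?_
  rw [lin_eq φ (y e), sum_mul]

/-- PIECE P5b. PROOF. `cf_exch` for `S₂`, `z` the vector of `g` (`af_eq`) and `φ y = cf (lf y *
∏ e ∈ S₁.erase g, af e)`. -/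
theorem D_exch (h : E → W) (t : E → Option W) (S₁ S₂ : Finset E) (hd : Disjoint S₁ S₂) (g : E)
    (hg : g ∈ S₁) :
    ∑ e ∈ S₂, D h t (insert g (S₂.erase e)) * D h t (insert e (S₁.erase g)) =
      2 * D h t S₁ * D h t S₂ := by
  let φ : (W → ZMod 3) →ₗ[ZMod 3] ZMod 3 :=
    { toFun := fun y => cf (lf y * ∏ e ∈ S₁.erase g, af h t e)
      map_add' := fun x y => by rw [lf_add, add_mul, cf_add]
      map_smul' := fun a y => by
        rw [lf_smul, mul_assoc, cf_C_mul, RingHom.id_apply, smul_eq_mul] }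
  have hφ : ∀ y, φ y = cf (lf y * ∏ e ∈ S₁.erase g, af h t e) := fun _ => rfl
  let v : E → W → ZMod 3 := fun e => Pi.single (h e) 1 - vv (t e)
  have hv : ∀ e, lf (v e) = af h t e := fun e => (af_eq h t e).symm
  have key := cf_exch S₂ v (v g) φ
  have h1 : φ (v g) = D h t S₁ := by
    rw [hφ, hv, D, mul_prod_erase _ _ hg]
  rw [h1] at key
  simp only [hv] at key
  have h3 : cf (∏ e ∈ S₂, af h t e) = D h t S₂ := rfl
  rw [h3] at key
  rw [← key]
  refine sum_congr rfl fun e he => ?_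
  have hg2 : g ∉ S₂ := fun h => Finset.disjoint_left.1 hd hg h
  have he1 : e ∉ S₁ := fun h => Finset.disjoint_left.1 hd h he
  rw [hφ, hv, D, D, prod_insert (fun h => hg2 (mem_of_mem_erase h)),
    prod_insert (fun h => he1 (mem_of_mem_erase h)), mul_comm]

end G3
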