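import Pool.Agent.Lib_MP_e457e7_g3.Mader

/-! # Piece P10: induction on the number of non-trivial vertices -/

set_option autoImplicit false

namespace G3
open MvPolynomial Finset

variable {W : Type*} [Fintype W] [DecidableEq W] {E : Type*} [Fintype E] [DecidableEq E]

/-- `v` is trivial: all in-arcs come from the root, no out-arcs -/
def Triv (h : E → W) (t : E → Option W) (v : W) : Prop :=
  (∀ e, h e = v → t e = none) ∧ ∀ e, t e ≠ some v

omit [Fintype E] [DecidableEq E] in
/-- PIECE P10a (helper67): no loops -/
theorem Dig.noloop [Fintype E] {k : ℕ} {h : E → W} {t : E → Option W} (hd : Dig k h t) (e : E) :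
    t e ≠ some (h e) := by
  intro hcc
  have h1 := hd.conn {h e} (singleton_nonempty _)
  have h3 := hd.indeg (h e)
  have h2 : rho h t univ {h e} < #{e' | h e' = h e} := by
    unfold rho
    refine card_lt_card ?_
    rw [ssubset_iff_of_subset]
    · refine ⟨e, by simp, ?_⟩
      simp [hcc]
    · intro e' he'
      simp only [mem_filter, mem_univ, true_and, mem_singleton] at he' ⊢
      exact he'.1
  omega

/-- PIECE P10b (helper67): induction. -/
theorem dig_induction {k : ℕ} (h : E → W) (M : (E → Option W) → Prop)
    (base : ∀ t, Dig k h t → (∀ v, Triv h t v) → M t)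
    (step : ∀ t v σ, Dig k h t → #{e | t e = some v} < 2 * k → (∀ e, t e = some v → h (σ e) = v) →
      (∀ e e', t e = some v → t e' = some v → σ e = σ e' → e = e') → Dig k h (spl h t v σ) →
      M (spl h t v σ) → M t) :
    ∀ t, Dig k h t → M t := by
  classical
  have key : ∀ n : ℕ, ∀ t, Dig k h t → #(univ.filter fun v => ¬ Triv h t v) = n → M t := by
    intro n
    induction n using Nat.strong_induction_on with
    | _ n ih =>
      intro t hd hn
      let U : Finset W := univ.filter fun v => ¬ Triv h t v
      by_cases hU : U = ∅
      · refine base t hd fun v => ?_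
        by_contra hv
        have : v ∈ U := mem_filter.2 ⟨mem_univ _, hv⟩
        rw [hU] at this
        exact notMem_empty _ this
      · have hUne : U.Nonempty := nonempty_iff_ne_empty.2 hU
        have hUm : ∀ w, w ∉ U → Triv h t w := by
          intro w hw
          by_contra hc
          exact hw (mem_filter.2 ⟨mem_univ _, hc⟩)
        -- the sum of the out-degrees
        have h1 : ∑ v ∈ U, #{e | t e = some v} + rho h t univ U ≤ ∑ v ∈ U, #{e | h e = v} := by
          have h2 : ∑ v ∈ U, #{e | t e = some v} = #(univ.filter fun e => ∃ w ∈ U, t e = some w) := by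
            rw [← card_biUnion]
            · congr 1
              ext e
              simp
            · intro v _ w _ hvw
              rw [Function.onFun, disjoint_left]
              intro e he he'
              simp only [mem_filter, mem_univ, true_and] at he he'
              rw [he, Option.some.injEq] at he'
              exact hvw he'
          have h3 : ∑ v ∈ U, #{e | h e = v} = #(univ.filter fun e => h e ∈ U) := by
            rw [← card_biUnion]
            · congr 1
              ext e
              simp
            · intro v _ w _ hvw
              rw [Function.onFun, disjoint_left]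
              intro e he he'
              simp only [mem_filter, mem_univ, true_and] at he he'
              exact hvw (he.symm.trans he')
          rw [h2, h3]
          unfold rho
          rw [← card_union_of_disjoint]
          · refine card_le_card ?_
            intro e he
            simp only [mem_union, mem_filter, mem_univ, true_and] at he ⊢
            rcases he with ⟨w, hw, he⟩ | he
            · by_contra hc
              have := (hUm _ hc).1 e rfl
              rw [he] at this
              cases this
            · exact he.1
          · rw [disjoint_left]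
            intro e he he'
            simp only [mem_filter, mem_univ, true_and] at he he'
            obtain ⟨w, hw, he⟩ := he
            exact he'.2 w hw he
        have h4 := hd.conn U hUne
        have h5 : ∑ v ∈ U, #{e | h e = v} = #U * (2 * k) := by
          rw [sum_congr rfl fun v _ => hd.indeg v, sum_const, smul_eq_mul]
        have hk : 0 < k := by
          by_contra hk
          have hk0 : k = 0 := by omega
          obtain ⟨v, hv⟩ := hUne
          have hE : IsEmpty E := ⟨fun e => by
            have h6 := hd.indeg (h e)
            rw [hk0, mul_zero, card_eq_zero] at h6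
            have : e ∈ (univ.filter fun e' => h e' = h e) := by simp
            rw [h6] at this
            exact notMem_empty _ this⟩
          exact (mem_filter.1 hv).2 ⟨fun e => (hE.false e).elim, fun e => (hE.false e).elim⟩
        obtain ⟨v, hv, hout⟩ : ∃ v ∈ U, #{e | t e = some v} < 2 * k := by
          by_contra hc
          push Not at hc
          have h6 : ∑ v ∈ U, 2 * k ≤ ∑ v ∈ U, #{e | t e = some v} := sum_le_sum hc
          rw [sum_const, smul_eq_mul] at h6
          omega
        obtain ⟨σ, hσ1, hσ2, hd'⟩ := split_vertex hd v hout.le
        refine step t v σ hd hout hσ1 hσ2 hd' (ih _ ?_ _ hd' rfl)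
        rw [← hn]
        refine card_lt_card ?_
        rw [ssubset_iff_of_subset]
        · refine ⟨v, hv, ?_⟩
          simp only [mem_filter, mem_univ, true_and, not_not]
          refine ⟨fun e he => by unfold spl; rw [if_pos he], fun e => ?_⟩
          unfold spl
          split_ifs with h6 h7
          · exact fun hc => by cases hc
          · have h8 := hd.noloop (σ e)
            rw [hσ1 e h7] at h8
            exact h8
          · exact h7
        · intro w hw
          simp only [mem_filter, mem_univ, true_and] at hw ⊢
          intro hc
          refine hw ⟨fun e he => ?_, fun e => ?_⟩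
          · unfold spl
            split_ifs with h6 h7
            · rfl
            · rw [hc.1 e he] at h7
              cases h7
            · exact hc.1 e he
          · unfold spl
            split_ifs with h6 h7
            · exact fun hcc => by cases hcc
            · exact hc.2 (σ e)
            · exact hc.2 e
  intro t hd
  exact key _ t hd rfl

/-- PIECE P10c (helper67): all vertices trivial -/
theorem exists_good_of_triv {k : ℕ} {h : E → W} {t : E → Option W} (hd : Dig k h t)
    (htr : ∀ v, Triv h t v) : ∃ c : E → Fin k, ∀ b, D h t {e | c e = b} ≠ 0 := by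
  classical
  have hf : ∀ w : W, Nonempty ({e // h e = w} ≃ Fin k × Fin 2) := by
    intro w
    refine ⟨Fintype.equivOfCardEq ?_⟩
    rw [Fintype.card_subtype, Fintype.card_prod, Fintype.card_fin, Fintype.card_fin]
    have := hd.indeg w
    rw [mul_comm]
    exact this
  let f : ∀ w : W, {e // h e = w} ≃ Fin k × Fin 2 := fun w => (hf w).some
  refine ⟨fun e => (f (h e) ⟨e, rfl⟩).1, fun b => ?_⟩
  have h1 : ∀ w : W, #{e ∈ univ.filter (fun e => (f (h e) ⟨e, rfl⟩).1 = b) | h e = w} = 2 := by
    intro w
    have h2 : #(univ : Finset (Fin 2)) = 2 := by simp
    refine Eq.trans (Eq.symm ?_) h2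
    refine card_bij (fun i _ => ((f w).symm (b, i)).1) ?_ ?_ ?_
    · intro i _
      have h3 : h ((f w).symm (b, i)).1 = w := ((f w).symm (b, i)).2
      simp only [mem_filter, mem_univ, true_and]
      refine ⟨?_, h3⟩
      have h4 : ∀ (w' : W) (hw : w = w') (e : {e // h e = w}),
          (f w' ⟨e.1, e.2.trans hw⟩).1 = (f w e).1 := by
        intro w' hw e
        subst hw
        rfl
      have h5 := h4 (h ((f w).symm (b, i)).1) h3.symm ((f w).symm (b, i))
      rw [Equiv.apply_symm_apply] at h5
      exact h5
    · intro i _ j _ hij
      have := (f w).symm.injective (Subtype.ext hij)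
      exact (Prod.mk.inj this).2
    · intro e he
      simp only [mem_filter, mem_univ, true_and] at he
      obtain ⟨h3, h4⟩ := he
      subst h4
      refine ⟨(f (h e) ⟨e, rfl⟩).2, mem_univ _, ?_⟩
      have h5 : (b, (f (h e) ⟨e, rfl⟩).2) = f (h e) ⟨e, rfl⟩ := by
        rw [← h3]
      rw [h5, Equiv.symm_apply_apply]
  have h6 : ∏ e ∈ univ.filter (fun e => (f (h e) ⟨e, rfl⟩).1 = b), af h t e =
      ∏ w : W, (X w : MvPolynomial W (ZMod 3)) ^ 2 := by
    rw [← prod_fiberwise_of_maps_to (t := univ) (g := h) (fun _ _ => mem_univ _)]
    refine prod_congr rfl fun w _ => ?_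
    have h9 : ∏ e ∈ (univ.filter (fun e => (f (h e) ⟨e, rfl⟩).1 = b)).filter (fun e => h e = w),
        af h t e = ∏ e ∈ (univ.filter (fun e => (f (h e) ⟨e, rfl⟩).1 = b)).filter
          (fun e => h e = w), (X w : MvPolynomial W (ZMod 3)) := by
      refine prod_congr rfl fun e he => ?_
      have h7 : h e = w := (mem_filter.1 he).2
      have h8 : t e = none := (htr (h e)).1 e rfl
      rw [af, h8, h7]
      simp [xv]
    rw [h9, prod_const, h1 w]
  unfold D
  rw [h6]
  have h7 : ∏ w : W, (X w : MvPolynomial W (ZMod 3)) ^ 2 =
      monomial (Finsupp.equivFunOnFinite.symm fun _ => 2) 1 := by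
    rw [monomial_eq, C_1, one_mul, Finsupp.prod_fintype]
    · simp
    · simp
  rw [h7, cf, coeff_monomial, if_pos rfl]
  exact one_ne_zero

end G3
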