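import Pool.Agent.Lib_MP_e457e7_g3.Expand
import Pool.Agent.Lib_MP_e457e7_g3.Exch
import Pool.Agent.Lib_MP_e457e7_g3.Induct
import Pool.Agent.Lib_MP_e457e7_g3.Balance

/-!
# Piece L7a: the step of the induction, from a local lemma

`LocalLemma k` is the purely local statement (no digraph); `GK_of_local : LocalLemma k → GK k`.
-/

set_option autoImplicit false
set_option linter.unusedSectionVars false

namespace G3
open MvPolynomial Finset

/-- sum of `f` over the subsets of `Q` of codimension `2` -/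
def FFs {ι : Type} [DecidableEq ι] (f : Finset ι → ZMod 3) (Q : Finset ι) : ZMod 3 :=
  ∑ J ∈ Q.powersetCard (Q.card - 2), f J

/-- difference of `f` at the pairs `{x, μ x}`, `x ∈ O` -/
def DDs {ι : Type} [DecidableEq ι] (f : Finset ι → ZMod 3) (μ : ι → ι) (O : Finset ι) : ZMod 3 :=
  ∑ A ∈ O.powerset, (-1) ^ A.card * f ((O \ A) ∪ A.image μ)

/-- the local statement for `k` classes -/
def LocalLemma (k : ℕ) : Prop :=
  ∀ (ι : Type) [Fintype ι] [DecidableEq ι] (N O : Finset ι) (μ : ι → ι) (c : ι → Fin k),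
    O ⊆ N → (∀ x ∈ O, μ x ∈ N) → (∀ x ∈ O, μ x ∉ O) → Set.InjOn μ O →
    N.card = 2 * k + O.card → O.card < 2 * k →
    ∀ (f : Fin k → Finset ι → ZMod 3), (∀ b, #{x ∈ O | c x = b} ≤ 2) →
    (∀ b b', #{x ∈ O | c x = b} = 0 → #{x ∈ O | c x = b'} ≤ 1) →
    (∀ b, DDs (f b) μ {x ∈ O | c x = b} ≠ 0) →
    ∃ c' : ι → Fin k, ∀ b, #{x ∈ N | c' x = b} = #{x ∈ O | c x = b} + 2 ∧
      FFs (f b) {x ∈ N | c' x = b} ≠ 0

variable {W : Type} [Fintype W] [DecidableEq W] {E : Type} [Fintype E] [DecidableEq E]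

/-- the local function of the class `b` at `v` -/
noncomputable def lfun (h : E → W) (t : E → Option W) (v : W) (S J : Finset E) : ZMod 3 :=
  cf (X v ^ 2 * ((∏ e ∈ S, af h t e) * ∏ e ∈ J, oe h t v e))

theorem DDs_lfun (h : E → W) (t : E → Option W) (v : W) (σ : E → E) (S O : Finset E)
    (hO : ∀ e ∈ O, h e ≠ v) (hσ : ∀ e ∈ O, h (σ e) = v) (hinj : Set.InjOn σ O) :
    DDs (lfun h t v S) σ O =
      cf (X v ^ 2 * ((∏ e ∈ S, af h t e) * ∏ e ∈ O, (X (h e) - xv (t (σ e))))) := by
  have h1 : ∏ e ∈ O, ((X (h e) : MvPolynomial W (ZMod 3)) - xv (t (σ e))) =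
      ∏ e ∈ O, (oe h t v e - oe h t v (σ e)) := by
    refine prod_congr rfl fun e he => ?_
    rw [oe, oe, if_neg (hO e he), if_pos (hσ e he)]
  rw [h1, prod_sub, mul_sum, mul_sum, cf_sum]
  unfold DDs
  refine sum_congr rfl fun A hA => ?_
  rw [mem_powerset] at hA
  have hdis : Disjoint (O \ A) (A.image σ) := by
    rw [Finset.disjoint_left]
    intro x hx hx'
    obtain ⟨y, hy, rfl⟩ := mem_image.1 hx'
    exact hO _ (mem_sdiff.1 hx).1 (hσ y (hA hy))
  have h2 : ∏ e ∈ O \ A ∪ A.image σ, oe h t v e =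
      (∏ e ∈ O \ A, oe h t v e) * ∏ e ∈ A, oe h t v (σ e) := by
    rw [prod_union hdis, prod_image]
    intro x hx y hy hxy
    exact hinj (hA hx) (hA hy) hxy
  unfold lfun
  rw [h2]
  have h3 : ((-1) ^ A.card : MvPolynomial W (ZMod 3)) = C ((-1) ^ A.card) := by
    rw [C_pow, C_neg, C_1]
  rw [h3, ← cf_C_mul]
  congr 1
  ring

theorem sum_powersetCard_sdiff {ι : Type} [DecidableEq ι] (Q : Finset ι) (hQ : 2 ≤ #Q)
    (g : Finset ι → ZMod 3) :
    ∑ T ∈ Q.powersetCard 2, g (Q \ T) = ∑ J ∈ Q.powersetCard (#Q - 2), g J := by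
  refine sum_bij' (fun T _ => Q \ T) (fun J _ => Q \ J) ?_ ?_ ?_ ?_ ?_
  · intro T hT
    obtain ⟨h1, h2⟩ := mem_powersetCard.1 hT
    exact mem_powersetCard.2 ⟨sdiff_subset, by rw [card_sdiff_of_subset h1, h2]⟩
  · intro J hJ
    obtain ⟨h1, h2⟩ := mem_powersetCard.1 hJ
    exact mem_powersetCard.2 ⟨sdiff_subset, by rw [card_sdiff_of_subset h1, h2]; omega⟩
  · intro T hT
    exact Finset.sdiff_sdiff_eq_self (mem_powersetCard.1 hT).1
  · intro J hJ
    exact Finset.sdiff_sdiff_eq_self (mem_powersetCard.1 hJ).1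
  · intro T _
    rfl

/-- The step of the induction. -/
theorem step_of_local {k : ℕ} (hL : LocalLemma k) {h : E → W} {t : E → Option W} {v : W}
    {σ : E → E} (hd : Dig k h t) (hout : #{e | t e = some v} < 2 * k)
    (hσ : ∀ e, t e = some v → h (σ e) = v)
    (hinj : ∀ e e', t e = some v → t e' = some v → σ e = σ e' → e = e')
    (IH : ∃ c : E → Fin k, ∀ b, D h (spl h t v σ) {e | c e = b} ≠ 0) :
    ∃ c : E → Fin k, ∀ b, D h t {e | c e = b} ≠ 0 := by
  classical
  obtain ⟨c₀, hc₀⟩ := IH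
  have hloop : ∀ e, h e = v → t e ≠ some v := by
    intro e he h1
    exact hd.noloop e (by rw [h1, he])
  set O : Finset E := univ.filter (fun e => t e = some v) with hOdef
  have hmO : ∀ e, e ∈ O ↔ t e = some v := by intro e; simp [hOdef]
  set I : Finset E := univ.filter (fun e => h e = v) with hIdef
  have hmI : ∀ e, e ∈ I ↔ h e = v := by intro e; simp [hIdef]
  have hIO : Disjoint I O := by
    rw [Finset.disjoint_left]
    intro e h1 h2
    exact hloop e ((hmI e).1 h1) ((hmO e).1 h2)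
  have hexch : ExchId (D h (spl h t v σ)) := fun S₁ S₂ hd g hg => D_exch h _ S₁ S₂ hd g hg
  obtain ⟨c, hc, hc2, hc0⟩ := balance hexch O hout (c := c₀) hc₀
  -- the local functions
  let S₀ : Fin k → Finset E := fun b => univ.filter (fun e => c e = b ∧ h e ≠ v ∧ t e ≠ some v)
  let f : Fin k → Finset E → ZMod 3 := fun b => lfun h t v (S₀ b)
  have hOb : ∀ b, ∀ e ∈ O.filter (fun e => c e = b), h e ≠ v := by
    intro b e he h1
    exact hloop e h1 ((hmO e).1 (mem_filter.1 he).1)
  have hDD : ∀ b, DDs (f b) σ {x ∈ O | c x = b} ≠ 0 := by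
    intro b
    have h1 := (D_spl h t v σ hσ hloop _ (hc b)).2
    have h2 := hc b
    rw [h1] at h2
    have h3 : (cls c b).filter (fun e => h e ≠ v ∧ t e ≠ some v) = S₀ b := by
      ext e
      simp only [mem_filter, mem_cls, S₀, mem_univ, true_and]
    have h4 : (cls c b).filter (fun e => h e ≠ v ∧ t e = some v) = O.filter (fun e => c e = b) := by
      ext e
      simp only [mem_filter, mem_cls, hmO]
      constructor
      · rintro ⟨h5, h6, h7⟩; exact ⟨h7, h5⟩
      · rintro ⟨h7, h5⟩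
        exact ⟨h5, fun h8 => hloop e h8 h7, h7⟩
    rw [h3, h4] at h2
    rw [DDs_lfun h t v σ (S₀ b) _ (hOb b)]
    · exact h2
    · intro e he
      exact hσ e ((hmO e).1 (mem_filter.1 he).1)
    · intro e he e' he' hee
      exact hinj e e' ((hmO e).1 (mem_filter.1 he).1) ((hmO e').1 (mem_filter.1 he').1) hee
  obtain ⟨c', hc'⟩ := hL E (I ∪ O) O σ c subset_union_right
    (fun e he => mem_union_left _ ((hmI _).2 (hσ e ((hmO e).1 he))))
    (fun e he h1 => hloop _ (hσ e ((hmO e).1 he)) ((hmO _).1 h1))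
    (fun e he e' he' hee => hinj e e' ((hmO e).1 he) ((hmO e').1 he') hee)
    (by rw [card_union_of_disjoint hIO]; congr 1; exact hd.indeg v) hout f hc2 hc0 hDD
  -- the new colouring
  refine ⟨fun e => if h e = v ∨ t e = some v then c' e else c e, fun b => ?_⟩
  set Q : Finset E := (I ∪ O).filter (fun e => c' e = b) with hQdef
  have hmQ : ∀ e, e ∈ Q ↔ (h e = v ∨ t e = some v) ∧ c' e = b := by
    intro e
    simp only [hQdef, mem_filter, mem_union, hmI, hmO]
  have hset : (univ.filter (fun e => (if h e = v ∨ t e = some v then c' e else c e) = b)) =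
      S₀ b ∪ Q := by
    ext e
    simp only [mem_filter, mem_univ, true_and, mem_union, hmQ, S₀]
    split_ifs with h1
    · constructor
      · intro h2; exact Or.inr ⟨h1, h2⟩
      · rintro (h2 | h2)
        · exfalso
          rcases h1 with h1 | h1
          · exact h2.2.1 h1
          · exact h2.2.2 h1
        · exact h2.2
    · push Not at h1
      constructor
      · intro h2; exact Or.inl ⟨h2, h1⟩
      · rintro (h2 | h2)
        · exact h2.1
        · exfalso
          rcases h2.1 with h3 | h3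
          · exact h1.1 h3
          · exact h1.2 h3
  rw [hset]
  have hdisj : Disjoint (S₀ b) Q := by
    rw [Finset.disjoint_left]
    intro e h1 h2
    simp only [S₀, mem_filter, mem_univ, true_and] at h1
    rcases ((hmQ e).1 h2).1 with h3 | h3
    · exact h1.2.1 h3
    · exact h1.2.2 h3
  rw [D_local h t v (S₀ b) Q hdisj]
  · obtain ⟨h1, h2⟩ := hc' b
    have h3 : 2 ≤ #Q := by rw [h1]; omega
    have h4 := sum_powersetCard_sdiff Q h3 (f b)
    have h5 : (∑ T ∈ Q.powersetCard 2,
        cf (X v ^ 2 * ((∏ e ∈ S₀ b, af h t e) * ∏ e ∈ Q \ T, oe h t v e))) = FFs (f b) Q := h4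
    rw [h5]
    refine mul_ne_zero (mul_ne_zero ?_ (pow_ne_zero _ (by decide))) h2
    rw [prod_ne_zero_iff]
    intro e _
    unfold sg
    split_ifs <;> decide
  · intro e he
    simp only [S₀, mem_filter, mem_univ, true_and] at he
    exact he.2
  · intro e he
    rcases ((hmQ e).1 he).1 with h3 | h3
    · exact Or.inl ⟨h3, hloop e h3⟩
    · exact Or.inr ⟨fun h4 => hloop e h4 h3, h3⟩

/-- `(G3_k)` from the local lemma. -/
theorem GK_of_local {k : ℕ} (hL : LocalLemma k) : GK k := by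
  intro W E _ _ _ _ h t hd
  refine dig_induction (k := k) h (fun t => ∃ c : E → Fin k, ∀ b, D h t {e | c e = b} ≠ 0)
    (fun t hd htr => exists_good_of_triv hd htr) ?_ t hd
  intro t v σ hd hout hσ hinj _ IH
  exact step_of_local hL hd hout hσ hinj IH

end G3
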