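import Pool.Agent.Lib_MP_e457e7_g3.Loc3
import Pool.Agent.Lib_MP_e457e7_g3.StepG

/-!
The local lemma for every number `k ≥ 3` of classes.
-/

set_option autoImplicit false
set_option linter.unusedSectionVars false

namespace Pool.Agent.LibE457g

open Finset

variable {ι β : Type*} [DecidableEq ι] [DecidableEq β]

/-- Witness of a class with `j` split arcs. -/
def Wit (f : Finset ι → ZMod 3) (j : ℕ) (W : Finset ι) : Prop :=
  (j = 0 ∧ W = ∅ ∧ f ∅ ≠ 0) ∨
  (j = 1 ∧ ∃ a a', a ≠ a' ∧ W = {a, a'} ∧ f {a} ≠ f {a'}) ∨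
  (j = 2 ∧ ∃ a a' b b', a ≠ a' ∧ a ≠ b ∧ a ≠ b' ∧ a' ≠ b ∧ a' ≠ b' ∧ b ≠ b' ∧
    W = {a, a', b, b'} ∧ D2 f a a' b b' ≠ 0)

theorem card_four' {a a' b b' : ι} (haa : a ≠ a') (hab : a ≠ b) (hab' : a ≠ b')
    (hab2 : a' ≠ b) (hab2' : a' ≠ b') (hbb : b ≠ b') :
    ({a, a', b, b'} : Finset ι).card = 4 := by
  rw [card_insert_of_notMem, card_insert_of_notMem, card_insert_of_notMem, card_singleton]
  · simpa using hbb
  · simp [hab2, hab2']
  · simp [haa, hab, hab']

theorem card_three' {a b c : ι} (hab : a ≠ b) (hac : a ≠ c) (hbc : b ≠ c) :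
    ({a, b, c} : Finset ι).card = 3 := by
  rw [card_insert_of_notMem, card_insert_of_notMem, card_singleton]
  · simpa using hbc
  · simp [hab, hac]

theorem Wit.card {f : Finset ι → ZMod 3} {j : ℕ} {W : Finset ι} (h : Wit f j W) :
    W.card = 2 * j := by
  rcases h with ⟨rfl, rfl, _⟩ | ⟨rfl, a, a', h1, rfl, _⟩ |
    ⟨rfl, a, a', b, b', h1, h2, h3, h4, h5, h6, rfl, _⟩
  · rfl
  · rw [card_pair h1]
  · rw [card_four' h1 h2 h3 h4 h5 h6]

theorem Wit.greedy {f : Finset ι → ZMod 3} {j : ℕ} {W : Finset ι} (h : Wit f j W) {u w : ι}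
    (huw : u ≠ w) (hu : u ∉ W) (hw : w ∉ W) :
    ∃ Q ⊆ insert u (insert w W), Q.card = j + 2 ∧ FF f Q ≠ 0 := by
  rcases h with ⟨rfl, rfl, h0⟩ | ⟨rfl, a, a', h1, rfl, h0⟩ |
    ⟨rfl, a, a', b, b', h1, h2, h3, h4, h5, h6, rfl, h0⟩
  · refine ⟨{u, w}, by simp, by rw [card_pair huw], ?_⟩
    rw [FF_zero f huw]
    exact h0
  · simp only [mem_insert, mem_singleton, not_or] at hu hw
    have c1 : ({u, w, a} : Finset ι).card = 3 := card_three' huw hu.1 hw.1
    have c2 : ({u, w, a'} : Finset ι).card = 3 := card_three' huw hu.2 hw.2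
    by_contra hcon
    push Not at hcon
    have e1 := hcon {u, w, a} (by
      intro r hr
      simp only [mem_insert, mem_singleton] at hr ⊢
      tauto) c1
    have e2 := hcon {u, w, a'} (by
      intro r hr
      simp only [mem_insert, mem_singleton] at hr ⊢
      tauto) c2
    have hun : ∀ x, u ≠ x → u ∉ ({w, x} : Finset ι) := by
      intro x hx hm
      simp only [mem_insert, mem_singleton] at hm
      exact hm.elim huw hx
    rw [FF_one f c1, sum_insert (hun a hu.1), sum_pair hw.1] at e1
    rw [FF_one f c2, sum_insert (hun a' hu.2), sum_pair hw.2] at e2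
    apply h0
    linear_combination e1 - e2
  · simp only [mem_insert, mem_singleton, not_or] at hu hw
    obtain ⟨ua, ua', ub, ub'⟩ := hu
    obtain ⟨wa, wa', wb, wb'⟩ := hw
    by_contra hcon
    push Not at hcon
    have key : ∀ x y, (x = a ∨ x = a') → (y = b ∨ y = b') → F4 f x y u w = 0 := by
      intro x y hx hy
      have hxy : x ≠ y := by rcases hx with rfl | rfl <;> rcases hy with rfl | rfl <;> assumption
      have hxu : x ≠ u := by
        rcases hx with rfl | rfl
        · exact Ne.symm ua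
        · exact Ne.symm ua'
      have hxw : x ≠ w := by
        rcases hx with rfl | rfl
        · exact Ne.symm wa
        · exact Ne.symm wa'
      have hyu : y ≠ u := by
        rcases hy with rfl | rfl
        · exact Ne.symm ub
        · exact Ne.symm ub'
      have hyw : y ≠ w := by
        rcases hy with rfl | rfl
        · exact Ne.symm wb
        · exact Ne.symm wb'
      have hc := card_four' hxy hxu hxw hyu hyw huw
      rw [← FF_four f hc]
      apply hcon _ _ hc
      intro r hr
      simp only [mem_insert, mem_singleton] at hr ⊢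
      rcases hr with rfl | rfl | rfl | rfl
      · rcases hx with rfl | rfl
        · exact Or.inr (Or.inr (Or.inl rfl))
        · exact Or.inr (Or.inr (Or.inr (Or.inl rfl)))
      · rcases hy with rfl | rfl
        · exact Or.inr (Or.inr (Or.inr (Or.inr (Or.inl rfl))))
        · exact Or.inr (Or.inr (Or.inr (Or.inr (Or.inr rfl))))
      · exact Or.inl rfl
      · exact Or.inr (Or.inl rfl)
    have e1 := key a b (Or.inl rfl) (Or.inl rfl)
    have e2 := key a' b (Or.inr rfl) (Or.inl rfl)
    have e3 := key a b' (Or.inl rfl) (Or.inr rfl)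
    have e4 := key a' b' (Or.inr rfl) (Or.inr rfl)
    apply h0
    unfold F4 at e1 e2 e3 e4
    unfold D2
    linear_combination e1 - e2 - e3 + e4

/-- The state of the procedure. -/
structure St (f : β → Finset ι → ZMod 3) (j : β → ℕ) (B : Finset β) (N : Finset ι)
    (W : β → Finset ι) : Prop where
  sub : ∀ b ∈ B, W b ⊆ N
  wit : ∀ b ∈ B, Wit (f b) (j b) (W b)
  dis : ∀ b ∈ B, ∀ b' ∈ B, b ≠ b' → Disjoint (W b) (W b')
  card : N.card = ∑ b ∈ B, (j b + 2)

/-- A solution. -/
def Sol (f : β → Finset ι → ZMod 3) (j : β → ℕ) (B : Finset β) (N : Finset ι) : Prop :=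
  ∃ Q : β → Finset ι, (∀ b ∈ B, Q b ⊆ N ∧ (Q b).card = j b + 2 ∧ FF (f b) (Q b) ≠ 0) ∧
    ∀ b ∈ B, ∀ b' ∈ B, b ≠ b' → Disjoint (Q b) (Q b')

variable {f : β → Finset ι → ZMod 3} {j : β → ℕ} {B : Finset β} {N : Finset ι}
  {W : β → Finset ι}

theorem Sol.cons {b0 : β} {Q0 : Finset ι} (hQ : Q0 ⊆ N)
    (hc : Q0.card = j b0 + 2) (h0 : FF (f b0) Q0 ≠ 0) (h : Sol f j (B.erase b0) (N \ Q0)) :
    Sol f j B N := by
  obtain ⟨Q, h1, h2⟩ := h
  refine ⟨Function.update Q b0 Q0, ?_, ?_⟩
  · intro b hb
    by_cases hbb : b = b0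
    · subst hbb
      rw [Function.update_self]
      exact ⟨hQ, hc, h0⟩
    · rw [Function.update_of_ne hbb]
      obtain ⟨h3, h4, h5⟩ := h1 b (mem_erase.2 ⟨hbb, hb⟩)
      exact ⟨h3.trans sdiff_subset, h4, h5⟩
  · intro b hb b' hb' hbb'
    by_cases hbb : b = b0
    · subst hbb
      rw [Function.update_self, Function.update_of_ne hbb'.symm]
      exact (disjoint_sdiff (s := Q0) (t := N)).mono_right
        (h1 b' (mem_erase.2 ⟨hbb'.symm, hb'⟩)).1
    · by_cases hb0' : b' = b0
      · subst hb0'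
        rw [Function.update_self, Function.update_of_ne hbb]
        exact ((disjoint_sdiff (s := Q0) (t := N)).mono_right
          (h1 b (mem_erase.2 ⟨hbb, hb⟩)).1).symm
      · rw [Function.update_of_ne hbb, Function.update_of_ne hb0']
        exact h2 b (mem_erase.2 ⟨hbb, hb⟩) b' (mem_erase.2 ⟨hb0', hb'⟩) hbb'

theorem St.step (hs : St f j B N W) {b0 : β} (hb0 : b0 ∈ B) {Q0 : Finset ι} (hQ : Q0 ⊆ N)
    (hc : Q0.card = j b0 + 2) (hd : ∀ b ∈ B, b ≠ b0 → Disjoint Q0 (W b)) :
    St f j (B.erase b0) (N \ Q0) W := by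
  refine ⟨?_, ?_, ?_, ?_⟩
  · intro b hb
    obtain ⟨h1, h2⟩ := mem_erase.1 hb
    rw [subset_sdiff]
    exact ⟨hs.sub b h2, (hd b h2 h1).symm⟩
  · intro b hb
    exact hs.wit b (mem_of_mem_erase hb)
  · intro b hb b' hb' hbb
    exact hs.dis b (mem_of_mem_erase hb) b' (mem_of_mem_erase hb') hbb
  · rw [card_sdiff_of_subset hQ, hs.card, hc, ← add_sum_erase B (fun b => j b + 2) hb0]
    simp

theorem St.pool (hs : St f j B N W) : ∃ P ⊆ N, (∀ b ∈ B, Disjoint P (W b)) ∧
    P.card + 2 * ∑ b ∈ B, j b = N.card := by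
  refine ⟨N \ B.biUnion W, sdiff_subset, ?_, ?_⟩
  · intro b hb
    exact (sdiff_disjoint (s := B.biUnion W) (t := N)).mono_right (subset_biUnion_of_mem W hb)
  · have hsub : B.biUnion W ⊆ N := biUnion_subset.2 hs.sub
    have hc : (B.biUnion W).card = 2 * ∑ b ∈ B, j b := by
      rw [card_biUnion (fun b hb b' hb' hbb => hs.dis b hb b' hb' hbb), mul_sum]
      exact sum_congr rfl (fun b hb => (hs.wit b hb).card)
    have h1 := card_le_card hsub
    rw [card_sdiff_of_subset hsub, ← hc]
    omega

theorem St.card' (hs : St f j B N W) : N.card = ∑ b ∈ B, j b + 2 * B.card := by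
  rw [hs.card, sum_add_distrib, sum_const, smul_eq_mul, mul_comm]

theorem St.greedy (hs : St f j B N W) {b0 : β} (hb0 : b0 ∈ B)
    (hp : ∑ b ∈ B, j b + 2 ≤ 2 * B.card) :
    ∃ Q0 ⊆ N, Q0.card = j b0 + 2 ∧ FF (f b0) Q0 ≠ 0 ∧
      ∀ b ∈ B, b ≠ b0 → Disjoint Q0 (W b) := by
  obtain ⟨P, hPN, hPd, hPc⟩ := hs.pool
  have h1 := hs.card'
  have h2 : 1 < P.card := by omega
  obtain ⟨u, hu, w, hw, huw⟩ := one_lt_card.1 h2
  obtain ⟨Q, hQ, hQc, hQ0⟩ := (hs.wit b0 hb0).greedy huw
    (disjoint_left.1 (hPd b0 hb0) hu) (disjoint_left.1 (hPd b0 hb0) hw)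
  refine ⟨Q, ?_, hQc, hQ0, ?_⟩
  · intro r hr
    rcases mem_insert.1 (hQ hr) with rfl | hr'
    · exact hPN hu
    · rcases mem_insert.1 hr' with rfl | hr''
      · exact hPN hw
      · exact hs.sub b0 hb0 hr''
  · intro b hb hbb
    rw [disjoint_left]
    intro r hr
    rcases mem_insert.1 (hQ hr) with rfl | hr'
    · exact disjoint_left.1 (hPd b hb) hu
    · rcases mem_insert.1 hr' with rfl | hr''
      · exact disjoint_left.1 (hPd b hb) hw
      · exact disjoint_left.1 (hs.dis b0 hb0 b hb hbb.symm) hr''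

/-- Two classes of type one. -/
theorem sol_two (hs : St f j B N W) (hB : B.card = 2) (hj : ∀ b ∈ B, j b = 1) :
    Sol f j B N := by
  obtain ⟨b1, b2, hb12, rfl⟩ := card_eq_two.1 hB
  have j1 := hj b1 (by simp)
  have j2 := hj b2 (by simp)
  have hN : N.card = 6 := by
    rw [hs.card, sum_pair hb12, j1, j2]
  have w1 := hs.wit b1 (by simp)
  have w2 := hs.wit b2 (by simp)
  have s1 := hs.sub b1 (by simp)
  have s2 := hs.sub b2 (by simp)
  have hd := hs.dis b1 (by simp) b2 (by simp) hb12
  rcases w1 with ⟨h, _⟩ | ⟨_, a, a', haa, hW1, hf⟩ | ⟨h, _⟩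
  · omega
  · rcases w2 with ⟨h, _⟩ | ⟨_, b, b', hbb, hW2, hψ⟩ | ⟨h, _⟩
    · omega
    · rw [hW1] at s1 hd
      rw [hW2] at s2 hd
      have hne : ∀ x y, (x = a ∨ x = a') → (y = b ∨ y = b') → x ≠ y := by
        intro x y hx hy hxy
        have g1 : x ∈ ({a, a'} : Finset ι) := by simpa using hx
        have g2 : x ∈ ({b, b'} : Finset ι) := by rw [hxy]; simpa using hy
        exact disjoint_left.1 hd g1 g2
      have hnb := two_ones (f b1) (ψ := fun x => f b2 {x}) hN (s1 (by simp : a ∈ _))
        (s1 (by simp : a' ∈ _)) (s2 (by simp : b ∈ _)) (s2 (by simp : b' ∈ _)) haa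
        (hne a b (Or.inl rfl) (Or.inl rfl)) (hne a b' (Or.inl rfl) (Or.inr rfl))
        (hne a' b (Or.inr rfl) (Or.inl rfl)) (hne a' b' (Or.inr rfl) (Or.inr rfl)) hbb hf hψ
      unfold Bad at hnb
      push Not at hnb
      obtain ⟨T, hT, hT3, hT0, hTψ⟩ := hnb
      refine ⟨fun b => if b = b1 then N \ T else T, ?_, ?_⟩
      · intro b hb
        by_cases hb1 : b = b1
        · subst hb1
          simp only [if_true]
          refine ⟨sdiff_subset, ?_, hT0⟩
          rw [card_sdiff_of_subset hT, hN, hT3, j1]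
        · have hb2 : b = b2 := by
            rw [mem_insert, mem_singleton] at hb
            exact hb.resolve_left hb1
          subst hb2
          simp only [if_neg hb1]
          refine ⟨hT, by rw [hT3, j2], ?_⟩
          rw [FF_one _ hT3]
          exact hTψ
      · intro b hb b' hb' hbb'
        show Disjoint (if b = b1 then N \ T else T) (if b' = b1 then N \ T else T)
        by_cases hb1 : b = b1
        · rw [if_pos hb1, if_neg (fun h => hbb' (hb1.trans h.symm))]
          exact sdiff_disjoint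
        · have hb1' : b' = b1 := by
            rw [mem_insert, mem_singleton] at hb hb'
            rcases hb' with h | h
            · exact h
            · exact absurd ((hb.resolve_left hb1).trans h.symm) hbb'
          rw [if_neg hb1, if_pos hb1']
          exact disjoint_sdiff
    · omega
  · omega

/-- The greedy procedure: at least two free points. -/
theorem sol_greedy (n : ℕ) : ∀ (B : Finset β) (N : Finset ι), B.card = n → St f j B N W →
    (∀ b ∈ B, j b ≤ 2) → (B = ∅ ∨ ∑ b ∈ B, j b + 2 ≤ 2 * B.card) → Sol f j B N := by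
  induction n with
  | zero =>
    intro B N hn _ _ _
    rw [card_eq_zero] at hn
    subst hn
    exact ⟨fun _ => ∅, by simp, by simp⟩
  | succ n ih =>
    intro B N hn hs hj hp
    have hp' : ∑ b ∈ B, j b + 2 ≤ 2 * B.card := by
      rcases hp with rfl | hp
      · simp at hn
      · exact hp
    have hsum : ∀ b0 ∈ B, j b0 + ∑ b ∈ B.erase b0, j b = ∑ b ∈ B, j b :=
      fun b0 h => add_sum_erase B j h
    have hcard : ∀ b0 ∈ B, (B.erase b0).card = n := by
      intro b0 h
      rw [card_erase_of_mem h, hn]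
      rfl
    have hgo : ∀ b0 ∈ B, (B.erase b0 = ∅ ∨ ∑ b ∈ B.erase b0, j b + 2 ≤ 2 * (B.erase b0).card) →
        Sol f j B N := by
      intro b0 hb0 hh
      obtain ⟨Q0, h1, h2, h3, h4⟩ := hs.greedy hb0 hp'
      exact Sol.cons h1 h2 h3 (ih _ _ (hcard b0 hb0) (hs.step hb0 h1 h2 h4)
        (fun b hb => hj b (mem_of_mem_erase hb)) hh)
    by_cases h2 : ∃ b0 ∈ B, j b0 = 2
    · obtain ⟨b0, hb0, hj0⟩ := h2
      apply hgo b0 hb0
      right
      have h3 := hsum b0 hb0
      rw [hcard b0 hb0]
      omega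
    · push Not at h2
      have hj1 : ∀ b ∈ B, j b ≤ 1 := fun b hb => by
        have := hj b hb
        have := h2 b hb
        omega
      have hle : ∑ b ∈ B, j b ≤ B.card := by
        have := sum_le_card_nsmul B j 1 hj1
        simpa using this
      by_cases h1 : ∃ b0 ∈ B, j b0 = 1
      · obtain ⟨b0, hb0, hj0⟩ := h1
        have h3 := hsum b0 hb0
        by_cases hall : B.card = 2 ∧ ∀ b ∈ B, j b = 1
        · exact sol_two hs hall.1 hall.2
        · apply hgo b0 hb0
          rw [hcard b0 hb0]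
          right
          by_cases hn2 : B.card = 2
          · have hall' : ¬ ∀ b ∈ B, j b = 1 := fun h => hall ⟨hn2, h⟩
            push Not at hall'
            obtain ⟨b', hb', hjb'⟩ := hall'
            have h4 := hsum b' hb'
            have h5 : ∑ b ∈ B.erase b', j b ≤ (B.erase b').card := by
              have := sum_le_card_nsmul (B.erase b') j 1
                (fun b hb => hj1 b (mem_of_mem_erase hb))
              simpa using this
            rw [hcard b' hb'] at h5
            have := hj1 b' hb'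
            omega
          · omega
      · push Not at h1
        have hz : ∀ b ∈ B, j b = 0 := fun b hb => by
          have := hj1 b hb
          have := h1 b hb
          omega
        obtain ⟨b0, hb0⟩ := card_pos.1 (by omega : 0 < B.card)
        apply hgo b0 hb0
        rw [hcard b0 hb0]
        by_cases hn0 : n = 0
        · left
          rw [← card_eq_zero, hcard b0 hb0, hn0]
        · right
          have : ∑ b ∈ B.erase b0, j b = 0 :=
            sum_eq_zero (fun b hb => hz b (mem_of_mem_erase hb))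
          omega

theorem exists_single (hj : ∀ b ∈ B, j b ≤ 2) (hp : ∑ b ∈ B, j b + 1 = 2 * B.card) :
    ∃ b1 ∈ B, j b1 = 1 ∧ ∀ b ∈ B, b ≠ b1 → j b = 2 := by
  have hb1 : ∃ b1 ∈ B, j b1 < 2 := by
    by_contra hcon
    push Not at hcon
    have : ∑ b ∈ B, j b = ∑ _b ∈ B, 2 :=
      sum_congr rfl (fun b hb => le_antisymm (hj b hb) (hcon b hb))
    rw [this, sum_const, smul_eq_mul] at hp
    omega
  obtain ⟨b1, hb1, hjb1⟩ := hb1
  have h1 := add_sum_erase B j hb1
  have h2 : ∀ C : Finset β, C ⊆ B → ∑ b ∈ C, j b ≤ 2 * C.card := by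
    intro C hC
    have h : ∑ b ∈ C, j b ≤ C.card • 2 := sum_le_card_nsmul C j 2 (fun b hb => hj b (hC hb))
    rw [smul_eq_mul] at h
    omega
  have h3 := h2 (B.erase b1) (erase_subset _ _)
  have h4 : (B.erase b1).card = B.card - 1 := card_erase_of_mem hb1
  have h5 : 0 < B.card := card_pos.2 ⟨b1, hb1⟩
  refine ⟨b1, hb1, by omega, ?_⟩
  intro b hb hbb
  by_contra h6
  have h7 : b ∈ B.erase b1 := mem_erase.2 ⟨hbb, hb⟩
  have h8 := add_sum_erase (B.erase b1) j h7
  have h9 := h2 ((B.erase b1).erase b) ((erase_subset _ _).trans (erase_subset _ _))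
  have h10 : ((B.erase b1).erase b).card = (B.erase b1).card - 1 := card_erase_of_mem h7
  have h11 := hj b hb
  have h12 : 0 < (B.erase b1).card := card_pos.2 ⟨b, h7⟩
  omega

/-- Seven points: a class of type two, a class of type one and one free point. -/
theorem seven {W1 W2 : Finset ι} {r : ι} (h1 : W1.card = 2) (h2 : W2.card = 4)
    (hd : Disjoint W1 W2) (hr1 : r ∉ W1) (hr2 : r ∉ W2) :
    (insert r (W1 ∪ W2)).card = 7 := by
  rw [card_insert_of_notMem, card_union_of_disjoint hd, h1, h2]
  rw [mem_union]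
  exact fun h => h.elim hr1 hr2

/-- One free point left: one class of type one, at least two classes of type two. -/
theorem sol_one (n : ℕ) : ∀ (B : Finset β) (N : Finset ι) (W : β → Finset ι),
    B.card = n + 3 → St f j B N W → (∀ b ∈ B, j b ≤ 2) → ∑ b ∈ B, j b + 1 = 2 * B.card →
    Sol f j B N := by
  induction n with
  | zero =>
    intro B N W hn hs hj hp
    obtain ⟨b1, hb1, hj1, hrest⟩ := exists_single hj hp
    have hc2 : (B.erase b1).card = 2 := by rw [card_erase_of_mem hb1, hn]
    obtain ⟨b2, b3, hb23, hB'⟩ := card_eq_two.1 hc2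
    have hb2 : b2 ∈ B.erase b1 := by rw [hB']; simp
    have hb3 : b3 ∈ B.erase b1 := by rw [hB']; simp
    obtain ⟨hb21, hb2⟩ := mem_erase.1 hb2
    obtain ⟨hb31, hb3⟩ := mem_erase.1 hb3
    have hj2 := hrest b2 hb2 hb21
    have hj3 := hrest b3 hb3 hb31
    have hmem : ∀ b ∈ B, b = b1 ∨ b = b2 ∨ b = b3 := by
      intro b hb
      by_cases h : b = b1
      · exact Or.inl h
      · right
        have : b ∈ B.erase b1 := mem_erase.2 ⟨h, hb⟩
        rw [hB'] at this
        simpa using this
    have hNc := hs.card'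
    obtain ⟨P, hPN, hPd, hPc⟩ := hs.pool
    have hN : N.card = 11 := by omega
    obtain ⟨r, hr⟩ := card_pos.1 (by omega : 0 < P.card)
    have w1 := hs.wit b1 hb1
    have w2 := hs.wit b2 hb2
    have w3 := hs.wit b3 hb3
    have s1 := hs.sub b1 hb1
    have s2 := hs.sub b2 hb2
    have s3 := hs.sub b3 hb3
    have d12 := hs.dis b1 hb1 b2 hb2 hb21.symm
    have d13 := hs.dis b1 hb1 b3 hb3 hb31.symm
    have d23 := hs.dis b2 hb2 b3 hb3 hb23
    have hr1 := disjoint_left.1 (hPd b1 hb1) hr
    have hr2 := disjoint_left.1 (hPd b2 hb2) hr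
    have hr3 := disjoint_left.1 (hPd b3 hb3) hr
    have hU1c : (insert r (W b1 ∪ W b2)).card = 7 :=
      seven (by rw [w1.card, hj1]) (by rw [w2.card, hj2]) d12 hr1 hr2
    have hU1N : insert r (W b1 ∪ W b2) ⊆ N :=
      insert_subset (hPN hr) (union_subset s1 s2)
    have hW3U : ∀ x ∈ W b3, x ∉ insert r (W b1 ∪ W b2) := by
      intro x hx h
      rcases mem_insert.1 h with rfl | h
      · exact hr3 hx
      · rcases mem_union.1 h with h | h
        · exact disjoint_left.1 d13 h hx
        · exact disjoint_left.1 d23 h hx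
    have hin1 : ∀ x ∈ W b1, x ∈ insert r (W b1 ∪ W b2) := fun x hx =>
      mem_insert_of_mem (mem_union_left _ hx)
    have hin2 : ∀ x ∈ W b2, x ∈ insert r (W b1 ∪ W b2) := fun x hx =>
      mem_insert_of_mem (mem_union_right _ hx)
    have hne12 : ∀ x ∈ W b1, ∀ y ∈ W b2, x ≠ y := fun x hx y hy h =>
      disjoint_left.1 d12 hx (h ▸ hy)
    generalize hU1def : insert r (W b1 ∪ W b2) = U1 at hU1c hU1N hW3U hin1 hin2
    rcases w1 with ⟨h, _⟩ | ⟨_, c, c', hcc, hW1, hψ⟩ | ⟨h, _⟩
    · omega
    · rcases w2 with ⟨h, _⟩ | ⟨h, _⟩ | ⟨_, a, a', b, b', n1, n2, n3, n4, n5, n6, hW2, hD2⟩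
      · omega
      · omega
      · rcases w3 with ⟨h, _⟩ | ⟨h, _⟩ | ⟨_, d, d', e, e', m1, m2, m3, m4, m5, m6, hW3, hD3⟩
        · omega
        · omega
        · rw [hW1] at hin1 hne12
          rw [hW2] at hin2 hne12
          rw [hW3] at hW3U s3
          have mc : c ∈ ({c, c'} : Finset ι) := by simp
          have mc' : c' ∈ ({c, c'} : Finset ι) := by simp
          have ma : a ∈ ({a, a', b, b'} : Finset ι) := by simp
          have ma' : a' ∈ ({a, a', b, b'} : Finset ι) := by simp
          have mb : b ∈ ({a, a', b, b'} : Finset ι) := by simp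
          have mb' : b' ∈ ({a, a', b, b'} : Finset ι) := by simp
          have md : d ∈ ({d, d', e, e'} : Finset ι) := by simp
          have md' : d' ∈ ({d, d', e, e'} : Finset ι) := by simp
          have me : e ∈ ({d, d', e, e'} : Finset ι) := by simp
          have me' : e' ∈ ({d, d', e, e'} : Finset ι) := by simp
          obtain ⟨Q1, hQ1, Q2, hQ2, Q3, hQ3, e12, e13, e23, k1, k2, k3, l1, l2, l3⟩ :=
            end221 (f b2) (f b3) (fun x => f b1 {x}) hN hU1N hU1c
              (hin2 a ma) (hin2 a' ma') (hin2 b mb) (hin2 b' mb') (hin1 c mc) (hin1 c' mc')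
              n1 n2 n3 n4 n5 n6 (hne12 c mc a ma) (hne12 c mc a' ma') (hne12 c mc b mb)
              (hne12 c mc b' mb') (hne12 c' mc' a ma) (hne12 c' mc' a' ma')
              (hne12 c' mc' b mb) (hne12 c' mc' b' mb') hD2 hψ
              (s3 md) (s3 md') (s3 me) (s3 me') (hW3U d md) (hW3U d' md') (hW3U e me)
              (hW3U e' me') m1 m2 m3 m4 m5 m6 hD3
          refine ⟨fun b => if b = b1 then Q3 else if b = b2 then Q1 else Q2, ?_, ?_⟩
          · intro x hx
            rcases hmem x hx with rfl | rfl | rfl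
            · simp only [if_true]
              refine ⟨hQ3, by rw [k3, hj1], ?_⟩
              rw [FF_one _ k3]
              exact l3
            · simp only [if_neg hb21, if_true]
              exact ⟨hQ1, by rw [k1, hj2], l1⟩
            · simp only [if_neg hb31, if_neg hb23.symm]
              exact ⟨hQ2, by rw [k2, hj3], l2⟩
          · intro x hx y hy hxy
            rcases hmem x hx with rfl | rfl | rfl <;> rcases hmem y hy with rfl | rfl | rfl
            · exact absurd rfl hxy
            · simp only [if_true, if_neg hb21]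
              exact e13.symm
            · simp only [if_true, if_neg hb31, if_neg hb23.symm]
              exact e23.symm
            · simp only [if_true, if_neg hb21]
              exact e13
            · exact absurd rfl hxy
            · simp only [if_true, if_neg hb21, if_neg hb31, if_neg hb23.symm]
              exact e12
            · simp only [if_true, if_neg hb31, if_neg hb23.symm]
              exact e23
            · simp only [if_true, if_neg hb21, if_neg hb31, if_neg hb23.symm]
              exact e12.symm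
            · exact absurd rfl hxy
    · omega
  | succ n ih =>
    intro B N W hn hs hj hp
    obtain ⟨b1, hb1, hj1, hrest⟩ := exists_single hj hp
    have hc2 : (B.erase b1).card = n + 3 := by rw [card_erase_of_mem hb1, hn]; omega
    obtain ⟨b2, hb2⟩ := card_pos.1 (by omega : 0 < (B.erase b1).card)
    obtain ⟨hb21, hb2⟩ := mem_erase.1 hb2
    have hj2 := hrest b2 hb2 hb21
    have hNc := hs.card'
    obtain ⟨P, hPN, hPd, hPc⟩ := hs.pool
    obtain ⟨r, hr⟩ := card_pos.1 (by omega : 0 < P.card)
    have w1 := hs.wit b1 hb1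
    have w2 := hs.wit b2 hb2
    have s1 := hs.sub b1 hb1
    have s2 := hs.sub b2 hb2
    have d12 := hs.dis b1 hb1 b2 hb2 hb21.symm
    have hr1 := disjoint_left.1 (hPd b1 hb1) hr
    have hr2 := disjoint_left.1 (hPd b2 hb2) hr
    have hU1c : (insert r (W b1 ∪ W b2)).card = 7 :=
      seven (by rw [w1.card, hj1]) (by rw [w2.card, hj2]) d12 hr1 hr2
    have hU1N : insert r (W b1 ∪ W b2) ⊆ N :=
      insert_subset (hPN hr) (union_subset s1 s2)
    have hU1d : ∀ b ∈ B, b ≠ b1 → b ≠ b2 → Disjoint (insert r (W b1 ∪ W b2)) (W b) := by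
      intro b hb h1 h2
      rw [disjoint_insert_left, disjoint_union_left]
      exact ⟨disjoint_left.1 (hPd b hb) hr, hs.dis b1 hb1 b hb h1.symm,
        hs.dis b2 hb2 b hb h2.symm⟩
    have hin1 : ∀ x ∈ W b1, x ∈ insert r (W b1 ∪ W b2) := fun x hx =>
      mem_insert_of_mem (mem_union_left _ hx)
    have hin2 : ∀ x ∈ W b2, x ∈ insert r (W b1 ∪ W b2) := fun x hx =>
      mem_insert_of_mem (mem_union_right _ hx)
    have hne12 : ∀ x ∈ W b1, ∀ y ∈ W b2, x ≠ y := fun x hx y hy h =>
      disjoint_left.1 d12 hx (h ▸ hy)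
    generalize hU1def : insert r (W b1 ∪ W b2) = U1 at hU1c hU1N hU1d hin1 hin2
    have hpeel : ∃ Q ⊆ U1, Q.card = 4 ∧ FF (f b2) Q ≠ 0 ∧
        ∃ x ∈ U1 \ Q, ∃ y ∈ U1 \ Q, f b1 {x} ≠ f b1 {y} := by
      rcases w1 with ⟨h, _⟩ | ⟨_, c, c', hcc, hW1, hψ⟩ | ⟨h, _⟩
      · omega
      · rcases w2 with ⟨h, _⟩ | ⟨h, _⟩ | ⟨_, a, a', b, b', n1, n2, n3, n4, n5, n6, hW2, hD2⟩
        · omega
        · omega
        · rw [hW1] at hin1 hne12
          rw [hW2] at hin2 hne12
          have mc : c ∈ ({c, c'} : Finset ι) := by simp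
          have mc' : c' ∈ ({c, c'} : Finset ι) := by simp
          have ma : a ∈ ({a, a', b, b'} : Finset ι) := by simp
          have ma' : a' ∈ ({a, a', b, b'} : Finset ι) := by simp
          have mb : b ∈ ({a, a', b, b'} : Finset ι) := by simp
          have mb' : b' ∈ ({a, a', b, b'} : Finset ι) := by simp
          exact peel (f b2) (fun x => f b1 {x}) hU1c
              (hin2 a ma) (hin2 a' ma') (hin2 b mb) (hin2 b' mb') (hin1 c mc) (hin1 c' mc')
              n1 n2 n3 n4 n5 n6 (hne12 c mc a ma) (hne12 c mc a' ma') (hne12 c mc b mb)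
              (hne12 c mc b' mb') (hne12 c' mc' a ma) (hne12 c' mc' a' ma')
              (hne12 c' mc' b mb) (hne12 c' mc' b' mb') hD2 hψ
      · omega
    obtain ⟨Q, hQU, hQ4, hQ0, x, hx, y, hy, hxy⟩ := hpeel
    obtain ⟨hxU, hxQ⟩ := mem_sdiff.1 hx
    obtain ⟨hyU, hyQ⟩ := mem_sdiff.1 hy
    have hQN := hQU.trans hU1N
    have hpair : ({x, y} : Finset ι) ⊆ U1 := by
      intro z hz
      simp only [mem_insert, mem_singleton] at hz
      rcases hz with rfl | rfl <;> assumption
    refine Sol.cons (b0 := b2) hQN (by rw [hQ4, hj2]) hQ0 ?_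
    apply ih _ _ (Function.update W b1 {x, y})
    · rw [card_erase_of_mem hb2, hn]; omega
    · refine ⟨?_, ?_, ?_, ?_⟩
      · intro b hb
        obtain ⟨hbb2, hb⟩ := mem_erase.1 hb
        rw [subset_sdiff]
        by_cases hbb : b = b1
        · subst hbb
          rw [Function.update_self]
          refine ⟨hpair.trans hU1N, ?_⟩
          rw [disjoint_left]
          intro z hz
          simp only [mem_insert, mem_singleton] at hz
          rcases hz with rfl | rfl <;> assumption
        · rw [Function.update_of_ne hbb]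
          exact ⟨hs.sub b hb, ((hU1d b hb hbb hbb2).mono_left hQU).symm⟩
      · intro b hb
        obtain ⟨hbb2, hb⟩ := mem_erase.1 hb
        by_cases hbb : b = b1
        · subst hbb
          rw [Function.update_self]
          exact Or.inr (Or.inl ⟨hj1, x, y, fun h => hxy (by rw [h]), rfl, hxy⟩)
        · rw [Function.update_of_ne hbb]
          exact hs.wit b hb
      · intro b hb b' hb' hbb'
        obtain ⟨hbb2, hb⟩ := mem_erase.1 hb
        obtain ⟨hbb2', hb'⟩ := mem_erase.1 hb'
        by_cases hbb : b = b1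
        · subst hbb
          rw [Function.update_self, Function.update_of_ne hbb'.symm]
          exact (hU1d b' hb' hbb'.symm hbb2').mono_left hpair
        · by_cases hbb1' : b' = b1
          · subst hbb1'
            rw [Function.update_self, Function.update_of_ne hbb]
            exact ((hU1d b hb hbb hbb2).mono_left hpair).symm
          · rw [Function.update_of_ne hbb, Function.update_of_ne hbb1']
            exact hs.dis b hb b' hb' hbb'
      · rw [card_sdiff_of_subset hQN, hs.card, hQ4, ← add_sum_erase B (fun b => j b + 2) hb2, hj2]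
        simp
    · exact fun b hb => hj b (mem_of_mem_erase hb)
    · have h1 := add_sum_erase B j hb2
      rw [card_erase_of_mem hb2]
      omega

/-- All types. -/
theorem sol_all (hB : 3 ≤ B.card) (hs : St f j B N W) (hj : ∀ b ∈ B, j b ≤ 2)
    (hp : ∑ b ∈ B, j b < 2 * B.card) : Sol f j B N := by
  by_cases h1 : ∑ b ∈ B, j b + 2 ≤ 2 * B.card
  · exact sol_greedy B.card B N rfl hs hj (Or.inr h1)
  · obtain ⟨n, hn⟩ := Nat.exists_eq_add_of_le' hB
    exact sol_one n B N W hn hs hj (by omega)

theorem DDs_zero {ι : Type} [DecidableEq ι] (f : Finset ι → ZMod 3) (μ : ι → ι) :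
    G3.DDs f μ ∅ = f ∅ := by
  unfold G3.DDs
  simp

theorem DDs_one {ι : Type} [DecidableEq ι] (f : Finset ι → ZMod 3) (μ : ι → ι) (a : ι) :
    G3.DDs f μ {a} = f {a} - f {μ a} := by
  unfold G3.DDs
  have : ({a} : Finset ι).powerset = {∅, {a}} := by
    ext s
    simp [subset_singleton_iff]
  rw [this, sum_pair (singleton_ne_empty a).symm]
  simp [sub_eq_add_neg]

theorem DDs_two {ι : Type} [DecidableEq ι] (f : Finset ι → ZMod 3) (μ : ι → ι) {a b : ι}
    (hab : a ≠ b) :
    G3.DDs f μ {a, b} = f {a, b} - f {μ a, b} - f {a, μ b} + f {μ a, μ b} := by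
  unfold G3.DDs
  have h1 : a ∉ ({b} : Finset ι) := by simpa using hab
  have h2 : ({b} : Finset ι).powerset = {∅, {b}} := by
    ext s
    simp [subset_singleton_iff]
  rw [sum_powerset_insert h1, h2, sum_pair (singleton_ne_empty b).symm,
    sum_pair (singleton_ne_empty b).symm]
  have e1 : ({a, b} : Finset ι) \ {b} = {a} := by
    ext r; simp only [mem_sdiff, mem_insert, mem_singleton]
    constructor
    · rintro ⟨h | h, h'⟩
      · exact h
      · exact absurd h h'
    · rintro rfl
      exact ⟨Or.inl rfl, hab⟩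
  have e2 : ({a, b} : Finset ι) \ {a} = {b} := by
    ext r; simp only [mem_sdiff, mem_insert, mem_singleton]
    constructor
    · rintro ⟨h | h, h'⟩
      · exact absurd h h'
      · exact h
    · rintro rfl
      exact ⟨Or.inr rfl, hab.symm⟩
  have e3 : insert a (∅ : Finset ι) = {a} := rfl
  have e4 : ({b} : Finset ι) ∪ {μ a} = {μ a, b} := by
    ext r; simp only [mem_union, mem_insert, mem_singleton]; exact or_comm
  have e5 : ({a} : Finset ι) ∪ {μ b} = {a, μ b} := rfl
  rw [e3, e1, e2]
  simp only [card_empty, pow_zero, one_mul, sdiff_empty, image_empty, union_empty,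
    card_singleton, pow_one, image_singleton, image_insert, sdiff_self, card_pair hab, e4, e5]
  have e6 : (⊥ : Finset ι) ∪ {μ a, μ b} = {μ a, μ b} := by
    rw [bot_eq_empty, empty_union]
  rw [e6]
  ring

/-- The local lemma for `k ≥ 3` classes. -/
theorem localLemma {k : ℕ} (hk : 3 ≤ k) : G3.LocalLemma k := by
  intro ι _ _ N O μ c hON hμN hμO hinj hN hO f hb2 hb0 hD
  let j : Fin k → ℕ := fun b => #{x ∈ O | c x = b}
  let W : Fin k → Finset ι := fun b => {x ∈ O | c x = b} ∪ ({x ∈ O | c x = b} : Finset ι).image μ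
  have hsumj : ∑ b, j b = #O :=
    (card_eq_sum_card_fiberwise (fun x _ => mem_coe.2 (mem_univ (c x)))).symm
  have hs : St f j univ N W := by
    refine ⟨?_, ?_, ?_, ?_⟩
    · intro b _
      apply union_subset
      · exact (filter_subset _ _).trans hON
      · intro x hx
        obtain ⟨y, hy, rfl⟩ := mem_image.1 hx
        exact hμN y (mem_filter.1 hy).1
    · intro b _
      have h1 := hb2 b
      have h2 := hD b
      have hsubO : ∀ x ∈ ({x ∈ O | c x = b} : Finset ι), x ∈ O := fun x hx => (mem_filter.1 hx).1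
      show Wit (f b) #{x ∈ O | c x = b} ({x ∈ O | c x = b} ∪ ({x ∈ O | c x = b} : Finset ι).image μ)
      generalize ({x ∈ O | c x = b} : Finset ι) = Ob at h1 h2 hsubO
      have h3 : #Ob = 0 ∨ #Ob = 1 ∨ #Ob = 2 := by omega
      rcases h3 with h3 | h3 | h3
      · rw [card_eq_zero] at h3
        subst h3
        rw [DDs_zero] at h2
        exact Or.inl ⟨rfl, rfl, h2⟩
      · obtain ⟨a, rfl⟩ := card_eq_one.1 h3
        rw [DDs_one] at h2
        refine Or.inr (Or.inl ⟨h3, a, μ a, ?_, rfl, fun h => h2 (by rw [h, sub_self])⟩)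
        intro h
        exact hμO a (hsubO a (by simp)) (h ▸ hsubO a (by simp))
      · obtain ⟨a, b', hab, rfl⟩ := card_eq_two.1 h3
        rw [DDs_two _ _ hab] at h2
        have ma := hsubO a (by simp)
        have mb := hsubO b' (by simp)
        refine Or.inr (Or.inr ⟨h3, a, μ a, b', μ b', ?_, hab, ?_, ?_, ?_, ?_, ?_, h2⟩)
        · exact fun h => hμO a ma (h ▸ ma)
        · exact fun h => hμO b' mb (h ▸ ma)
        · exact fun h => hμO a ma (h ▸ mb)
        · exact fun h => hab (hinj ma mb h)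
        · exact fun h => hμO b' mb (h ▸ mb)
        · rw [image_insert, image_singleton]
          ext r
          simp only [mem_union, mem_insert, mem_singleton]
          exact iff_of_eq (by ac_rfl)
    · intro b _ b' _ hbb
      rw [disjoint_left]
      intro x hx hx'
      rcases mem_union.1 hx with h1 | h1 <;> rcases mem_union.1 hx' with h2 | h2
      · exact hbb ((mem_filter.1 h1).2.symm.trans (mem_filter.1 h2).2)
      · obtain ⟨y, hy, rfl⟩ := mem_image.1 h2
        exact hμO y (mem_filter.1 hy).1 (mem_filter.1 h1).1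
      · obtain ⟨y, hy, rfl⟩ := mem_image.1 h1
        exact hμO y (mem_filter.1 hy).1 (mem_filter.1 h2).1
      · obtain ⟨y, hy, rfl⟩ := mem_image.1 h1
        obtain ⟨z, hz, hzy⟩ := mem_image.1 h2
        have := hinj (mem_filter.1 hz).1 (mem_filter.1 hy).1 hzy
        subst this
        exact hbb ((mem_filter.1 hy).2.symm.trans (mem_filter.1 hz).2)
    · rw [sum_add_distrib, hsumj, sum_const, card_univ, Fintype.card_fin, smul_eq_mul, hN]
      ring
  obtain ⟨Q, hQ1, hQ2⟩ := sol_all (B := (univ : Finset (Fin k))) (by simpa using hk) hs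
    (fun b _ => hb2 b) (by rw [hsumj, card_univ, Fintype.card_fin]; exact hO)
  have hun : (univ : Finset (Fin k)).biUnion Q = N := by
    apply eq_of_subset_of_card_le
    · exact biUnion_subset.2 (fun b hb => (hQ1 b hb).1)
    · rw [card_biUnion (fun b hb b' hb' hbb => hQ2 b hb b' hb' hbb), hs.card]
      exact (sum_congr rfl (fun b hb => ((hQ1 b hb).2.1).symm)).le
  have hex : ∀ x : ι, ∃ b : Fin k, x ∈ N → x ∈ Q b := by
    intro x
    by_cases hx : x ∈ N
    · rw [← hun] at hx
      obtain ⟨b, _, hb⟩ := mem_biUnion.1 hx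
      exact ⟨b, fun _ => hb⟩
    · exact ⟨⟨0, by omega⟩, fun h => absurd h hx⟩
  choose c' hc' using hex
  refine ⟨c', fun b => ?_⟩
  have hset : ({x ∈ N | c' x = b} : Finset ι) = Q b := by
    ext x
    rw [mem_filter]
    constructor
    · rintro ⟨h1, rfl⟩
      exact hc' x h1
    · intro hx
      have hxN := (hQ1 b (mem_univ b)).1 hx
      refine ⟨hxN, ?_⟩
      by_contra hne
      exact disjoint_left.1 (hQ2 _ (mem_univ _) b (mem_univ _) hne) (hc' x hxN) hx
  rw [hset]
  obtain ⟨_, h2, h3⟩ := hQ1 b (mem_univ b)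
  exact ⟨h2, h3⟩

end Pool.Agent.LibE457g
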