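import Pool.Agent.Lib_MP_e457e7_g3.DefsG

/-! # Piece P2: block vectors -/

set_option autoImplicit false

namespace G3
open MvPolynomial Finset

variable {W : Type*} [Fintype W] [DecidableEq W] {E : Type*} [Fintype E] [DecidableEq E]

omit [Fintype W] [DecidableEq W] in
/-- the exponents of a product of monomials in disjoint sets of variables -/
theorem sum_mapDomain_apply {k : ℕ} (φ : Fin k → W →₀ ℕ) (w : W) (b : Fin k) :
    (∑ b, (φ b).mapDomain fun w => (w, b)) (w, b) = φ b w := by
  rw [Finsupp.finsetSum_apply, sum_eq_single b]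
  · exact Finsupp.mapDomain_apply (fun w w' h => (Prod.mk.injEq _ _ _ _ ▸ h).1) (φ b) w
  · intro b' _ hb'
    refine Finsupp.mapDomain_of_notMem_range _ _ ?_
    rintro ⟨w', hw'⟩
    exact hb' (Prod.mk.injEq _ _ _ _ ▸ hw').2
  · intro h
    exact absurd (mem_univ b) h

theorem cf_prod_rename {k : ℕ} (g : Fin k → MvPolynomial W (ZMod 3)) :
    cf (∏ b, rename (fun w => (w, b)) (g b)) = ∏ b, cf (g b) := by
  classical
  set M : W →₀ ℕ := Finsupp.equivFunOnFinite.symm fun _ => 2 with hM
  have h1 : ∀ b, rename (fun w => (w, b)) (g b) = ∑ m ∈ insert M (g b).support,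
      C (coeff m (g b)) * monomial (m.mapDomain fun w => (w, b)) 1 := by
    intro b
    have h2 : g b = ∑ m ∈ insert M (g b).support, monomial m (coeff m (g b)) := by
      conv_lhs => rw [← support_sum_monomial_coeff (g b)]
      refine sum_subset (subset_insert _ _) fun m _ hm => ?_
      rw [notMem_support_iff.1 hm, monomial_zero]
    conv_lhs => rw [h2]
    rw [map_sum]
    refine sum_congr rfl fun m _ => ?_
    rw [rename_monomial, C_mul_monomial, mul_one]
  have h3 : ∏ b, rename (fun w => (w, b)) (g b) =
      ∑ φ ∈ Fintype.piFinset fun b => insert M (g b).support,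
        monomial (∑ b, (φ b).mapDomain fun w => (w, b)) (∏ b, coeff (φ b) (g b)) := by
    rw [prod_congr rfl fun b _ => h1 b, prod_univ_sum]
    refine sum_congr rfl fun φ _ => ?_
    rw [prod_mul_distrib, ← map_prod, monomial_sum_index]
  rw [h3, cf_sum]
  have h4 : ∀ φ : Fin k → W →₀ ℕ, cf (monomial (∑ b, (φ b).mapDomain fun w => (w, b))
      (∏ b, coeff (φ b) (g b))) = if φ = fun _ => M then ∏ b, coeff (φ b) (g b) else 0 := by
    intro φ
    rw [cf, coeff_monomial]
    have h5 : (∑ b, (φ b).mapDomain fun w => (w, b)) =
        (Finsupp.equivFunOnFinite.symm fun _ => 2) ↔ φ = fun _ => M := by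
      constructor
      · intro h
        funext b
        ext w
        have h6 := sum_mapDomain_apply φ w b
        rw [h] at h6
        exact h6.symm
      · intro h
        ext ⟨w, b⟩
        rw [sum_mapDomain_apply, h]
        rfl
    simp only [h5]
  rw [sum_congr rfl fun φ _ => h4 φ, sum_ite_eq', if_pos]
  · rfl
  · rw [Fintype.mem_piFinset]
    exact fun b => mem_insert_self _ _

/-- PIECE P2. PROOF. The form of the block vector is `rename (fun w => (w, c e)) (lf (x e))`, so the
product is the product over `b` of the renamed polynomials `f_b = ∏_{c e = b} lf (x e)`. The coefficient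
of `∏ X_(w,b) ^ 2` of a product of polynomials in disjoint sets of variables is the product of the
coefficients (induction over the set of classes `b`, `coeff_mul` and `coeff_rename_embDomain`,
`coeff_rename_eq_zero`; or both sides are multilinear in the `f_b`, so take monomials). -/
theorem cf_block {k : ℕ} (x : E → W → ZMod 3) (c : E → Fin k) :
    cf (∏ e, lf (fun p : W × Fin k => if c e = p.2 then x e p.1 else 0)) =
      ∏ b : Fin k, cf (∏ e ∈ univ.filter (fun e => c e = b), lf (x e)) := by
  have h1 : ∀ e, lf (fun p : W × Fin k => if c e = p.2 then x e p.1 else 0) =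
      rename (fun w => (w, c e)) (lf (x e)) := by
    intro e
    rw [lf, lf, map_sum, Fintype.sum_prod_type]
    refine sum_congr rfl fun w _ => ?_
    rw [sum_eq_single (c e)]
    · rw [if_pos rfl, map_mul, rename_C, rename_X]
    · intro b _ hb
      rw [if_neg (Ne.symm hb), C_0, zero_mul]
    · intro h
      exact absurd (mem_univ _) h
  rw [prod_congr rfl fun e _ => h1 e, ← cf_prod_rename, ← prod_fiberwise univ c]
  congr 1
  refine prod_congr rfl fun b _ => ?_
  rw [map_prod]
  refine prod_congr rfl fun e he => ?_
  rw [(mem_filter.1 he).2]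

end G3
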