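import Pool.Agent.Lib_MP_e457e7_g3.DefsG
import Pool.Agent.Lib_MP_e457e7_co_k.Edmonds

/-! # Piece P9: `GK k → GK (k + 1)` -/

set_option autoImplicit false

namespace G3
open MvPolynomial Finset

variable {W : Type*} [Fintype W] [DecidableEq W] {E : Type*} [DecidableEq E]

/-- the sum of the partial derivatives over `Y` -/
private noncomputable def dY (Y : Finset W) (f : MvPolynomial W (ZMod 3)) :
    MvPolynomial W (ZMod 3) := ∑ w ∈ Y, pderiv w f

omit [Fintype W] [DecidableEq W] in
private theorem dY_mul (Y : Finset W) (f g : MvPolynomial W (ZMod 3)) :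
    dY Y (f * g) = dY Y f * g + f * dY Y g := by
  unfold dY
  rw [sum_mul, mul_sum, ← sum_add_distrib]
  exact sum_congr rfl fun w _ => pderiv_mul

omit [Fintype W] [DecidableEq W] in
private theorem dY_prod (Y : Finset W) (R : Finset E) (f : E → MvPolynomial W (ZMod 3))
    (hf : ∀ e ∈ R, dY Y (f e) = 0) : dY Y (∏ e ∈ R, f e) = 0 := by
  induction R using Finset.induction_on with
  | empty => simp [dY]
  | insert a s ha ih =>
    rw [prod_insert ha, dY_mul, ih (fun e he => hf e (mem_insert_of_mem he)),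
      hf a (mem_insert_self _ _)]
    simp

omit [Fintype W] in
private theorem dY_X (Y : Finset W) {w : W} (hw : w ∈ Y) : dY Y (X w) = 1 := by
  unfold dY
  rw [sum_eq_single w]
  · simp
  · intro b _ hb
    rw [pderiv_X_of_ne (Ne.symm hb)]
  · intro h
    exact absurd hw h

omit [Fintype W] [DecidableEq W] in
private theorem coeff_trans {Y : Finset W} {P : MvPolynomial W (ZMod 3)} (hP : dY Y P = 0)
    {a : W →₀ ℕ} {y : W} (hy : y ∈ Y) (ha : ∀ w ∈ Y, w ≠ y → a w = 2)
    (hy1 : a y = 1 ∨ a y = 2) : coeff a P = 0 := by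
  set m : W →₀ ℕ := a - Finsupp.single y 1 with hm
  have hma : m + Finsupp.single y 1 = a := by
    rw [hm]
    refine tsub_add_cancel_of_le ?_
    rw [Finsupp.single_le_iff]
    omega
  have h1 : coeff m (dY Y P) = 0 := by rw [hP]; simp
  have h2 : coeff m (dY Y P) =
      ∑ w ∈ Y, coeff (m + Finsupp.single w 1) P * ((m w : ZMod 3) + 1) := by
    unfold dY
    rw [coeff_sum]
    exact sum_congr rfl fun w _ => coeff_pderiv _ _
  have h3 : ∀ w ∈ Y, w ≠ y → m w = 2 := by
    intro w hw hwy
    rw [hm, Finsupp.tsub_apply, Finsupp.single_eq_of_ne hwy, ha w hw hwy, Nat.sub_zero]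
  have h4 : m y + 1 = a y := by
    rw [← hma]; simp
  rw [h2, sum_eq_single y] at h1
  · rw [hma] at h1
    have h5 : ((m y : ZMod 3) + 1) ≠ 0 := by
      have : ((m y : ZMod 3) + 1) = (a y : ZMod 3) := by
        rw [← h4]; push_cast; rfl
      rw [this]
      rcases hy1 with h | h <;> rw [h] <;> decide
    exact (mul_eq_zero.1 h1).resolve_right h5
  · intro b hb hby
    rw [h3 b hb hby]
    have : (((2 : ℕ) : ZMod 3) + 1) = 0 := by decide
    rw [this, mul_zero]
  · intro h
    exact absurd hy h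

private theorem sparse_of_D {h : E → W} {t : E → Option W} {S : Finset E} (hS : D h t S ≠ 0)
    {Y : Finset W} (hY : Y.Nonempty) :
    #{e ∈ S | h e ∈ Y ∧ ∃ w ∈ Y, t e = some w} ≤ 2 * (#Y - 1) := by
  by_contra hcon
  push Not at hcon
  set R := S.filter (fun e => h e ∈ Y ∧ ∃ w ∈ Y, t e = some w) with hR
  set P : MvPolynomial W (ZMod 3) := ∏ e ∈ R, af h t e with hPdef
  have hP0 : dY Y P = 0 := by
    refine dY_prod Y R _ fun e he => ?_
    obtain ⟨-, h1, w, hw, h2⟩ := mem_filter.1 he
    have : af h t e = X (h e) - X w := by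
      rw [af, h2]; rfl
    rw [this]
    have h3 : dY Y (X (h e) - X w : MvPolynomial W (ZMod 3)) = dY Y (X (h e)) - dY Y (X w) := by
      unfold dY
      rw [← sum_sub_distrib]
      exact sum_congr rfl fun w _ => map_sub _ _ _
    rw [h3, dY_X Y h1, dY_X Y hw, sub_self]
  have hhom : P.IsHomogeneous #R := by
    have := IsHomogeneous.prod R (fun e => af h t e) (fun _ => 1) (fun e he => by
      obtain ⟨-, h1, w, hw, h2⟩ := mem_filter.1 he
      have : af h t e = X (h e) - X w := by
        rw [af, h2]; rfl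
      rw [this]
      exact (isHomogeneous_X _ _).sub (isHomogeneous_X _ _))
    simpa using this
  have hsup : P ∈ supported (ZMod 3) (Y : Set W) := by
    refine Subalgebra.prod_mem _ fun e he => ?_
    obtain ⟨-, h1, w, hw, h2⟩ := mem_filter.1 he
    have : af h t e = X (h e) - X w := by
      rw [af, h2]; rfl
    rw [this]
    exact Subalgebra.sub_mem _ (X_mem_supported.2 h1) (X_mem_supported.2 hw)
  have hprod : ∏ e ∈ S, af h t e = P * ∏ e ∈ S \ R, af h t e := by
    rw [hPdef, mul_comm, prod_sdiff (filter_subset _ _)]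
  rw [D, hprod, cf, coeff_mul] at hS
  obtain ⟨⟨a, b⟩, hab, hne⟩ := exists_ne_zero_of_sum_ne_zero hS
  rw [HasAntidiagonal.mem_antidiagonal] at hab
  have ha0 : coeff a P ≠ 0 := fun h0 => hne (by simp [h0])
  have ha2 : ∀ w, a w ≤ 2 := by
    intro w
    have := DFunLike.congr_fun hab w
    simp only [Finsupp.add_apply, Finsupp.equivFunOnFinite_symm_apply_apply] at this
    omega
  have haY : ∀ w, w ∉ Y → a w = 0 := by
    intro w hw
    by_contra h0
    have h1 := (mem_supported.1 hsup)
    have h2 : w ∈ P.vars := (mem_vars_iff_mem_support w).2 ⟨a, mem_support_iff.2 ha0, Finsupp.mem_support_iff.2 h0⟩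
    exact hw (h1 h2)
  have hdeg : a.degree = #R := by
    by_contra h0
    exact ha0 (hhom.coeff_eq_zero h0)
  have hsum : ∑ w ∈ Y, a w = #R := by
    rw [← hdeg, Finsupp.degree_eq_sum]
    exact sum_subset (subset_univ _) fun w _ hw => haY w hw
  have hYc : 0 < #Y := card_pos.2 hY
  have key : ∃ y ∈ Y, (∀ w ∈ Y, w ≠ y → a w = 2) ∧ (a y = 1 ∨ a y = 2) := by
    by_cases h2 : ∀ w ∈ Y, a w = 2
    · obtain ⟨y, hy⟩ := hY
      exact ⟨y, hy, fun w hw _ => h2 w hw, Or.inr (h2 y hy)⟩
    · push Not at h2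
      obtain ⟨y, hy, hy2⟩ := h2
      have h3 : ∑ w ∈ Y.erase y, a w + a y = #R := by
        rw [sum_erase_add _ _ hy, hsum]
      have h4 : ∑ w ∈ Y.erase y, a w ≤ ∑ w ∈ Y.erase y, 2 := sum_le_sum fun w _ => ha2 w
      rw [sum_const, card_erase_of_mem hy, smul_eq_mul] at h4
      have h5 := ha2 y
      refine ⟨y, hy, ?_, Or.inl (by omega)⟩
      intro w hw hwy
      by_contra h6
      have h7 := ha2 w
      have hw' : w ∈ Y.erase y := mem_erase.2 ⟨hwy, hw⟩
      have h8 : ∑ u ∈ (Y.erase y).erase w, a u + a w = ∑ u ∈ Y.erase y, a u :=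
        sum_erase_add _ _ hw'
      have h9 : ∑ u ∈ (Y.erase y).erase w, a u ≤ ∑ u ∈ (Y.erase y).erase w, 2 :=
        sum_le_sum fun w _ => ha2 w
      rw [sum_const, card_erase_of_mem hw', card_erase_of_mem hy, smul_eq_mul] at h9
      have h10 : 0 < #((Y.erase y)) := card_pos.2 ⟨w, hw'⟩
      rw [card_erase_of_mem hy] at h10
      omega
  obtain ⟨y, hy, h1, h2⟩ := key
  exact ha0 (coeff_trans hP0 hy h1 h2)

/-- PIECE P9a. PROOF. `D ≠ 0` means that the coefficient of `∏ X ^ 2` of the product of the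
`X (h e) - xv (t e)` is not zero, so there is a choice of one end of every arc (not the root) which
chooses every vertex exactly twice (expand the product), and an arc inside `Y` chooses a vertex of `Y`. The
arcs inside `Y` are at most `2 * (card Y - 1)`: substitute `X w → X w + 1` for `w ∈ Y`, or: the forms of these
arcs involve only the differences of the variables of `Y`, so if there are `2 * card Y` of them (all the
arcs choosing `Y`), the product of their forms has coefficient `0` at `∏_Y X ^ 2`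
(translation invariance: such a form is killed by `∑_Y ∂_w`). -/
theorem orient_of_D {h : E → W} {t : E → Option W} {S : Finset E} (hS : D h t S ≠ 0) :
    ∃ o : E → Bool, (∀ e ∈ S, o e = false → t e ≠ none) ∧
      (∀ w, #{e ∈ S | (o e = true ∧ h e = w) ∨ (o e = false ∧ t e = some w)} = 2) ∧
      ∀ Y : Finset W, Y.Nonempty → #{e ∈ S | h e ∈ Y ∧ ∃ w ∈ Y, t e = some w} ≤ 2 * (#Y - 1) := by
  have hS' := hS
  have hexp : ∏ e ∈ S, af h t e = ∑ T ∈ S.powerset, (∏ e ∈ T, (X (h e) : MvPolynomial W (ZMod 3))) *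
      ∏ e ∈ S \ T, (-xv (t e)) := by
    rw [← prod_add]
    exact prod_congr rfl fun e _ => by rw [af, sub_eq_add_neg]
  rw [D, hexp, cf_sum] at hS'
  obtain ⟨T, hT, hne⟩ := exists_ne_zero_of_sum_ne_zero hS'
  rw [mem_powerset] at hT
  have ht : ∀ e ∈ S, e ∉ T → t e ≠ none := by
    intro e he heT h0
    apply hne
    have : ∏ e ∈ S \ T, (-xv (t e) : MvPolynomial W (ZMod 3)) = 0 := by
      refine prod_eq_zero (mem_sdiff.2 ⟨he, heT⟩) ?_
      rw [h0]; simp [xv]
    rw [this, mul_zero, cf_zero]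
  let u : E → W := fun e => if e ∈ T then h e else (t e).getD (h e)
  have h1 : ∏ e ∈ T, (X (h e) : MvPolynomial W (ZMod 3)) = ∏ e ∈ T, X (u e) :=
    prod_congr rfl fun e he => by simp only [u, if_pos he]
  have h2 : ∏ e ∈ S \ T, (-xv (t e) : MvPolynomial W (ZMod 3)) =
      (-1) ^ #(S \ T) * ∏ e ∈ S \ T, X (u e) := by
    rw [← prod_const, ← prod_mul_distrib]
    refine prod_congr rfl fun e he => ?_
    obtain ⟨he1, he2⟩ := mem_sdiff.1 he
    obtain ⟨w, hw⟩ := Option.ne_none_iff_exists'.1 (ht e he1 he2)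
    simp only [u, if_neg he2, hw, Option.getD_some, xv, Option.elim_some]
    ring
  have h3 : ∏ e ∈ S, (X (u e) : MvPolynomial W (ZMod 3)) =
      monomial (∑ e ∈ S, Finsupp.single (u e) 1) 1 := by
    rw [monomial_sum_one]
    rfl
  have h4 : (∏ e ∈ T, (X (h e) : MvPolynomial W (ZMod 3))) * ∏ e ∈ S \ T, (-xv (t e)) =
      C ((-1) ^ #(S \ T)) * monomial (∑ e ∈ S, Finsupp.single (u e) 1) 1 := by
    rw [h1, h2, ← h3, ← prod_sdiff hT]
    simp only [map_pow, map_neg, map_one]
    ring
  rw [h4, cf_C_mul, cf, coeff_monomial] at hne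
  have h5 : ∑ e ∈ S, Finsupp.single (u e) 1 = Finsupp.equivFunOnFinite.symm fun _ : W => 2 := by
    by_contra h0
    rw [if_neg h0, mul_zero] at hne
    exact hne rfl
  refine ⟨fun e => decide (e ∈ T), ?_, ?_, fun Y hY => sparse_of_D hS hY⟩
  · intro e he ho
    exact ht e he (by simpa using ho)
  · intro w
    have h6 := DFunLike.congr_fun h5 w
    rw [Finsupp.finsetSum_apply] at h6
    simp only [Finsupp.equivFunOnFinite_symm_apply_apply, Finsupp.single_apply] at h6
    rw [← h6, card_filter]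
    refine sum_congr rfl fun e he => ?_
    by_cases heT : e ∈ T
    · simp [u, heT]
    · obtain ⟨x, hx⟩ := Option.ne_none_iff_exists'.1 (ht e he heT)
      simp [u, heT, hx]

/-- `A` splits into the arcs which enter `Y` and the arcs inside `Y` -/
private theorem card_head_mem (h : E → W) (t : E → Option W) (A : Finset E) (Y : Finset W) :
    #{e ∈ A | h e ∈ Y} = rho h t A Y + #{e ∈ A | h e ∈ Y ∧ ∃ w ∈ Y, t e = some w} := by
  rw [rho, ← card_union_of_disjoint]
  · congr 1
    ext e
    simp only [mem_filter, mem_union]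
    constructor
    · rintro ⟨h1, h2⟩
      by_cases h3 : ∃ w ∈ Y, t e = some w
      · exact Or.inr ⟨h1, h2, h3⟩
      · refine Or.inl ⟨h1, h2, fun w hw h4 => h3 ⟨w, hw, h4⟩⟩
    · rintro (⟨h1, h2, -⟩ | ⟨h1, h2, -⟩)
      · exact ⟨h1, h2⟩
      · exact ⟨h1, h2⟩
  · rw [disjoint_left]
    intro e h1 h2
    obtain ⟨-, -, h3⟩ := mem_filter.1 h1
    obtain ⟨-, -, w, hw, h4⟩ := mem_filter.1 h2
    exact h3 w hw h4

omit [Fintype W] [DecidableEq E] in
private theorem card_head_mem' (h : E → W) (A : Finset E) (Y : Finset W) (m : ℕ)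
    (hm : ∀ w ∈ Y, #{e ∈ A | h e = w} = m) : #{e ∈ A | h e ∈ Y} = m * #Y := by
  have h0 : #{e ∈ A | h e ∈ Y} = ∑ w ∈ Y, #{e ∈ A.filter (fun e => h e ∈ Y) | h e = w} :=
    card_eq_sum_card_fiberwise (fun e he => (mem_filter.1 he).2)
  rw [h0, mul_comm, ← smul_eq_mul, ← sum_const]
  refine sum_congr rfl fun w hw => ?_
  rw [← hm w hw]
  congr 1
  ext e
  simp only [mem_filter]
  constructor
  · rintro ⟨⟨h1, -⟩, h2⟩
    exact ⟨h1, h2⟩
  · rintro ⟨h1, h2⟩
    exact ⟨⟨h1, h2 ▸ hw⟩, h2⟩

/-- one arborescence -/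
private theorem peel_one [Fintype E] {h : E → W} {t : E → Option W} {A : Finset E} {m : ℕ}
    (hA : ∀ Y : Finset W, Y.Nonempty → m + 1 ≤ rho h t A Y) :
    ∃ T ⊆ A, (∀ w, #{e ∈ T | h e = w} = 1) ∧ (∀ Y : Finset W, Y.Nonempty → 1 ≤ rho h t T Y) ∧
      ∀ Y : Finset W, Y.Nonempty → m ≤ rho h t (A \ T) Y := by
  have conv : ∀ (F : Finset E) (X : Finset (Option W)), none ∉ X →
      Pool.Agent.LibE457k.rho t (fun e => some (h e)) (fun e => if e ∈ F then 1 else 0) X =
        rho h t F (eraseNone X) := by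
    intro F X hX
    rw [Pool.Agent.LibE457k.rho, rho, ← sum_filter, sum_const, smul_eq_mul, mul_one]
    congr 1
    ext e
    simp only [mem_filter, mem_univ, true_and, mem_eraseNone]
    constructor
    · rintro ⟨⟨h1, h2⟩, h3⟩
      refine ⟨h3, h1, fun w hw h4 => h2 ?_⟩
      rw [h4]; exact hw
    · rintro ⟨h3, h1, h2⟩
      refine ⟨⟨h1, fun h4 => ?_⟩, h3⟩
      cases h5 : t e with
      | none => rw [h5] at h4; exact hX h4
      | some w => rw [h5] at h4; exact h2 w h4 h5
  have hne : ∀ X : Finset (Option W), X.Nonempty → none ∉ X → (eraseNone X).Nonempty := by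
    rintro X ⟨x, hx⟩ hX
    cases x with
    | none => exact absurd hx hX
    | some w => exact ⟨w, mem_eraseNone.2 hx⟩
  obtain ⟨T, hT, hTA, hcut⟩ := Pool.Agent.LibE457k.peel (tail := t) (head := fun e => some (h e))
    (r := none) (x := fun e => if e ∈ A then 1 else 0) (m := m) (fun X hX hr => by
      rw [conv A X hr]
      exact hA _ (hne X hX hr))
  have hsub : T ⊆ A := by
    intro e he
    by_contra h0
    have := hTA e he
    simp [h0] at this
  have himg : ∀ Y : Finset W, eraseNone (Y.map Function.Embedding.some) = Y := fun Y =>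
    eraseNone_map_some Y
  have hnn : ∀ Y : Finset W, none ∉ Y.map Function.Embedding.some := by
    intro Y hY
    obtain ⟨w, -, hw⟩ := mem_map.1 hY
    exact absurd hw (by simp)
  refine ⟨T, hsub, ?_, ?_, ?_⟩
  · intro w
    obtain ⟨e, ⟨he1, he2⟩, he3⟩ := hT.uniq (some w) (by simp)
    rw [card_eq_one]
    refine ⟨e, ?_⟩
    ext f
    simp only [mem_filter, mem_singleton]
    constructor
    · rintro ⟨h1, h2⟩
      exact he3 f ⟨h1, by rw [h2]⟩
    · rintro rfl
      exact ⟨he1, Option.some_injective _ he2⟩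
  · intro Y hY
    obtain ⟨e, he, h1, h2⟩ := hT.enters (X := Y.map Function.Embedding.some)
      (by simpa using hY) (hnn Y)
    rw [rho, Nat.succ_le_iff, card_pos]
    refine ⟨e, mem_filter.2 ⟨he, ?_, ?_⟩⟩
    · simpa using h1
    · intro w hw h3
      apply h2
      rw [h3]
      simpa using hw
  · intro Y hY
    have h1 := hcut (Y.map Function.Embedding.some) (by simpa using hY) (hnn Y)
    have h2 : Pool.Agent.LibE457k.sub1 (fun e => if e ∈ A then 1 else 0) T =
        fun e => if e ∈ A \ T then 1 else 0 := by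
      funext e
      unfold Pool.Agent.LibE457k.sub1
      by_cases h3 : e ∈ A <;> by_cases h4 : e ∈ T <;> simp [h3, h4]
    rw [h2, conv _ _ (hnn Y), himg] at h1
    exact h1

/-- `GK k` for a finset of arcs -/
private theorem GK_finset {k : ℕ} (hk : 0 < k) (hG : GK k) {W E : Type} [Fintype W] [DecidableEq W]
    [Fintype E] [DecidableEq E] (h : E → W) (t : E → Option W) (A : Finset E)
    (h1 : ∀ w, #{e ∈ A | h e = w} = 2 * k)
    (h2 : ∀ Y : Finset W, Y.Nonempty → 2 * k ≤ rho h t A Y) :
    ∃ c : E → Fin k, ∀ b, D h t {e ∈ A | c e = b} ≠ 0 := by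
  have hmap : ∀ (p : E → Prop) [DecidablePred p],
      (univ.filter (fun e : {e // e ∈ A} => p e)).map (Function.Embedding.subtype _) =
        A.filter p := by
    intro p _
    ext e
    simp only [mem_map, mem_filter, mem_univ, true_and, Function.Embedding.subtype_apply,
      Subtype.exists, exists_and_right, exists_eq_right]
    constructor
    · rintro ⟨a, b⟩
      exact ⟨a, b⟩
    · rintro ⟨a, b⟩
      exact ⟨a, b⟩
  have hD : Dig k (fun e : {e // e ∈ A} => h e) (fun e : {e // e ∈ A} => t e) := by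
    refine ⟨?_, ?_⟩
    · intro w
      rw [← h1 w, ← hmap (fun e => h e = w), card_map]
    · intro Y hY
      have := h2 Y hY
      rw [rho, ← hmap (fun e => h e ∈ Y ∧ ∀ w ∈ Y, t e ≠ some w), card_map] at this
      exact this
  obtain ⟨c', hc'⟩ := hG W {e // e ∈ A} _ _ hD
  refine ⟨fun e => if he : e ∈ A then c' ⟨e, he⟩ else ⟨0, hk⟩, fun b => ?_⟩
  have h3 := hc' b
  have h4 : D h t (A.filter fun e => (if he : e ∈ A then c' ⟨e, he⟩ else ⟨0, hk⟩) = b) =
      D (fun e : {e // e ∈ A} => h e) (fun e : {e // e ∈ A} => t e) {e | c' e = b} := by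
    rw [← hmap, D, D, prod_map]
    congr 1
    refine prod_congr ?_ fun e _ => rfl
    ext e
    simp
  rw [h4]
  exact h3

private theorem card_filter_sdiff {B T : Finset E} (hT : T ⊆ B) (p : E → Prop) [DecidablePred p] :
    #{e ∈ B | p e} = #{e ∈ T | p e} + #{e ∈ B \ T | p e} := by
  rw [← card_union_of_disjoint]
  · congr 1
    ext e
    simp only [mem_filter, mem_union, mem_sdiff]
    constructor
    · rintro ⟨h1, h2⟩
      by_cases h3 : e ∈ T
      · exact Or.inl ⟨h3, h2⟩
      · exact Or.inr ⟨⟨h1, h3⟩, h2⟩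
    · rintro (⟨h1, h2⟩ | ⟨⟨h1, -⟩, h2⟩)
      · exact ⟨hT h1, h2⟩
      · exact ⟨h1, h2⟩
  · rw [disjoint_left]
    intro e h1 h2
    exact (mem_sdiff.1 (mem_filter.1 h2).1).2 (mem_filter.1 h1).1

omit [DecidableEq E] in
private theorem D_flip {h h' : E → W} {t t' : E → Option W} {S : Finset E}
    (hf : ∀ e ∈ S, af h' t' e = af h t e ∨ af h' t' e = -af h t e) (hne : D h' t' S ≠ 0) :
    D h t S ≠ 0 := by
  intro h0
  apply hne
  let s : E → ZMod 3 := fun e => if af h' t' e = af h t e then 1 else -1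
  have h1 : ∏ e ∈ S, af h' t' e = C (∏ e ∈ S, s e) * ∏ e ∈ S, af h t e := by
    rw [map_prod, ← prod_mul_distrib]
    refine prod_congr rfl fun e he => ?_
    by_cases h2 : af h' t' e = af h t e
    · simp only [s, if_pos h2, h2, C_1, one_mul]
    · simp only [s, if_neg h2, (hf e he).resolve_left h2, C_neg, C_1, neg_mul, one_mul]
  rw [D, h1, cf_C_mul]
  rw [D] at h0
  rw [h0, mul_zero]

/-- PIECE P9b (helper35). PROOF. By Edmonds `E` is the union of `k + 1` pairs of arborescences; the first `k` pairs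
form a `Dig k`, so `k` good classes; keep the first one, `S₁`. The other `k - 1` classes, each one
oriented by `orient_of_D` (turn the arcs with `o e = false`: head and tail exchanged, the form changes
its sign only), and the last pair of arborescences form a `Dig k`: in-degree `2 k`, and the number of
arcs inside `Y` is at most `2 k (card Y - 1)`. So it has `k` good classes. -/
theorem GK_succ {k : ℕ} (hk : 2 ≤ k) (h : GK k) : GK (k + 1) := by
  have hG := h
  clear h
  intro W E _ _ _ _ h t hD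
  obtain ⟨T1, -, hT1, hT1c, hA1⟩ := peel_one (h := h) (t := t) (A := univ) (m := 2 * k + 1)
    (fun Y hY => by have := hD.conn Y hY; omega)
  obtain ⟨T2, hT2s, hT2, hT2c, hA2⟩ := peel_one (h := h) (t := t) (A := univ \ T1) (m := 2 * k)
    (fun Y hY => hA1 Y hY)
  set A := (univ \ T1) \ T2 with hA
  have hdec : ∀ (p : E → Prop) [DecidablePred p],
      #{e | p e} = #{e ∈ T1 | p e} + (#{e ∈ T2 | p e} + #{e ∈ A | p e}) := by
    intro p _
    rw [card_filter_sdiff (subset_univ T1) p, card_filter_sdiff hT2s p]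
  have hAdeg : ∀ w, #{e ∈ A | h e = w} = 2 * k := by
    intro w
    have h1 := hdec (fun e => h e = w)
    rw [hD.indeg w, hT1 w, hT2 w] at h1
    omega
  obtain ⟨c1, hc1⟩ := GK_finset (by omega) hG h t A hAdeg hA2
  choose o ho1 ho2 ho3 using fun b => orient_of_D (hc1 b)
  set b0 : Fin k := ⟨0, by omega⟩ with hb0
  set S1 := A.filter (fun e => c1 e = b0) with hS1
  let r : E → Bool := fun e => if e ∈ A then o (c1 e) e else true
  let h' : E → W := fun e => if r e = true then h e else (t e).getD (h e)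
  let t' : E → Option W := fun e => if r e = true then t e else some (h e)
  set A' := univ \ S1 with hA'
  have hrA : ∀ e, e ∉ A → r e = true := fun e he => by simp only [r, if_neg he]
  have hT1A : ∀ e ∈ T1, e ∉ A := by
    intro e he h1
    rw [hA, mem_sdiff, mem_sdiff] at h1
    exact h1.1.2 he
  have hT2A : ∀ e ∈ T2, e ∉ A := by
    intro e he h1
    rw [hA, mem_sdiff] at h1
    exact h1.2 he
  -- what happens to one arc
  have hrf : ∀ e, r e = false → ∃ x, t e = some x ∧ h' e = x ∧ t' e = some (h e) := by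
    intro e he
    have heA : e ∈ A := by
      by_contra h1
      rw [hrA e h1] at he
      exact absurd he (by simp)
    have h1 : o (c1 e) e = false := by
      simpa only [r, if_pos heA] using he
    have h2 := ho1 (c1 e) e (mem_filter.2 ⟨heA, rfl⟩) h1
    obtain ⟨x, hx⟩ := Option.ne_none_iff_exists'.1 h2
    refine ⟨x, hx, ?_, ?_⟩
    · simp only [h', he, hx, Option.getD_some]
      simp
    · simp only [t', he]
      simp
  have hrt : ∀ e, r e = true → h' e = h e ∧ t' e = t e := by
    intro e he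
    simp only [h', t', he, if_true, and_self]
  have hins : ∀ (Y : Finset W) (e : E), (h' e ∈ Y ∧ ∃ w ∈ Y, t' e = some w) ↔
      (h e ∈ Y ∧ ∃ w ∈ Y, t e = some w) := by
    intro Y e
    cases hre : r e with
    | true =>
      obtain ⟨h1, h2⟩ := hrt e hre
      rw [h1, h2]
    | false =>
      obtain ⟨x, h1, h2, h3⟩ := hrf e hre
      rw [h1, h2, h3]
      constructor
      · rintro ⟨h4, w, hw, h5⟩
        rw [Option.some.injEq] at h5
        exact ⟨h5 ▸ hw, x, h4, rfl⟩
      · rintro ⟨h4, w, hw, h5⟩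
        rw [Option.some.injEq] at h5
        exact ⟨h5 ▸ hw, h e, h4, rfl⟩
  have haf : ∀ e, af h' t' e = af h t e ∨ af h' t' e = -af h t e := by
    intro e
    cases hre : r e with
    | true =>
      obtain ⟨h1, h2⟩ := hrt e hre
      left
      rw [af, af, h1, h2]
    | false =>
      obtain ⟨x, h1, h2, h3⟩ := hrf e hre
      right
      rw [af, af, h1, h2, h3]
      simp [xv]
  -- decomposition of `A'`
  have hdec' : ∀ (p : E → Prop) [DecidablePred p],
      #{e ∈ A' | p e} = #{e ∈ T1 | p e} + (#{e ∈ T2 | p e} +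
        ∑ b ∈ univ.erase b0, #{e ∈ A.filter (fun e => c1 e = b) | p e}) := by
    intro p _
    have h1 := card_filter_sdiff (subset_univ S1) p
    have h2 := hdec p
    have h3 : #{e ∈ A | p e} = ∑ b, #{e ∈ A.filter (fun e => c1 e = b) | p e} := by
      have h4 : #{e ∈ A | p e} = ∑ b, #{e ∈ A.filter p | c1 e = b} :=
        card_eq_sum_card_fiberwise (fun e _ => mem_univ _)
      rw [h4]
      refine sum_congr rfl fun b _ => ?_
      rw [filter_filter, filter_filter]
      congr 1
      ext e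
      simp only [mem_filter, and_comm]
    have h5 : ∑ b ∈ univ.erase b0, #{e ∈ A.filter (fun e => c1 e = b) | p e} +
        #{e ∈ A.filter (fun e => c1 e = b0) | p e} =
        ∑ b, #{e ∈ A.filter (fun e => c1 e = b) | p e} := sum_erase_add _ _ (mem_univ b0)
    rw [← hS1] at h5
    rw [← hA'] at h1
    omega
  have hcard : #((univ : Finset (Fin k)).erase b0) = k - 1 := by
    rw [card_erase_of_mem (mem_univ _), card_univ, Fintype.card_fin]
  have hdeg' : ∀ w, #{e ∈ A' | h' e = w} = 2 * k := by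
    intro w
    rw [hdec' (fun e => h' e = w)]
    have h1 : #{e ∈ T1 | h' e = w} = 1 := by
      rw [← hT1 w]
      congr 1
      refine filter_congr fun e he => ?_
      rw [(hrt e (hrA e (hT1A e he))).1]
    have h2 : #{e ∈ T2 | h' e = w} = 1 := by
      rw [← hT2 w]
      congr 1
      refine filter_congr fun e he => ?_
      rw [(hrt e (hrA e (hT2A e he))).1]
    have h3 : ∀ b ∈ univ.erase b0, #{e ∈ A.filter (fun e => c1 e = b) | h' e = w} = 2 := by
      intro b _
      rw [← ho2 b w]
      congr 1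
      refine filter_congr fun e he => ?_
      obtain ⟨heA, heb⟩ := mem_filter.1 he
      have hre : r e = o b e := by simp only [r, if_pos heA, heb]
      rw [← hre]
      cases hre' : r e with
      | true =>
        rw [(hrt e hre').1]
        simp
      | false =>
        obtain ⟨x, h1, h2, h3⟩ := hrf e hre'
        rw [h2, h1]
        simp
    rw [h1, h2, sum_congr rfl h3, sum_const, hcard, smul_eq_mul]
    omega
  have hin1 : ∀ (T : Finset E) (Y : Finset W), Y.Nonempty → (∀ w, #{e ∈ T | h e = w} = 1) →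
      (∀ Y : Finset W, Y.Nonempty → 1 ≤ rho h t T Y) →
      #{e ∈ T | h e ∈ Y ∧ ∃ w ∈ Y, t e = some w} ≤ #Y - 1 := by
    intro T Y hY h1 h2
    have h3 := card_head_mem h t T Y
    rw [card_head_mem' h T Y 1 (fun w _ => h1 w)] at h3
    have h4 := h2 Y hY
    omega
  have hconn' : ∀ Y : Finset W, Y.Nonempty → 2 * k ≤ rho h' t' A' Y := by
    intro Y hY
    have h1 := card_head_mem h' t' A' Y
    rw [card_head_mem' h' A' Y (2 * k) (fun w _ => hdeg' w)] at h1
    have h2 : #{e ∈ A' | h' e ∈ Y ∧ ∃ w ∈ Y, t' e = some w} =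
        #{e ∈ A' | h e ∈ Y ∧ ∃ w ∈ Y, t e = some w} := by
      congr 1
      exact filter_congr fun e _ => hins Y e
    rw [h2, hdec' (fun e => h e ∈ Y ∧ ∃ w ∈ Y, t e = some w)] at h1
    have h3 := hin1 T1 Y hY hT1 hT1c
    have h4 := hin1 T2 Y hY hT2 hT2c
    have h5 : ∑ b ∈ univ.erase b0, #{e ∈ A.filter (fun e => c1 e = b) |
        h e ∈ Y ∧ ∃ w ∈ Y, t e = some w} ≤ (k - 1) * (2 * (#Y - 1)) := by
      rw [← hcard, ← smul_eq_mul, ← sum_const]
      exact sum_le_sum fun b _ => ho3 b Y hY
    have h6 : 0 < #Y := card_pos.2 hY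
    obtain ⟨y, hy⟩ : ∃ y, #Y = y + 1 := ⟨#Y - 1, by omega⟩
    obtain ⟨j, rfl⟩ : ∃ j, k = j + 1 := ⟨k - 1, by omega⟩
    rw [hy] at h1 h3 h4 h5
    simp only [Nat.add_sub_cancel] at h3 h4 h5
    have h7 : 2 * (j + 1) * (y + 1) = j * (2 * y) + 2 * y + 2 * (j + 1) := by ring
    rw [h7] at h1
    omega
  obtain ⟨c2, hc2⟩ := GK_finset (by omega) hG h' t' A' hdeg' hconn'
  refine ⟨fun e => if e ∈ S1 then 0 else (c2 e).succ, fun b => ?_⟩
  refine Fin.cases ?_ (fun b' => ?_) b
  · have h1 : (univ.filter fun e => (if e ∈ S1 then (0 : Fin (k + 1)) else (c2 e).succ) = 0) = S1 := by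
      ext e
      simp only [mem_filter, mem_univ, true_and]
      by_cases he : e ∈ S1
      · simp [he]
      · simp only [if_neg he, he, iff_false]
        exact Fin.succ_ne_zero _
    rw [h1]
    exact hc1 b0
  · have h1 : (univ.filter fun e => (if e ∈ S1 then (0 : Fin (k + 1)) else (c2 e).succ) = b'.succ) =
        A'.filter (fun e => c2 e = b') := by
      ext e
      simp only [mem_filter, mem_univ, true_and, hA', mem_sdiff]
      by_cases he : e ∈ S1
      · simp only [if_pos he, he, not_true, false_and, iff_false]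
        exact (Fin.succ_ne_zero _).symm
      · rw [if_neg he, Fin.succ_inj]
        exact ⟨fun h2 => ⟨he, h2⟩, fun h2 => h2.2⟩
    rw [h1]
    exact D_flip (fun e _ => haf e) (hc2 b')

end G3
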