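import Mathlib

/-!
# GM via characteristic 3: definitions

`W` is the set of non-root vertices, `E` the set of arcs, `h e : W` the head, `t e : Option W` the tail
(`none` is the root). `cf f` is the coefficient of `∏ X_w ^ 2`, `D h t S = cf (∏ (X_head - X_tail))`
over the arcs of `S`. `GK k`: every digraph with all in-degrees `2 k` and `rho ≥ 2 k` has a partition
of its arcs into `k` classes with `D ≠ 0`. `TK k`: for every pairing of arcs with the same head there is a
transversal `F` such that `F` and its complement both satisfy `rho ≥ k`.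
-/

set_option autoImplicit false

namespace G3
open MvPolynomial Finset

variable {W : Type*} [Fintype W] [DecidableEq W] {E : Type*}

/-- the coefficient of the product of the squares of all variables -/
noncomputable def cf (f : MvPolynomial W (ZMod 3)) : ZMod 3 :=
  coeff (Finsupp.equivFunOnFinite.symm fun _ => 2) f

/-- the linear form of a vector -/
noncomputable def lf (x : W → ZMod 3) : MvPolynomial W (ZMod 3) := ∑ w, C (x w) * X w

/-- the variable of a vertex; the root has the variable `0` -/
noncomputable def xv (u : Option W) : MvPolynomial W (ZMod 3) := u.elim 0 X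

/-- the form of an arc -/
noncomputable def af (h : E → W) (t : E → Option W) (e : E) : MvPolynomial W (ZMod 3) :=
  X (h e) - xv (t e)

/-- the invariant `D(S)` -/
noncomputable def D (h : E → W) (t : E → Option W) (S : Finset E) : ZMod 3 :=
  cf (∏ e ∈ S, af h t e)

/-- the number of arcs of `F` which enter `Y` -/
def rho (h : E → W) (t : E → Option W) (F : Finset E) (Y : Finset W) : ℕ :=
  #{e ∈ F | h e ∈ Y ∧ ∀ w ∈ Y, t e ≠ some w}

/-- `f` does not contain the variable `v` -/
def FreeOf (v : W) (f : MvPolynomial W (ZMod 3)) : Prop := ∀ m ∈ f.support, m v = 0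

/-- tails after all out-arcs of `v` have been split off with the in-arcs `σ f`; the in-arcs of `v` become
arcs from the root -/
def spl (h : E → W) (t : E → Option W) (v : W) (σ : E → E) (e : E) : Option W :=
  if h e = v then none else if t e = some v then t (σ e) else t e

/-- the hypotheses on the digraph -/
structure Dig (k : ℕ) {W : Type*} [Fintype W] [DecidableEq W] {E : Type*} [Fintype E] (h : E → W)
    (t : E → Option W) : Prop where
  indeg : ∀ w, #{e | h e = w} = 2 * k
  conn : ∀ Y : Finset W, Y.Nonempty → 2 * k ≤ rho h t univ Y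

/-- `(G3_k)`: a partition into `k` classes with `D ≠ 0` -/
def GK (k : ℕ) : Prop :=
  ∀ (W E : Type) [Fintype W] [DecidableEq W] [Fintype E] [DecidableEq E] (h : E → W)
    (t : E → Option W), Dig k h t → ∃ c : E → Fin k, ∀ b, D h t {e | c e = b} ≠ 0

/-- `T(k)`: a transversal of the pairing -/
def TK (k : ℕ) : Prop :=
  ∀ (W E : Type) [Fintype W] [DecidableEq W] [Fintype E] [DecidableEq E] (h : E → W)
    (t : E → Option W) (P : E → E), Dig k h t → (∀ e, P (P e) = e) → (∀ e, P e ≠ e) →
    (∀ e, h (P e) = h e) → ∃ F : Finset E, (∀ e, P e ∈ F ↔ e ∉ F) ∧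
      ∀ Y : Finset W, Y.Nonempty → k ≤ rho h t F Y ∧ k ≤ rho h t Fᶜ Y

section basic

omit [DecidableEq W] in

theorem cf_add (f g : MvPolynomial W (ZMod 3)) : cf (f + g) = cf f + cf g := coeff_add _ _ _

omit [DecidableEq W] in
theorem cf_sub (f g : MvPolynomial W (ZMod 3)) : cf (f - g) = cf f - cf g := by
  rw [cf, cf, cf, coeff_sub]

omit [DecidableEq W] in
theorem cf_neg (f : MvPolynomial W (ZMod 3)) : cf (-f) = -cf f := by
  rw [cf, cf, coeff_neg]

omit [DecidableEq W] in
theorem cf_zero : cf (0 : MvPolynomial W (ZMod 3)) = 0 := coeff_zero _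

omit [DecidableEq W] in
theorem cf_C_mul (a : ZMod 3) (f : MvPolynomial W (ZMod 3)) : cf (C a * f) = a * cf f :=
  coeff_C_mul _ _ _

omit [DecidableEq W] in
theorem cf_sum {ι : Type*} (s : Finset ι) (f : ι → MvPolynomial W (ZMod 3)) :
    cf (∑ i ∈ s, f i) = ∑ i ∈ s, cf (f i) := coeff_sum _ _ _

omit [DecidableEq W] in
theorem lf_add (x y : W → ZMod 3) : lf (x + y) = lf x + lf y := by
  simp only [lf, Pi.add_apply, C_add, add_mul, sum_add_distrib]

omit [DecidableEq W] in
theorem lf_smul (a : ZMod 3) (x : W → ZMod 3) : lf (a • x) = C a * lf x := by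
  simp only [lf, Pi.smul_apply, smul_eq_mul, C_mul, mul_assoc, mul_sum]

omit [DecidableEq W] in
theorem lf_zero : lf (0 : W → ZMod 3) = 0 := by simp [lf]

omit [DecidableEq W] in
theorem lf_neg (x : W → ZMod 3) : lf (-x) = -lf x := by
  simp [lf]

omit [DecidableEq W] in
theorem lf_sub (x y : W → ZMod 3) : lf (x - y) = lf x - lf y := by
  rw [sub_eq_add_neg, lf_add, lf_neg, sub_eq_add_neg]

theorem lf_single (w : W) : lf (Pi.single w 1 : W → ZMod 3) = X w := by
  simp only [lf]
  rw [sum_eq_single w]
  · simp
  · intro b _ hb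
    simp [Pi.single_eq_of_ne hb]
  · intro hw
    exact absurd (mem_univ w) hw

/-- the vector of a vertex -/
def vv (u : Option W) : W → ZMod 3 := u.elim 0 fun w => Pi.single w 1

theorem lf_vv (u : Option W) : lf (vv u) = xv u := by
  cases u with
  | none => exact lf_zero
  | some w => exact lf_single w

theorem af_eq (h : E → W) (t : E → Option W) (e : E) :
    af h t e = lf (Pi.single (h e) 1 - vv (t e)) := by
  rw [lf_sub, lf_single, lf_vv, af]

end basic

end G3
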