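import Pool.Agent.Lib_MP_e457e7_g3.DefsG

/-! # Pieces P4, P8: expansion at a vertex -/

set_option autoImplicit false

namespace G3
open MvPolynomial Finset

variable {W : Type*} [Fintype W] [DecidableEq W] {E : Type*} [DecidableEq E]

omit [Fintype W] [DecidableEq W] in
private theorem freeOf_iff {v : W} {f : MvPolynomial W (ZMod 3)} : FreeOf v f ↔ v ∉ f.vars := by
  rw [FreeOf, mem_vars_iff_mem_support]
  simp only [not_exists, not_and, Finsupp.mem_support_iff, not_not]

theorem FreeOf.mul {v : W} {f g : MvPolynomial W (ZMod 3)} (hf : FreeOf v f) (hg : FreeOf v g) :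
    FreeOf v (f * g) := by
  rw [freeOf_iff] at *
  intro h
  rcases Finset.mem_union.1 (vars_mul f g h) with h | h
  · exact hf h
  · exact hg h

theorem FreeOf.sub {v : W} {f g : MvPolynomial W (ZMod 3)} (hf : FreeOf v f) (hg : FreeOf v g) :
    FreeOf v (f - g) := by
  rw [freeOf_iff] at *
  intro h
  rcases Finset.mem_union.1 (vars_sub_subset f h) with h | h
  · exact hf h
  · exact hg h

theorem FreeOf.neg {v : W} {f : MvPolynomial W (ZMod 3)} (hf : FreeOf v f) : FreeOf v (-f) := by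
  rw [freeOf_iff] at *
  rwa [vars_neg]

theorem FreeOf.prod {ι : Type*} {v : W} {s : Finset ι} {f : ι → MvPolynomial W (ZMod 3)}
    (hf : ∀ i ∈ s, FreeOf v (f i)) : FreeOf v (∏ i ∈ s, f i) := by
  rw [freeOf_iff]
  intro h
  obtain ⟨i, hi, h⟩ := Finset.mem_biUnion.1 (vars_prod f h)
  exact freeOf_iff.1 (hf i hi) h

theorem freeOf_X {v w : W} (h : w ≠ v) : FreeOf v (X w : MvPolynomial W (ZMod 3)) := by
  rw [freeOf_iff, vars_X, Finset.mem_singleton]
  exact fun h' => h h'.symm

theorem freeOf_xv {v : W} {u : Option W} (h : u ≠ some v) :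
    FreeOf v (xv u : MvPolynomial W (ZMod 3)) := by
  cases u with
  | none =>
    rw [freeOf_iff]
    simp [xv]
  | some w => exact freeOf_X (fun h' => h (by rw [h']))

theorem freeOf_af {h : E → W} {t : E → Option W} {v : W} {e : E} (h1 : h e ≠ v)
    (h2 : t e ≠ some v) : FreeOf v (af h t e) :=
  (freeOf_X h1).sub (freeOf_xv h2)

/-- PROOF. The coefficient of `∏ X ^ 2` in `X v ^ m * f` is the coefficient of `f` at an exponent whose
`v`-coordinate is `2 - m` if `m ≤ 2`, and it is zero if `m > 2`. -/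
theorem cf_pow_mul {v : W} {m : ℕ} (hm : m ≠ 2) {f : MvPolynomial W (ZMod 3)} (hf : FreeOf v f) :
    cf (X v ^ m * f) = 0 := by
  rw [cf, X_pow_eq_monomial, coeff_monomial_mul']
  split_ifs with hle
  · rw [one_mul]
    by_contra hne
    have h1 := hf _ (mem_support_iff.2 hne)
    have h2 := hle v
    simp only [Finsupp.single_eq_same, Finsupp.equivFunOnFinite_symm_apply_apply] at h2
    simp only [Finsupp.coe_tsub, Pi.sub_apply, Finsupp.single_eq_same,
      Finsupp.equivFunOnFinite_symm_apply_apply] at h1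
    omega
  · rfl

/-- PIECE P4. PROOF. `Finset.prod_add`: expand the product over the subsets `T` of `Q` which take the
`X v` part; the term is `∏_T α * X v ^ #T * ∏_(Q - T) H`; `cf_pow_mul` kills `#T ≠ 2`. -/
theorem cf_expand (v : W) (G : MvPolynomial W (ZMod 3)) (hG : FreeOf v G) (Q : Finset E)
    (α : E → ZMod 3) (H : E → MvPolynomial W (ZMod 3)) (hH : ∀ e ∈ Q, FreeOf v (H e)) :
    cf (G * ∏ e ∈ Q, (C (α e) * X v + H e)) =
      ∑ T ∈ Q.powersetCard 2, (∏ e ∈ T, α e) * cf (X v ^ 2 * (G * ∏ e ∈ Q \ T, H e)) := by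
  have key : ∀ T ∈ Q.powerset,
      cf (G * ((∏ e ∈ T, C (α e) * X v) * ∏ e ∈ Q \ T, H e)) =
        if #T = 2 then (∏ e ∈ T, α e) * cf (X v ^ 2 * (G * ∏ e ∈ Q \ T, H e)) else 0 := by
    intro T _
    have e1 : G * ((∏ e ∈ T, C (α e) * X v) * ∏ e ∈ Q \ T, H e) =
        C (∏ e ∈ T, α e) * (X v ^ #T * (G * ∏ e ∈ Q \ T, H e)) := by
      rw [prod_mul_distrib, prod_const, map_prod]
      ring
    rw [e1, cf_C_mul]
    split_ifs with hc
    · rw [hc]
    · rw [cf_pow_mul hc, mul_zero]
      exact hG.mul (FreeOf.prod fun i hi => hH i (Finset.mem_sdiff.1 hi).1)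
  rw [Finset.prod_add, mul_sum, cf_sum, sum_congr rfl key, ← sum_filter,
    powersetCard_eq_filter]

/-- the variable of the other end of an arc at `v` -/
noncomputable def oe (h : E → W) (t : E → Option W) (v : W) (e : E) : MvPolynomial W (ZMod 3) :=
  if h e = v then xv (t e) else X (h e)

/-- the sign of an arc at `v` -/
def sg (h : E → W) (v : W) (e : E) : ZMod 3 := if h e = v then 1 else -1

/-- PIECE P8a: local formula at `v`. PROOF. `af h t e = C (sg) * (X v - oe)` for the arcs at `v`;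
`cf_expand` with `α = sg`, `H = - sg * oe`; the signs: `∏_T sg * ∏_(Q - T) (- sg) =
∏_Q sg * (-1) ^ (#Q - 2)`. -/
theorem D_local (h : E → W) (t : E → Option W) (v : W) (S₀ Q : Finset E) (hd : Disjoint S₀ Q)
    (hS : ∀ e ∈ S₀, h e ≠ v ∧ t e ≠ some v)
    (hQ : ∀ e ∈ Q, (h e = v ∧ t e ≠ some v) ∨ (h e ≠ v ∧ t e = some v)) :
    D h t (S₀ ∪ Q) = (∏ e ∈ Q, sg h v e) * (-1) ^ #Q *
      ∑ T ∈ Q.powersetCard 2,
        cf (X v ^ 2 * ((∏ e ∈ S₀, af h t e) * ∏ e ∈ Q \ T, oe h t v e)) := by
  have haf : ∀ e ∈ Q, af h t e = C (sg h v e) * X v + C (-sg h v e) * oe h t v e := by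
    intro e he
    rcases hQ e he with ⟨h1, h2⟩ | ⟨h1, h2⟩
    · have e1 : sg h v e = 1 := if_pos h1
      have e2 : oe h t v e = xv (t e) := if_pos h1
      rw [e1, e2, af, h1, C_neg, C_1]
      ring
    · have e1 : sg h v e = -1 := if_neg h1
      have e2 : oe h t v e = X (h e) := if_neg h1
      have e3 : xv (t e) = (X v : MvPolynomial W (ZMod 3)) := by rw [h2]; rfl
      rw [e1, e2, af, e3, neg_neg, C_neg, C_1]
      ring
  have hfree : ∀ e ∈ Q, FreeOf v (C (-sg h v e) * oe h t v e) := by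
    intro e he
    refine FreeOf.mul ?_ ?_
    · rw [freeOf_iff, vars_C]
      exact Finset.notMem_empty _
    · rcases hQ e he with ⟨h1, h2⟩ | ⟨h1, h2⟩
      · rw [oe, if_pos h1]
        exact freeOf_xv h2
      · rw [oe, if_neg h1]
        exact freeOf_X h1
  rw [D, prod_union hd, prod_congr rfl haf,
    cf_expand v _ (FreeOf.prod fun e he => freeOf_af (hS e he).1 (hS e he).2) Q (sg h v) _ hfree,
    mul_sum]
  refine sum_congr rfl fun T hT => ?_
  rw [mem_powersetCard] at hT
  have e1 : X v ^ 2 * ((∏ e ∈ S₀, af h t e) * ∏ e ∈ Q \ T, C (-sg h v e) * oe h t v e) =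
      C (∏ e ∈ Q \ T, (-sg h v e)) *
        (X v ^ 2 * ((∏ e ∈ S₀, af h t e) * ∏ e ∈ Q \ T, oe h t v e)) := by
    rw [prod_mul_distrib, map_prod]
    ring
  rw [e1, cf_C_mul, ← mul_assoc]
  congr 1
  have e2 : (∏ e ∈ Q \ T, (-sg h v e)) = (-1) ^ #(Q \ T) * ∏ e ∈ Q \ T, sg h v e := by
    rw [prod_congr rfl fun e _ => neg_eq_neg_one_mul (sg h v e), prod_mul_distrib, prod_const]
  have e3 : (∏ e ∈ Q, sg h v e) = (∏ e ∈ Q \ T, sg h v e) * ∏ e ∈ T, sg h v e :=
    (prod_sdiff hT.1).symm
  have e4 : #Q = #(Q \ T) + 2 := by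
    rw [← hT.2, card_sdiff_add_card_eq_card hT.1]
  rw [e2, e3, e4, pow_add]
  ring

/-- PIECE P8b: the class of the split graph. PROOF. In the split graph the arcs with head `v` have the
form `X v`, and no other arc contains `X v` (its tail is not `v`: tails of arcs with head `v` are not
`v`). So `D = cf (X v ^ m * (free))`, `m` = number of arcs of `S` with head `v`; `cf_pow_mul`. -/
theorem D_spl (h : E → W) (t : E → Option W) (v : W) (σ : E → E)
    (hσ : ∀ e, t e = some v → h (σ e) = v) (hl : ∀ e, h e = v → t e ≠ some v) (S : Finset E)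
    (hne : D h (spl h t v σ) S ≠ 0) :
    #{e ∈ S | h e = v} = 2 ∧
      D h (spl h t v σ) S = cf (X v ^ 2 * ((∏ e ∈ S with (h e ≠ v ∧ t e ≠ some v), af h t e) *
        ∏ e ∈ S with (h e ≠ v ∧ t e = some v), (X (h e) - xv (t (σ e))))) := by
  set A := ∏ e ∈ S with (h e ≠ v ∧ t e ≠ some v), af h t e with hA
  set B := ∏ e ∈ S with (h e ≠ v ∧ t e = some v),
    (X (h e) - xv (t (σ e)) : MvPolynomial W (ZMod 3)) with hB
  have hsplit : ∏ e ∈ S, af h (spl h t v σ) e = X v ^ #{e ∈ S | h e = v} * (A * B) := by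
    rw [← prod_filter_mul_prod_filter_not S (fun e => h e = v)]
    congr 1
    · rw [prod_congr rfl (g := fun _ => (X v : MvPolynomial W (ZMod 3))), prod_const]
      intro e he
      have h1 := (mem_filter.1 he).2
      have e1 : spl h t v σ e = none := if_pos h1
      have e2 : xv (none : Option W) = (0 : MvPolynomial W (ZMod 3)) := rfl
      rw [af, e1, e2, h1, sub_zero]
    · rw [← prod_filter_mul_prod_filter_not (S.filter fun e => ¬ h e = v)
        (fun e => t e ≠ some v), filter_filter, filter_filter, hA, hB]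
      congr 1
      · refine prod_congr rfl fun e he => ?_
        have h1 := (mem_filter.1 he).2
        simp only [af, spl, if_neg h1.1, if_neg h1.2]
      · refine prod_congr (filter_congr fun e _ => ?_) fun e he => ?_
        · simp only [ne_eq, not_not]
        · have h1 := (mem_filter.1 he).2
          simp only [ne_eq] at h1
          simp only [af, spl, if_neg h1.1, if_pos h1.2]
  have hfree : FreeOf v (A * B) := by
    refine FreeOf.mul (FreeOf.prod fun e he => ?_) (FreeOf.prod fun e he => ?_)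
    · have h1 := (mem_filter.1 he).2
      exact freeOf_af h1.1 h1.2
    · have h1 := (mem_filter.1 he).2
      exact (freeOf_X h1.1).sub (freeOf_xv (hl _ (hσ e h1.2)))
  have hD : D h (spl h t v σ) S = cf (X v ^ #{e ∈ S | h e = v} * (A * B)) := by
    rw [D, hsplit]
  have hc : #{e ∈ S | h e = v} = 2 := by
    by_contra hc
    exact hne (by rw [hD, cf_pow_mul hc hfree])
  exact ⟨hc, by rw [hD, hc]⟩

end G3
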