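import Pool.Agent.Lib_MP_e457e7_g3.Ident
import Pool.Agent.Lib_MP_e457e7_g3.Block

/-! # Piece P3: from a good partition to the transversal -/

set_option autoImplicit false

namespace G3
open MvPolynomial Finset

variable {W : Type*} [Fintype W] [DecidableEq W] {E : Type*} [Fintype E] [DecidableEq E]

/-- restriction of a block vector to the coordinates in `Z` -/
private noncomputable def resL (k : ℕ) (Z : Finset W) :
    (W × Fin k → ZMod 3) →ₗ[ZMod 3] ({w // w ∈ Z} × Fin k → ZMod 3) where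
  toFun z q := z (q.1.1, q.2)
  map_add' _ _ := rfl
  map_smul' _ _ := rfl

/-- the block vectors with support in `Y` and sum zero in every block -/
private def spU (k : ℕ) (Y : Finset W) : Submodule (ZMod 3) (W × Fin k → ZMod 3) where
  carrier := {z | (∀ w b, w ∉ Y → z (w, b) = 0) ∧ ∀ b, ∑ w, z (w, b) = 0}
  zero_mem' := ⟨fun _ _ _ => rfl, fun _ => by simp⟩
  add_mem' := by
    rintro x y ⟨hx1, hx2⟩ ⟨hy1, hy2⟩
    refine ⟨fun w b hw => ?_, fun b => ?_⟩
    · rw [Pi.add_apply, hx1 w b hw, hy1 w b hw, add_zero]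
    · simp only [Pi.add_apply, sum_add_distrib, hx2 b, hy2 b, add_zero]
  smul_mem' := by
    rintro c x ⟨hx1, hx2⟩
    refine ⟨fun w b hw => ?_, fun b => ?_⟩
    · rw [Pi.smul_apply, hx1 w b hw, smul_zero]
    · simp only [Pi.smul_apply, ← smul_sum, hx2 b, smul_zero]

omit [Fintype E] [DecidableEq E] in
private theorem block_mem {k : ℕ} (h : E → W) (t : E → Option W) (c : E → Fin k)
    (Y : Finset W) (e : E) (h1 : h e ∈ Y) (h2 : ∃ w ∈ Y, t e = some w) :
    (fun p : W × Fin k => if c e = p.2 then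
      ((Pi.single (h e) 1 - vv (t e) : W → ZMod 3)) p.1 else 0) ∈ spU k Y := by
  obtain ⟨w, hw, hte⟩ := h2
  have hv : vv (t e) = (Pi.single w 1 : W → ZMod 3) := by rw [hte]; rfl
  rw [hv]
  refine ⟨fun u b hu => ?_, fun b => ?_⟩
  · have e1 : u ≠ h e := fun hh => hu (hh ▸ h1)
    have e2 : u ≠ w := fun hh => hu (hh ▸ hw)
    simp [Pi.single_eq_of_ne e1, Pi.single_eq_of_ne e2]
  · by_cases hb : c e = b
    · simp [hb]
    · simp [hb]

/-- PIECE P3a. PROOF. The vectors `x_e` of the arcs inside `Y` (head and tail in `Y`) in the class `b` lie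
in the space of the vectors with support in `Y` and sum of coordinates `0`, of dimension `card Y - 1`. So the
block vectors of the arcs of `F` inside `Y` lie in a space of dimension `k * (card Y - 1)`. -/
theorem card_inside_le {k : ℕ} (h : E → W) (t : E → Option W) (c : E → Fin k) (F : Finset E)
    (hF : LinearIndependent (ZMod 3) (fun e : {e // e ∈ F} => fun p : W × Fin k =>
      if c e = p.2 then ((Pi.single (h e) 1 - vv (t e) : W → ZMod 3)) p.1 else 0))
    (Y : Finset W) (hY : Y.Nonempty) :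
    #{e ∈ F | h e ∈ Y ∧ ∃ w ∈ Y, t e = some w} ≤ k * (#Y - 1) := by
  obtain ⟨y0, hy0⟩ := hY
  set G : Finset E := {e ∈ F | h e ∈ Y ∧ ∃ w ∈ Y, t e = some w} with hG
  let ι : {e // e ∈ G} → {e // e ∈ F} := fun e => ⟨e.1, (mem_filter.1 e.2).1⟩
  have hι : Function.Injective ι := fun a b hab =>
    Subtype.ext (congrArg (fun z : {e // e ∈ F} => z.1) hab)
  have hli := hF.comp ι hι
  have hspan : Submodule.span (ZMod 3) (Set.range ((fun e : {e // e ∈ F} => fun p : W × Fin k =>
      if c e = p.2 then ((Pi.single (h e) 1 - vv (t e) : W → ZMod 3)) p.1 else 0) ∘ ι)) ≤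
      spU k Y := by
    rw [Submodule.span_le]
    rintro _ ⟨e, rfl⟩
    have he := (mem_filter.1 e.2).2
    exact block_mem h t c Y e.1 he.1 he.2
  have hli2 := hli.map (f := resL k (Y.erase y0)) (by
    rw [Submodule.disjoint_def]
    intro z hz hz0
    obtain ⟨hz1, hz2⟩ := hspan hz
    have hz3 : ∀ w b, w ∈ Y.erase y0 → z (w, b) = 0 := by
      intro w b hw
      exact congrFun (LinearMap.mem_ker.1 hz0) (⟨w, hw⟩, b)
    have hz4 : ∀ w b, w ≠ y0 → z (w, b) = 0 := by
      intro w b hw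
      by_cases hwY : w ∈ Y
      · exact hz3 w b (mem_erase.2 ⟨hw, hwY⟩)
      · exact hz1 w b hwY
    funext ⟨w, b⟩
    by_cases hw : w = y0
    · subst hw
      have := hz2 b
      rw [sum_eq_single w (fun u _ hu => hz4 u b hu) (fun hh => absurd (mem_univ w) hh)] at this
      exact this
    · exact hz4 w b hw)
  have hcard := hli2.fintype_card_le_finrank
  rw [Module.finrank_fintype_fun_eq_card, Fintype.card_prod, Fintype.card_coe, Fintype.card_coe,
    Fintype.card_fin, card_erase_of_mem hy0, mul_comm] at hcard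
  exact hcard

omit [Fintype W] in
/-- half of the arcs with head `w` belong to a transversal -/
private theorem card_head {k : ℕ} (h : E → W) (P : E → E)
    (hdeg : ∀ w, #{e | h e = w} = 2 * k) (hP : ∀ e, P (P e) = e) (hPh : ∀ e, h (P e) = h e)
    (F : Finset E) (hF : ∀ e, P e ∈ F ↔ e ∉ F) (w : W) : #{e ∈ F | h e = w} = k := by
  have h1 : #{e ∈ F | h e = w} = #{e ∈ Fᶜ | h e = w} := by
    refine card_bij (fun e _ => P e) ?_ ?_ ?_
    · intro e he
      rw [mem_filter] at he ⊢
      refine ⟨?_, by rw [hPh]; exact he.2⟩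
      rw [mem_compl, hF]
      exact fun hh => hh he.1
    · intro a _ b _ hab
      have := congrArg P hab
      rwa [hP, hP] at this
    · intro e he
      rw [mem_filter, mem_compl] at he
      refine ⟨P e, ?_, hP e⟩
      rw [mem_filter, hF, hPh]
      exact he
  have h2 : #{e ∈ F | h e = w} + #{e ∈ Fᶜ | h e = w} = 2 * k := by
    rw [← hdeg w, ← card_union_of_disjoint]
    · congr 1
      ext e
      simp only [mem_union, mem_filter, mem_compl, mem_univ, true_and]
      tauto
    · rw [disjoint_left]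
      intro e he he'
      exact (mem_compl.1 (mem_filter.1 he').1) (mem_filter.1 he).1
  omega

private theorem rho_ge {k : ℕ} (h : E → W) (t : E → Option W) (F : Finset E)
    (hd : ∀ w, #{e ∈ F | h e = w} = k) (Y : Finset W) (hY : Y.Nonempty)
    (hin : #{e ∈ F | h e ∈ Y ∧ ∃ w ∈ Y, t e = some w} ≤ k * (#Y - 1)) :
    k ≤ rho h t F Y := by
  have h1 : #{e ∈ F | h e ∈ Y} = k * #Y := by
    rw [card_eq_sum_card_fiberwise (f := h) (s := {e ∈ F | h e ∈ Y}) (t := Y)
      (fun e he => (mem_filter.1 (mem_coe.1 he)).2)]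
    rw [sum_congr rfl (g := fun _ => k), sum_const, smul_eq_mul, mul_comm]
    intro w hw
    rw [filter_filter, ← hd w]
    congr 1
    refine filter_congr fun e _ => ?_
    exact ⟨fun hh => hh.2, fun hh => ⟨hh ▸ hw, hh⟩⟩
  have h2 : #{e ∈ F | h e ∈ Y} = #{e ∈ F | h e ∈ Y ∧ ∃ w ∈ Y, t e = some w} + rho h t F Y := by
    rw [rho, ← card_union_of_disjoint]
    · congr 1
      ext e
      simp only [mem_union, mem_filter]
      by_cases hh : ∃ w ∈ Y, t e = some w
      · exact ⟨fun h3 => Or.inl ⟨h3.1, h3.2, hh⟩,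
          fun h3 => h3.elim (fun h4 => ⟨h4.1, h4.2.1⟩) (fun h4 => ⟨h4.1, h4.2.1⟩)⟩
      · exact ⟨fun h3 => Or.inr ⟨h3.1, h3.2, fun w hw hcon => hh ⟨w, hw, hcon⟩⟩,
          fun h3 => h3.elim (fun h4 => ⟨h4.1, h4.2.1⟩) (fun h4 => ⟨h4.1, h4.2.1⟩)⟩
    · rw [disjoint_left]
      intro e he he'
      obtain ⟨w, hw, hw'⟩ := (mem_filter.1 he).2.2
      exact (mem_filter.1 he').2.2 w hw hw'
  have h3 : k * #Y = k * (#Y - 1) + k := by
    have : 1 ≤ #Y := hY.card_pos
    rw [← Nat.mul_succ]
    congr 1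
    omega
  omega

/-- PIECE P3b. PROOF. `exists_split` for the block vectors (`cf_block`, `af_eq`). For a pairing with
`h (P e) = h e` the transversal `F` contains exactly `k` arcs with head `w`, for every `w`; so
`rho F Y = k * card Y - (arcs inside) ≥ k`. The same for the complement. -/
theorem TK_of_GK {k : ℕ} (hk : GK k) : TK k := by
  intro W E _ _ _ _ h t P hD hP hP' hPh
  obtain ⟨c, hc⟩ := hk W E h t hD
  let x : E → W → ZMod 3 := fun e => Pi.single (h e) 1 - vv (t e)
  have h1 := cf_block x c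
  have h2 : cf (∏ e, lf (fun p : W × Fin k => if c e = p.2 then x e p.1 else 0)) ≠ 0 := by
    rw [h1]
    refine prod_ne_zero_iff.2 fun b _ => ?_
    have := hc b
    rw [D] at this
    rw [prod_congr rfl fun e _ => (af_eq h t e).symm]
    exact this
  obtain ⟨F, hF, hl1, hl2⟩ := exists_split _ P hP hP' h2
  refine ⟨F, hF, fun Y hY => ⟨?_, ?_⟩⟩
  · exact rho_ge h t F (card_head h P hD.indeg hP hPh F hF) Y hY
      (card_inside_le h t c F hl1 Y hY)
  · have hFc : ∀ e, P e ∈ Fᶜ ↔ e ∉ Fᶜ := by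
      intro e
      rw [mem_compl, mem_compl, hF, not_not]
    have hl3 : LinearIndependent (ZMod 3) (fun e : {e // e ∈ Fᶜ} => fun p : W × Fin k =>
        if c e = p.2 then ((Pi.single (h e) 1 - vv (t e) : W → ZMod 3)) p.1 else 0) :=
      hl2.comp (fun e : {e // e ∈ Fᶜ} => (⟨e.1, mem_compl.1 e.2⟩ : {e // e ∉ F}))
        (fun a b hab => Subtype.ext (congrArg (fun z : {e // e ∉ F} => z.1) hab))
    exact rho_ge h t Fᶜ (card_head h P hD.indeg hP hPh Fᶜ hFc) Y hY
      (card_inside_le h t c Fᶜ hl3 Y hY)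

end G3
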