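import Pool.Agent.Lib_MP_e457e7_g3.TK
import Pool.Agent.Lib_MP_e457e7_g3.Trans
import Pool.Agent.Lib_MP_e457e7_g3.StepG

/-!
# Piece L7b: from the local lemma to Q1
-/

set_option autoImplicit false

namespace G3
open Finset

theorem libTK_of_TK {k : ℕ} (h : TK k) : Pool.Agent.LibE457g.TK k := by
  intro W E _ _ _ _ hh t P hdeg hcut hP hP' hPh
  obtain ⟨F, hF, hF2⟩ := h W E hh t P ⟨hdeg, hcut⟩ hP hP' hPh
  refine ⟨F, ?_, fun X hX => (hF2 X hX).1, fun X hX => (hF2 X hX).2⟩
  intro e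
  have := hF e
  tauto

/-- `Q1` for `k` (all `l`) follows from the local lemma for `k`. -/
theorem q1_of_local {k : ℕ} (hL : LocalLemma k) :
    ∀ (V A : Type) [Fintype V] [Fintype A] [DecidableEq V] [DecidableEq A]
      (tail head : A → V) (r0 : V) (c : A → ℕ) (l : ℕ)
      (IsArb : Finset A → Prop),
      (∀ T : Finset A, IsArb T ↔
          ((∀ a ∈ T, head a ≠ r0) ∧
           (∀ v : V, v ≠ r0 → ∃! a : A, a ∈ T ∧ head a = v) ∧
           (∀ v : V, Relation.ReflTransGen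
              (fun x y : V => ∃ a ∈ T, tail a = x ∧ head a = y) r0 v))) →
      (∀ a : A, c a ≤ l) →
      (∃ T : Fin (k * l) → Finset A,
          (∀ i, IsArb (T i)) ∧
          ∀ a : A, (Finset.univ.filter (fun i => a ∈ T i)).card ≤ c a) →
      ∃ B : Fin l → Fin k → Finset A,
        (∀ i j, IsArb (B i j)) ∧
        (∀ i : Fin l, ∀ j j' : Fin k, j ≠ j' → Disjoint (B i j) (B i j')) ∧
        ∀ a : A, (Finset.univ.filter
            (fun p : Fin l × Fin k => a ∈ B p.1 p.2)).card ≤ c a :=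
  Pool.Agent.LibE457g.q1_of_TK (libTK_of_TK (TK_of_GK (GK_of_local hL)))

end G3
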