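import Pool.Agent.Lib_MP_e457e7_g3.DefsG

/-! # Piece P1: the determinant identity in characteristic 3

`Ls v` is the sum over all choices `s : W -> Bool` of `det (v (i, s i)) * det (v (i, !s i))`. It is
symmetric in all `2 N` vectors modulo 3 (`Ls_perm`; Cramer's rule and an involution), so on basis
vectors it is `(-1) ^ N` times the coefficient of `∏ X ^ 2`, and both sides are multilinear. -/

set_option autoImplicit false
set_option linter.unusedSectionVars false

namespace G3
open MvPolynomial Finset

variable {W : Type*} [Fintype W] [DecidableEq W]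

namespace IdentAux

/-- determinant of a family of rows -/
noncomputable abbrev dt (m : W → W → ZMod 3) : ZMod 3 :=
  Matrix.detRowAlternating (R := ZMod 3) m

/-- the sum over transversals -/
noncomputable def Ls (v : W × Bool → W → ZMod 3) : ZMod 3 :=
  ∑ s : W → Bool, dt (fun i => v (i, s i)) * dt (fun i => v (i, !s i))

/-- rows `p`, `q` replaced -/
noncomputable def T (v : W × Bool → W → ZMod 3) (p q : W) (s : W → Bool) (x y : W → ZMod 3) :
    ZMod 3 :=
  dt (Function.update (Function.update (fun i => v (i, s i)) p x) q y)

noncomputable def U (v : W × Bool → W → ZMod 3) (p q : W) (x y z w : W → ZMod 3) : ZMod 3 :=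
  ∑ s : W → Bool, T v p q s x y * T v p q (fun i => !s i) z w

variable (v : W × Bool → W → ZMod 3) {p q : W}

theorem T_swap (hpq : p ≠ q) (s : W → Bool) (x y : W → ZMod 3) :
    T v p q s y x = -T v p q s x y := by
  unfold T dt
  rw [← AlternatingMap.map_swap _ _ hpq]
  congr 1
  funext i
  simp only [Function.comp_apply]
  by_cases hi : i = p
  · subst hi
    rw [Equiv.swap_apply_left]
    simp [Function.update_of_ne hpq]
  · by_cases hj : i = q
    · subst hj
      rw [Equiv.swap_apply_right]
      simp [Function.update_of_ne hpq]
    · rw [Equiv.swap_apply_of_ne_of_ne hi hj]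
      simp [Function.update_of_ne hi, Function.update_of_ne hj]

/-- complementation of the choice -/
def cpl : (W → Bool) ≃ (W → Bool) where
  toFun s i := !s i
  invFun s i := !s i
  left_inv s := by funext i; simp
  right_inv s := by funext i; simp

theorem U_swap12 (hpq : p ≠ q) (x y z w : W → ZMod 3) :
    U v p q y x z w = -U v p q x y z w := by
  unfold U
  rw [← sum_neg_distrib]
  exact sum_congr rfl fun s _ => by rw [T_swap v hpq]; ring

theorem U_swap34 (hpq : p ≠ q) (x y z w : W → ZMod 3) :
    U v p q x y w z = -U v p q x y z w := by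
  unfold U
  rw [← sum_neg_distrib]
  exact sum_congr rfl fun s _ => by rw [T_swap v hpq _ z w]; ring

theorem U_symm (x y z w : W → ZMod 3) :
    U v p q z w x y = U v p q x y z w := by
  unfold U
  rw [← Equiv.sum_comp (cpl (W := W))]
  refine sum_congr rfl fun s _ => ?_
  have h : (fun i => !(cpl s) i) = s := by funext i; simp [cpl]
  have h2 : (cpl s : W → Bool) = fun i => !s i := rfl
  rw [h, h2, mul_comm]

/-- flip the choice at `u` -/
def flp (u : W) (s : W → Bool) : W → Bool := Function.update s u (!s u)

omit [Fintype W] in
theorem flp_flp (u : W) (s : W → Bool) : flp u (flp u s) = s := by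
  unfold flp
  funext i
  by_cases h : i = u
  · subst h; simp
  · simp [Function.update_of_ne h]

theorem sum_flp_zero (u : W) (f : (W → Bool) → ZMod 3) (hf : ∀ s, f (flp u s) = -f s) :
    ∑ s, f s = 0 := by
  have h : ∑ s, f s = -∑ s, f s := by
    rw [← sum_neg_distrib]
    have : ∑ s, f (flp u s) = ∑ s, f s :=
      Equiv.sum_comp (⟨flp u, flp u, flp_flp u, flp_flp u⟩ : (W → Bool) ≃ (W → Bool)) f
    rw [← this]
    exact sum_congr rfl fun s _ => hf s
  generalize ∑ s, f s = x at h
  revert x; decide

/-- Cramer's rule and a linear functional -/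
theorem cramer_fun (m : W → W → ZMod 3) (d : W → ZMod 3) (φ : (W → ZMod 3) →ₗ[ZMod 3] ZMod 3) :
    dt m * φ d = ∑ i, dt (Function.update m i d) * φ (m i) := by
  have h := Matrix.mulVec_cramer (Matrix.of m).transpose d
  have h2 : dt m • d = ∑ i, dt (Function.update m i d) • m i := by
    rw [Matrix.det_transpose] at h
    have h3 : dt m = (Matrix.of m).det := rfl
    rw [h3, ← h]
    funext j
    simp only [Matrix.mulVec, dotProduct, Matrix.transpose_apply, Matrix.of_apply,
      Finset.sum_apply, Pi.smul_apply, smul_eq_mul]
    refine sum_congr rfl fun i _ => ?_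
    rw [Matrix.cramer_transpose_apply, mul_comm]
    rfl
  have h4 := congrArg φ h2
  rw [map_smul, map_sum, smul_eq_mul] at h4
  rw [h4]
  exact sum_congr rfl fun i _ => by rw [map_smul, smul_eq_mul]

/-- `x ↦ T v p q s a x` as a linear map -/
noncomputable def Tl (v : W × Bool → W → ZMod 3) (p q : W) (s : W → Bool) (a : W → ZMod 3) :
    (W → ZMod 3) →ₗ[ZMod 3] ZMod 3 where
  toFun x := T v p q s a x
  map_add' x y := by
    unfold T
    exact AlternatingMap.map_update_add _ _ _ _ _
  map_smul' c x := by
    unfold T
    exact AlternatingMap.map_update_smul _ _ _ _ _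

theorem U_plucker (hpq : p ≠ q) (a b c d : W → ZMod 3) :
    U v p q a d b c = U v p q a c b d - U v p q a b c d := by
  have key : ∀ s : W → Bool, T v p q s a d * T v p q (fun i => !s i) b c =
      ∑ i, dt (Function.update (Function.update (Function.update (fun i => v (i, !s i)) p b) q c)
        i d) * T v p q s a ((Function.update (Function.update (fun i => v (i, !s i)) p b) q c) i) := by
    intro s
    have := cramer_fun (Function.update (Function.update (fun i => v (i, !s i)) p b) q c) d
      (Tl v p q s a)
    rw [mul_comm]
    exact this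
  have h1 : U v p q a d b c = ∑ i, ∑ s : W → Bool,
      dt (Function.update (Function.update (Function.update (fun i => v (i, !s i)) p b) q c)
        i d) * T v p q s a ((Function.update (Function.update (fun i => v (i, !s i)) p b) q c) i) := by
    rw [sum_comm]
    exact sum_congr rfl fun s _ => key s
  rw [h1, ← Finset.add_sum_erase _ _ (mem_univ p),
    ← Finset.add_sum_erase _ _ (mem_erase.2 ⟨hpq.symm, mem_univ q⟩),
    sum_eq_zero (s := (univ.erase p).erase q), add_zero]
  · have h2 : ∑ s : W → Bool,
        dt (Function.update (Function.update (Function.update (fun i => v (i, !s i)) p b) q c)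
          p d) * T v p q s a
            ((Function.update (Function.update (fun i => v (i, !s i)) p b) q c) p) =
        U v p q a b d c := by
      refine sum_congr rfl fun s _ => ?_
      rw [Function.update_of_ne hpq, Function.update_self, Function.update_comm hpq.symm,
        Function.update_idem, mul_comm]
      rfl
    have h3 : ∑ s : W → Bool,
        dt (Function.update (Function.update (Function.update (fun i => v (i, !s i)) p b) q c)
          q d) * T v p q s a
            ((Function.update (Function.update (fun i => v (i, !s i)) p b) q c) q) =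
        U v p q a c b d := by
      refine sum_congr rfl fun s _ => ?_
      rw [Function.update_self, Function.update_idem, mul_comm]
      rfl
    rw [h2, h3, U_swap34 v hpq]
    ring
  · intro i hi
    have hiq : i ≠ q := (mem_erase.1 hi).1
    have hip : i ≠ p := (mem_erase.1 (mem_erase.1 hi).2).1
    refine sum_flp_zero i _ fun s => ?_
    have e1 : Function.update (Function.update (Function.update
        (fun j => v (j, !(flp i s) j)) p b) q c) i d =
        Function.update (Function.update (Function.update (fun j => v (j, !s j)) p b) q c) i d := by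
      funext j
      by_cases hj : j = i
      · subst hj; simp
      · rw [Function.update_of_ne hj, Function.update_of_ne hj]
        by_cases hjq : j = q
        · subst hjq; simp
        · rw [Function.update_of_ne hjq, Function.update_of_ne hjq]
          by_cases hjp : j = p
          · subst hjp; simp
          · rw [Function.update_of_ne hjp, Function.update_of_ne hjp]
            simp [flp, Function.update_of_ne hj]
    have e2 : ∀ s : W → Bool, (Function.update (Function.update (fun j => v (j, !s j)) p b) q c) i =
        v (i, !s i) := by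
      intro s
      rw [Function.update_of_ne hiq, Function.update_of_ne hip]
    have e3 : T v p q (flp i s) a (v (i, !(flp i s) i)) = -T v p q s a (v (i, !s i)) := by
      unfold T dt
      rw [← AlternatingMap.map_swap _ _ hiq]
      congr 1
      funext j
      simp only [Function.comp_apply]
      by_cases hj : j = i
      · subst hj
        rw [Equiv.swap_apply_left, Function.update_self, Function.update_of_ne hiq,
          Function.update_of_ne hip]
        simp [flp]
      · by_cases hjq : j = q
        · subst hjq
          rw [Equiv.swap_apply_right, Function.update_self, Function.update_of_ne hiq,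
            Function.update_of_ne hip]
          simp [flp]
        · rw [Equiv.swap_apply_of_ne_of_ne hj hjq, Function.update_of_ne hjq,
            Function.update_of_ne hjq]
          by_cases hjp : j = p
          · subst hjp; simp
          · rw [Function.update_of_ne hjp, Function.update_of_ne hjp]
            simp [flp, Function.update_of_ne hj]
    rw [e1, e2, e2, e3]
    ring

/-- four values of the choice at `p`, `q` -/
theorem Ls_eq (hpq : p ≠ q) : Ls v = ∑ b : Bool × Bool,
    U v p q (v (p, b.1)) (v (q, b.2)) (v (p, !b.1)) (v (q, !b.2)) := by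
  have h1 : ∀ b : Bool × Bool,
      Ls v = ∑ s : W → Bool, T v p q s (v (p, xor b.1 (s p))) (v (q, xor b.2 (s q))) *
        T v p q (fun i => !s i) (v (p, !(xor b.1 (s p)))) (v (q, !(xor b.2 (s q)))) := by
    rintro ⟨b1, b2⟩
    let g : (W → Bool) → (W → Bool) := fun s =>
      Function.update (Function.update s p (xor b1 (s p))) q (xor b2 (s q))
    have gg : ∀ s, g (g s) = s := by
      intro s
      funext i
      by_cases hq : i = q
      · subst hq
        simp [g]
      · by_cases hp : i = p
        · subst hp
          simp [g, Function.update_of_ne hpq]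
        · simp [g, Function.update_of_ne hq, Function.update_of_ne hp]
    unfold Ls
    rw [← Equiv.sum_comp (⟨g, g, gg, gg⟩ : (W → Bool) ≃ (W → Bool))]
    refine sum_congr rfl fun s _ => ?_
    have e1 : (fun i => v (i, g s i)) = Function.update (Function.update (fun i => v (i, s i)) p
        (v (p, xor b1 (s p)))) q (v (q, xor b2 (s q))) := by
      funext i
      by_cases hq : i = q
      · subst hq
        simp [g]
      · by_cases hp : i = p
        · subst hp
          simp [g, Function.update_of_ne hpq]
        · simp [g, Function.update_of_ne hq, Function.update_of_ne hp]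
    have e2 : (fun i => v (i, !g s i)) = Function.update (Function.update (fun i => v (i, !s i)) p
        (v (p, !(xor b1 (s p))))) q (v (q, !(xor b2 (s q)))) := by
      funext i
      by_cases hq : i = q
      · subst hq
        simp [g]
      · by_cases hp : i = p
        · subst hp
          simp [g, Function.update_of_ne hpq]
        · simp [g, Function.update_of_ne hq, Function.update_of_ne hp]
    change dt (fun i => v (i, g s i)) * dt (fun i => v (i, !g s i)) = _
    rw [e1, e2]
    rfl
  have h2 : Ls v = ∑ _b : Bool × Bool, Ls v := by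
    rw [sum_const, card_univ, Fintype.card_prod, Fintype.card_bool]
    simp only [nsmul_eq_mul]
    have : ((2 * 2 : ℕ) : ZMod 3) = 1 := by decide
    rw [this, one_mul]
  rw [h2, sum_congr rfl fun b _ => h1 b]
  unfold U
  refine sum_comm.trans (Eq.trans (sum_congr rfl fun s _ => ?_) sum_comm)
  rcases s p <;> rcases s q <;> simp [Fintype.sum_prod_type] <;> ring

/-- the symmetric function in terms of two values -/
theorem Ls_eq2 (hpq : p ≠ q) : Ls v =
    U v p q (v (p, true)) (v (q, true)) (v (p, false)) (v (q, false)) +
    U v p q (v (p, true)) (v (p, false)) (v (q, true)) (v (q, false)) := by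
  rw [Ls_eq v hpq]
  simp only [Fintype.sum_prod_type, Fintype.sum_bool, Bool.not_true, Bool.not_false]
  have a1 := U_symm v (p := p) (q := q) (v (p, true)) (v (q, true)) (v (p, false)) (v (q, false))
  have a2 := U_symm v (p := p) (q := q) (v (p, true)) (v (q, false)) (v (p, false)) (v (q, true))
  have a3 := U_plucker v hpq (v (p, true)) (v (p, false)) (v (q, true)) (v (q, false))
  rw [a1, a2, a3]
  generalize U v p q (v (p, true)) (v (q, true)) (v (p, false)) (v (q, false)) = x
  generalize U v p q (v (p, true)) (v (p, false)) (v (q, true)) (v (q, false)) = y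
  revert x y; decide

theorem Ls_swap_same (i : W) (b c : Bool) : Ls (v ∘ Equiv.swap (i, b) (i, c)) = Ls v := by
  by_cases hbc : b = c
  · subst hbc; simp
  have hc : c = !b := by
    revert hbc; cases b <;> cases c <;> simp
  subst hc
  unfold Ls
  rw [← Equiv.sum_comp (⟨flp i, flp i, flp_flp i, flp_flp i⟩ : (W → Bool) ≃ (W → Bool))]
  refine sum_congr rfl fun s _ => ?_
  have e : ∀ j : W, ∀ d : Bool, (Equiv.swap (i, b) (i, !b)) (j, d) =
      if j = i then (j, !d) else (j, d) := by
    intro j d
    by_cases hj : j = i
    · subst hj
      rw [if_pos rfl]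
      cases b <;> cases d <;> simp
    · rw [if_neg hj, Equiv.swap_apply_of_ne_of_ne] <;> simp [hj]
  change dt (fun j => v (Equiv.swap (i, b) (i, !b) (j, flp i s j))) *
    dt (fun j => v (Equiv.swap (i, b) (i, !b) (j, !flp i s j))) = _
  congr 2
  · funext j
    rw [e]
    by_cases hj : j = i
    · subst hj; simp [flp]
    · simp [flp, hj]
  · funext j
    rw [e]
    by_cases hj : j = i
    · subst hj; simp [flp]
    · simp [flp, hj]

theorem U_congr (v' : W × Bool → W → ZMod 3) (h : ∀ i, i ≠ p → i ≠ q → ∀ b, v' (i, b) = v (i, b))
    (x y z w : W → ZMod 3) : U v' p q x y z w = U v p q x y z w := by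
  have hT : ∀ s : W → Bool, ∀ x y : W → ZMod 3, T v' p q s x y = T v p q s x y := by
    intro s x y
    unfold T dt
    congr 1
    funext j
    by_cases hjq : j = q
    · subst hjq; simp
    · rw [Function.update_of_ne hjq, Function.update_of_ne hjq]
      by_cases hjp : j = p
      · subst hjp; simp
      · rw [Function.update_of_ne hjp, Function.update_of_ne hjp]
        exact h j hjp hjq _
  unfold U
  exact sum_congr rfl fun s _ => by rw [hT, hT]

theorem Ls_swap_ne (hpq : p ≠ q) (b c : Bool) : Ls (v ∘ Equiv.swap (p, b) (q, c)) = Ls v := by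
  have hc := U_congr (p := p) (q := q) v (v ∘ Equiv.swap (p, b) (q, c)) (by
    intro i hip hiq d
    simp only [Function.comp_apply]
    rw [Equiv.swap_apply_of_ne_of_ne] <;> simp [hip, hiq])
  rw [Ls_eq2 v hpq, Ls_eq2 _ hpq, hc, hc]
  · have a3 := U_plucker v hpq (v (p, true)) (v (p, false)) (v (q, true)) (v (q, false))
    have s1 := U_swap12 v hpq
    have s2 := U_swap34 v hpq
    have s3 := U_symm v (p := p) (q := q)
    have d1 : ∀ x y : ZMod 3, -x + -(x - y) = x + y := by decide
    cases b <;> cases c <;>
      simp only [Function.comp_apply, Equiv.swap_apply_def, Prod.mk.injEq, hpq, hpq.symm,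
        and_true, and_false, if_true, if_false, Bool.false_eq_true, Bool.true_eq_false]
    · rw [s2 (v (p, true)) (v (q, true)) (v (p, false)) (v (q, false)),
        s2 (v (p, true)) (v (q, false)) (v (p, false)) (v (q, true)), a3, d1]
    · exact add_comm _ _
    · rw [s1 (v (q, true)) (v (q, false)), s2 _ _ (v (p, true)) (v (p, false)), neg_neg,
        s3 (v (p, true)) (v (p, false)), s1 (v (p, false)) (v (q, false)),
        s2 _ _ (v (p, true)) (v (q, true)), neg_neg, s3 (v (p, true)) (v (q, true))]
      exact add_comm _ _
    · rw [s1 (v (p, true)) (v (q, true)), s1 (v (p, false)) (v (q, true)),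
        s3 (v (p, true)) (v (q, false)), a3, d1]

theorem Ls_perm (σ : Equiv.Perm (W × Bool)) : ∀ v, Ls (v ∘ σ) = Ls v := by
  induction σ using Equiv.Perm.swap_induction_on with
  | one => intro v; rfl
  | swap_mul f x y hxy ih =>
    intro v
    have : v ∘ ⇑(Equiv.swap x y * f) = (v ∘ Equiv.swap x y) ∘ f := rfl
    rw [this, ih]
    obtain ⟨p, b⟩ := x
    obtain ⟨q, c⟩ := y
    by_cases hpq : p = q
    · subst hpq
      exact Ls_swap_same v p b c
    · exact Ls_swap_ne v hpq b c

theorem Ls_std : Ls (fun x : W × Bool => (Pi.single x.1 1 : W → ZMod 3)) =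
    (-1) ^ Fintype.card W := by
  unfold Ls
  have h : dt (fun i : W => (Pi.single i 1 : W → ZMod 3)) = 1 := by
    have h1 : (fun i : W => (Pi.single i 1 : W → ZMod 3)) = (1 : Matrix W W (ZMod 3)) := by
      funext i j
      rw [Matrix.one_apply, Pi.single_apply]
      simp only [eq_comm]
    rw [dt, h1]
    exact Matrix.det_one
  simp only [h, mul_one, sum_const, card_univ, Fintype.card_fun, Fintype.card_bool,
    nsmul_eq_mul]
  rw [Nat.cast_pow]
  congr 1

theorem Ls_count (τ : W × Bool → W) (h : ∀ w, #{x | τ x = w} = 2) :
    Ls (fun x => (Pi.single (τ x) 1 : W → ZMod 3)) = (-1) ^ Fintype.card W := by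
  have hf : ∀ w, Nonempty ({x // τ x = w} ≃ {x : W × Bool // x.1 = w}) := by
    intro w
    refine ⟨Fintype.equivOfCardEq ?_⟩
    rw [Fintype.card_subtype, Fintype.card_subtype, h w]
    have : univ.filter (fun x : W × Bool => x.1 = w) = {(w, true), (w, false)} := by
      ext ⟨a, b⟩
      cases b <;> simp
    rw [this, card_pair]
    simp
  let g := fun w => Classical.choice (hf w)
  let σ : Equiv.Perm (W × Bool) := (Equiv.sigmaFiberEquiv τ).symm.trans
    ((Equiv.sigmaCongrRight g).trans (Equiv.sigmaFiberEquiv (Prod.fst : W × Bool → W)))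
  have hσ : ∀ x, (σ x).1 = τ x := by
    intro x
    exact (g (τ x) ⟨x, rfl⟩).2
  have : (fun x => (Pi.single (τ x) 1 : W → ZMod 3)) =
      (fun x : W × Bool => (Pi.single x.1 1 : W → ZMod 3)) ∘ σ := by
    funext x
    simp only [Function.comp_apply, hσ]
  rw [this, Ls_perm, Ls_std]

theorem Ls_zero (τ : W × Bool → W) (h : ∃ w, #{x | τ x = w} ≠ 2) :
    Ls (fun x => (Pi.single (τ x) 1 : W → ZMod 3)) = 0 := by
  have h1 : ∃ w, #{x | τ x = w} < 2 := by
    by_contra hcon
    push Not at hcon
    obtain ⟨w, hw⟩ := h
    have h2 : ∑ w, #{x | τ x = w} = 2 * Fintype.card W := by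
      rw [← card_eq_sum_card_fiberwise (f := τ) (s := univ) (t := univ) (fun _ _ => mem_coe.2 (mem_univ _))]
      rw [card_univ, Fintype.card_prod, Fintype.card_bool, mul_comm]
    have h3 : ∑ _w : W, 2 < ∑ w, #{x | τ x = w} :=
      sum_lt_sum (fun w _ => hcon w) ⟨w, mem_univ _, lt_of_le_of_ne (hcon w) (Ne.symm hw)⟩
    rw [h2, sum_const, card_univ, smul_eq_mul, mul_comm] at h3
    exact lt_irrefl _ h3
  obtain ⟨w, hw⟩ := h1
  refine sum_eq_zero fun s _ => ?_
  have hcol : ∀ m : W → W, (∀ i, m i ≠ w) →
      dt (fun i => (Pi.single (m i) 1 : W → ZMod 3)) = 0 := by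
    intro m hm
    refine Matrix.det_eq_zero_of_column_eq_zero w fun i => ?_
    exact Pi.single_eq_of_ne (hm i).symm _
  by_cases ha : ∃ i, τ (i, s i) = w
  · by_cases hb : ∃ i, τ (i, !s i) = w
    · exfalso
      obtain ⟨i, hi⟩ := ha
      obtain ⟨j, hj⟩ := hb
      have hne : ((i, s i) : W × Bool) ≠ (j, !s j) := by
        intro h
        have h1 : i = j := congrArg Prod.fst h
        subst h1
        have h2 := congrArg Prod.snd h
        simp at h2
      have : 1 < #{x | τ x = w} :=
        one_lt_card.2 ⟨_, mem_filter.2 ⟨mem_univ _, hi⟩, _, mem_filter.2 ⟨mem_univ _, hj⟩, hne⟩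
      omega
    · push Not at hb
      rw [hcol (fun i => τ (i, !s i)) hb, mul_zero]
  · push Not at ha
    rw [hcol (fun i => τ (i, s i)) ha, zero_mul]

/-- rows after an update of one vector -/
theorem row_update (v : W × Bool → W → ZMod 3) (s : W → Bool) (x : W × Bool)
    (z : W → ZMod 3) :
    (fun i => Function.update v x z (i, s i)) =
      if s x.1 = x.2 then Function.update (fun i => v (i, s i)) x.1 z
        else (fun i => v (i, s i)) := by
  obtain ⟨j, b⟩ := x
  funext i
  by_cases hi : i = j
  · subst hi
    by_cases hb : s i = b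
    · subst hb
      simp
    · have : ((i, s i) : W × Bool) ≠ (i, b) := fun h => hb (congrArg Prod.snd h)
      simp [hb]
  · have : ((i, s i) : W × Bool) ≠ (j, b) := fun h => hi (congrArg Prod.fst h)
    rw [Function.update_of_ne this]
    split_ifs
    · rw [Function.update_of_ne hi]
    · rfl

theorem term_update (v : W × Bool → W → ZMod 3) (s : W → Bool) (x : W × Bool)
    (z : W → ZMod 3) :
    dt (fun i => Function.update v x z (i, s i)) * dt (fun i => Function.update v x z (i, !s i)) =
      if s x.1 = x.2 then dt (Function.update (fun i => v (i, s i)) x.1 z) *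
          dt (fun i => v (i, !s i))
        else dt (fun i => v (i, s i)) * dt (Function.update (fun i => v (i, !s i)) x.1 z) := by
  have h1 := row_update v s x z
  have h2 := row_update v (fun i => !s i) x z
  rw [h1, h2]
  by_cases h : s x.1 = x.2
  · have h' : ¬ ((!s x.1) = x.2) := by rw [← h]; simp
    rw [if_pos h, if_neg h', if_pos h]
  · have h' : (!s x.1) = x.2 := by
      revert h; cases s x.1 <;> cases x.2 <;> simp
    rw [if_neg h, if_pos h', if_neg h]

/-- the left side as a multilinear map -/
noncomputable def LsM : MultilinearMap (ZMod 3) (fun _ : W × Bool => W → ZMod 3) (ZMod 3) where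
  toFun v := Ls v
  map_update_add' := by
    intro inst v x y z
    have : inst = instDecidableEqProd := Subsingleton.elim _ _
    subst this
    unfold Ls
    rw [← sum_add_distrib]
    refine sum_congr rfl fun s _ => ?_
    rw [term_update, term_update, term_update]
    split_ifs
    · rw [dt, AlternatingMap.map_update_add, add_mul]
    · rw [mul_comm, dt, AlternatingMap.map_update_add, add_mul]
      ring
  map_update_smul' := by
    intro inst v x c z
    have : inst = instDecidableEqProd := Subsingleton.elim _ _
    subst this
    unfold Ls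
    rw [smul_eq_mul, mul_sum]
    refine sum_congr rfl fun s _ => ?_
    rw [term_update, term_update]
    split_ifs
    · rw [dt, AlternatingMap.map_update_smul, smul_eq_mul, mul_assoc]
    · rw [mul_comm, dt, AlternatingMap.map_update_smul, smul_eq_mul, mul_assoc]
      ring

/-- linear form as a linear map -/
noncomputable def lfL : (W → ZMod 3) →ₗ[ZMod 3] MvPolynomial W (ZMod 3) where
  toFun x := lf x
  map_add' x y := lf_add x y
  map_smul' c x := by rw [lf_smul, RingHom.id_apply, smul_eq_C_mul]

noncomputable def cfL : MvPolynomial W (ZMod 3) →ₗ[ZMod 3] ZMod 3 where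
  toFun f := cf f
  map_add' x y := cf_add x y
  map_smul' c x := by rw [smul_eq_C_mul, cf_C_mul, RingHom.id_apply, smul_eq_mul]

/-- the right side as a multilinear map -/
noncomputable def RsM : MultilinearMap (ZMod 3) (fun _ : W × Bool => W → ZMod 3) (ZMod 3) :=
  ((-1 : ZMod 3) ^ Fintype.card W) • (cfL (W := W)).compMultilinearMap
    ((MultilinearMap.mkPiAlgebra (ZMod 3) (W × Bool) (MvPolynomial W (ZMod 3))).compLinearMap
      fun _ => lfL)

theorem LsM_apply (v : W × Bool → W → ZMod 3) : LsM v = Ls v := rfl

theorem RsM_apply (v : W × Bool → W → ZMod 3) :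
    RsM v = (-1) ^ Fintype.card W * cf (∏ x, lf (v x)) := rfl

theorem prod_X (τ : W × Bool → W) : ∏ x, (X (τ x) : MvPolynomial W (ZMod 3)) =
    monomial (Finsupp.equivFunOnFinite.symm fun w => #{x | τ x = w}) 1 := by
  rw [monomial_eq, C_1, one_mul, Finsupp.prod_fintype _ _ (fun i => by simp)]
  rw [← prod_fiberwise_of_maps_to (g := τ) (s := univ) (t := univ) (fun _ _ => mem_univ _)]
  refine prod_congr rfl fun w _ => ?_
  rw [prod_congr rfl (g := fun _ => X w) fun x hx => by rw [(mem_filter.1 hx).2], prod_const]
  rfl

theorem Ls_eq_cf (v : W × Bool → W → ZMod 3) :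
    Ls v = (-1) ^ Fintype.card W * cf (∏ x, lf (v x)) := by
  have h : LsM (W := W) = RsM := by
    refine Module.Basis.ext_multilinear (fun _ => Pi.basisFun (ZMod 3) W) fun τ => ?_
    rw [LsM_apply, RsM_apply]
    simp only [Pi.basisFun_apply, lf_single, prod_X]
    rw [cf, coeff_monomial]
    by_cases hτ : ∀ w, #{x | τ x = w} = 2
    · rw [Ls_count τ hτ, if_pos, mul_one]
      congr 1
      funext w
      exact hτ w
    · rw [if_neg, mul_zero]
      · push Not at hτ
        exact Ls_zero τ hτ
      · intro h
        exact hτ fun w => congrFun (Finsupp.equivFunOnFinite.symm.injective h) w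
  exact congrFun (congrArg DFunLike.coe h) v

end IdentAux

open IdentAux in
/-- PIECE P1a. The pairs are `(u i, w i)`, `i : W`. -/
theorem identity (u w : W → W → ZMod 3) :
    ∑ F : W → Bool, Matrix.det (Matrix.of fun i => if F i then u i else w i) *
      Matrix.det (Matrix.of fun i => if F i then w i else u i) =
    (-1) ^ Fintype.card W * cf (∏ i, lf (u i) * lf (w i)) := by
  have h := Ls_eq_cf (fun x : W × Bool => if x.2 then u x.1 else w x.1)
  rw [Fintype.prod_prod_type] at h
  simp only [Fintype.prod_bool, if_true, Bool.false_eq_true, if_false] at h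
  rw [← h]
  refine sum_congr rfl fun F _ => ?_
  congr 1
  change Matrix.det _ = Matrix.det (Matrix.of fun i => if (!F i) then u i else w i)
  congr 1
  funext i j
  cases h : F i <;> simp [h]

namespace IdentAux

omit [DecidableEq W] in
theorem lf_homog (x : W → ZMod 3) : (lf x).IsHomogeneous 1 := by
  unfold lf
  exact IsHomogeneous.sum _ _ _ fun w _ => isHomogeneous_C_mul_X _ _

omit [DecidableEq W] in
theorem card_eq_of_cf_ne {E : Type*} [Fintype E] (x : E → W → ZMod 3)
    (h : cf (∏ e, lf (x e)) ≠ 0) : Fintype.card E = 2 * Fintype.card W := by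
  have h1 : (∏ e, lf (x e)).IsHomogeneous (∑ _e : E, 1) :=
    IsHomogeneous.prod _ _ _ fun e _ => lf_homog _
  have h2 : (Finsupp.equivFunOnFinite.symm fun _ : W => 2).degree = ∑ _e : E, 1 := by
    rw [Finsupp.degree_eq_weight_one]
    exact h1 h
  rw [Finsupp.degree_eq_sum] at h2
  simp only [Finsupp.equivFunOnFinite_symm_apply_apply, sum_const, card_univ, smul_eq_mul,
    mul_one] at h2
  rw [← h2, mul_comm]

/-- a transversal of a fixed point free involution -/
theorem exists_transversal {E : Type*} [Fintype E] [DecidableEq E] (P : E → E)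
    (hP : ∀ e, P (P e) = e) (hP' : ∀ e, P e ≠ e) : ∃ A : Finset E, ∀ e, P e ∈ A ↔ e ∉ A := by
  let o := Fintype.equivFin E
  refine ⟨univ.filter fun e => o e < o (P e), fun e => ?_⟩
  simp only [mem_filter, mem_univ, true_and, hP, not_lt]
  constructor
  · intro h
    exact h.le
  · intro h
    refine lt_of_le_of_ne h fun h' => hP' e (o.injective h')

end IdentAux

open IdentAux in
/-- PIECE P1b. From a non-zero coefficient to a transversal with two independent sides. -/
theorem exists_split {E : Type*} [Fintype E] [DecidableEq E] (x : E → W → ZMod 3) (P : E → E)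
    (hP : ∀ e, P (P e) = e) (hP' : ∀ e, P e ≠ e) (h : cf (∏ e, lf (x e)) ≠ 0) :
    ∃ F : Finset E, (∀ e, P e ∈ F ↔ e ∉ F) ∧
      LinearIndependent (ZMod 3) (fun e : {e // e ∈ F} => x e) ∧
      LinearIndependent (ZMod 3) (fun e : {e // e ∉ F} => x e) := by
  classical
  obtain ⟨A, hA⟩ := exists_transversal P hP hP'
  have hcE := card_eq_of_cf_ne x h
  have hPinj : Function.Injective P := fun a b hab => by rw [← hP a, hab, hP]
  have hcA : #A = Fintype.card W := by
    have h1 : #Aᶜ = #A := by
      have : A.image P = Aᶜ := by
        ext e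
        rw [mem_image, mem_compl]
        constructor
        · rintro ⟨a, ha, rfl⟩ h2
          exact (hA a).1 h2 ha
        · intro he
          exact ⟨P e, (hA e).2 he, hP e⟩
      rw [← this, card_image_of_injective _ hPinj]
    have h2 := card_add_card_compl A
    omega
  have hcard : Fintype.card W = Fintype.card {e // e ∈ A} := by
    rw [Fintype.card_coe, hcA]
  let a : W ≃ {e // e ∈ A} := Fintype.equivOfCardEq hcard
  let φ : W × Bool → E := fun p => if p.2 then (a p.1 : E) else P (a p.1)
  have hφ1 : ∀ w b, P (φ (w, b)) = φ (w, !b) := by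
    intro w b
    cases b <;> simp [φ, hP]
  have hφA : ∀ w b, φ (w, b) ∈ A ↔ b = true := by
    intro w b
    cases b
    · simp only [φ, Bool.false_eq_true, if_false, iff_false]
      rw [hA]
      simp
    · simp [φ]
  have hφinj : Function.Injective φ := by
    rintro ⟨w, b⟩ ⟨w', b'⟩ hh
    have hb : b = b' := by
      have h1 := hφA w b
      have h2 := hφA w' b'
      rw [hh] at h1
      have h3 : b = true ↔ b' = true := h1.symm.trans h2
      exact Bool.eq_iff_iff.2 h3
    subst hb
    have h1 : (a w : E) = a w' := by
      cases b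
      · exact hPinj (by simpa [φ] using hh)
      · simpa [φ] using hh
    have h2 : w = w' := a.injective (Subtype.ext h1)
    rw [h2]
  have hφbij : Function.Bijective φ := by
    rw [Fintype.bijective_iff_injective_and_card]
    refine ⟨hφinj, ?_⟩
    rw [Fintype.card_prod, Fintype.card_bool, hcE, mul_comm]
  have h1 : ∏ e, lf (x e) = ∏ i, lf (x (φ (i, true))) * lf (x (φ (i, false))) := by
    rw [← (Equiv.ofBijective φ hφbij).prod_comp, Fintype.prod_prod_type]
    refine prod_congr rfl fun i _ => ?_
    rw [Fintype.prod_bool]
    rfl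
  have h2 := identity (fun i => x (φ (i, true))) (fun i => x (φ (i, false)))
  rw [← h1] at h2
  have h3 : ∑ F : W → Bool, Matrix.det (Matrix.of fun i =>
      if F i then x (φ (i, true)) else x (φ (i, false))) *
      Matrix.det (Matrix.of fun i => if F i then x (φ (i, false)) else x (φ (i, true))) ≠ 0 := by
    rw [h2]
    exact mul_ne_zero (pow_ne_zero _ (by decide)) h
  obtain ⟨s, -, hs⟩ := exists_ne_zero_of_sum_ne_zero h3
  have e1 : (fun i => if s i then x (φ (i, true)) else x (φ (i, false))) =
      fun i => x (φ (i, s i)) := by
    funext i; cases hsi : s i <;> simp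
  have e2 : (fun i => if s i then x (φ (i, false)) else x (φ (i, true))) =
      fun i => x (φ (i, !s i)) := by
    funext i; cases hsi : s i <;> simp
  rw [e1, e2] at hs
  have hd1 := Matrix.linearIndependent_rows_of_det_ne_zero (left_ne_zero_of_mul hs)
  have hd2 := Matrix.linearIndependent_rows_of_det_ne_zero (right_ne_zero_of_mul hs)
  have hmem : ∀ w b, φ (w, b) ∈ univ.image (fun i => φ (i, s i)) ↔ s w = b := by
    intro w b
    rw [mem_image]
    constructor
    · rintro ⟨i, -, hi⟩
      have := hφinj hi
      have h3 : i = w := congrArg Prod.fst this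
      subst h3
      exact congrArg Prod.snd this
    · rintro rfl
      exact ⟨w, mem_univ _, rfl⟩
  refine ⟨univ.image fun i => φ (i, s i), ?_, ?_, ?_⟩
  · intro e
    obtain ⟨⟨w, b⟩, rfl⟩ := hφbij.2 e
    rw [hφ1, hmem, hmem]
    cases s w <;> cases b <;> simp
  · have hg : ∀ e : {e // e ∈ univ.image fun i => φ (i, s i)}, ∃ i, φ (i, s i) = e := by
      intro e
      obtain ⟨i, -, hi⟩ := mem_image.1 e.2
      exact ⟨i, hi⟩
    choose g hg using hg
    have hginj : Function.Injective g := by
      intro e e' hee
      apply Subtype.ext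
      rw [← hg e, ← hg e', hee]
    have e3 : (fun e : {e // e ∈ univ.image fun i => φ (i, s i)} => x e) =
        (fun i => x (φ (i, s i))) ∘ g := by
      funext e
      simp only [Function.comp_apply, hg]
    rw [e3]
    exact hd1.comp g hginj
  · have hg : ∀ e : {e // e ∉ univ.image fun i => φ (i, s i)}, ∃ i, φ (i, !s i) = e := by
      intro e
      obtain ⟨⟨w, b⟩, hw⟩ := hφbij.2 e.1
      have := e.2
      rw [← hw, hmem] at this
      refine ⟨w, ?_⟩
      rw [← hw]
      congr 2
      revert this; cases s w <;> cases b <;> simp
    choose g hg using hg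
    have hginj : Function.Injective g := by
      intro e e' hee
      apply Subtype.ext
      rw [← hg e, ← hg e', hee]
    have e3 : (fun e : {e // e ∉ univ.image fun i => φ (i, s i)} => x e) =
        (fun i => x (φ (i, !s i))) ∘ g := by
      funext e
      simp only [Function.comp_apply, hg]
    rw [e3]
    exact hd2.comp g hginj

end G3
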