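import Mathlib

/-!
Local part, basics: the functions `FF`, `DD`, the relation on sets with one more element,
the exchange property and the two lemmas on monochromatic and rainbow triples.
-/

set_option autoImplicit false
set_option linter.unusedSectionVars false

namespace Pool.Agent.LibE457g

open Finset

variable {ι : Type*} [DecidableEq ι]

/-- Sum of `f` over all subsets with two elements less. -/
def FF (f : Finset ι → ZMod 3) (Q : Finset ι) : ZMod 3 :=
  ∑ J ∈ Q.powersetCard (Q.card - 2), f J

/-- Alternating sum over all ways to replace elements of `O` by their partners. -/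
def DD (f : Finset ι → ZMod 3) (μ : ι → ι) (O : Finset ι) : ZMod 3 :=
  ∑ A ∈ O.powerset, (-1) ^ A.card * f ((O \ A) ∪ A.image μ)

theorem three_eq_zero' : (3 : ZMod 3) = 0 := rfl

theorem exists_other {α : Type*} [DecidableEq α] {s : Finset α} {h : α → ZMod 3}
    (hs : ∑ i ∈ s, h i = 0) {i0 : α} (hi0 : i0 ∈ s) (h0 : h i0 ≠ 0) :
    ∃ i ∈ s, i ≠ i0 ∧ h i ≠ 0 := by
  by_contra hcon
  push Not at hcon
  rw [Finset.sum_eq_single_of_mem i0 hi0 (fun b hb hne => hcon b hb hne)] at hs
  exact h0 hs

/-- The values of `FF` on the sets with one element less sum up to zero. -/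
theorem sum_FF_erase (f : Finset ι → ZMod 3) (V : Finset ι) (hV : 3 ≤ V.card) :
    ∑ x ∈ V, FF f (V.erase x) = 0 := by
  have h1 : ∀ x ∈ V, FF f (V.erase x) = ∑ J ∈ (V.erase x).powersetCard (V.card - 3), f J := by
    intro x hx
    unfold FF
    rw [card_erase_of_mem hx]
    congr 2
  rw [Finset.sum_congr rfl h1]
  rw [Finset.sum_comm' (t' := V.powersetCard (V.card - 3)) (s' := fun J => V \ J)]
  · have h2 : ∀ J ∈ V.powersetCard (V.card - 3), ∑ _x ∈ V \ J, f J = 0 := by
      intro J hJ
      obtain ⟨hJ1, hJ2⟩ := mem_powersetCard.1 hJ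
      rw [sum_const, card_sdiff_of_subset hJ1, hJ2]
      have : V.card - (V.card - 3) = 3 := by omega
      rw [this, nsmul_eq_mul]
      have : ((3 : ℕ) : ZMod 3) = 0 := rfl
      rw [this, zero_mul]
    exact Finset.sum_eq_zero h2
  · intro x J
    simp only [mem_powersetCard, mem_sdiff, subset_erase]
    tauto

/-- Exchange. -/
theorem FF_exchange (f : Finset ι → ZMod 3) (Q : Finset ι) (hQ : 2 ≤ Q.card) (h : FF f Q ≠ 0)
    {x : ι} (hx : x ∉ Q) : ∃ y ∈ Q, FF f (insert x (Q.erase y)) ≠ 0 := by
  have h1 := sum_FF_erase f (insert x Q) (by rw [card_insert_of_notMem hx]; omega)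
  obtain ⟨y, hy, hyx, hy0⟩ := exists_other h1 (mem_insert_self x Q)
    (by rw [erase_insert hx]; exact h)
  refine ⟨y, (mem_insert.1 hy).resolve_left hyx, ?_⟩
  rwa [erase_insert_of_ne (Ne.symm hyx)] at hy0

theorem FF_zero (f : Finset ι → ZMod 3) {u w : ι} (huw : u ≠ w) : FF f {u, w} = f ∅ := by
  unfold FF
  rw [card_pair huw]
  simp

theorem FF_one (f : Finset ι → ZMod 3) {Q : Finset ι} (hQ : Q.card = 3) :
    FF f Q = ∑ x ∈ Q, f {x} := by
  unfold FF
  rw [hQ, show 3 - 2 = 1 from rfl, powersetCard_one, sum_map]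
  rfl

theorem sum_pc2_insert (f : Finset ι → ZMod 3) {a : ι} {S : Finset ι} (ha : a ∉ S) :
    ∑ J ∈ (insert a S).powersetCard 2, f J =
      ∑ J ∈ S.powersetCard 2, f J + ∑ x ∈ S, f {a, x} := by
  rw [powersetCard_succ_insert ha, sum_union]
  · congr 1
    rw [sum_image, powersetCard_one, sum_map]
    · rfl
    · intro s hs t ht hst
      have hs' : a ∉ s := fun h => ha ((mem_powersetCard.1 hs).1 h)
      have ht' : a ∉ t := fun h => ha ((mem_powersetCard.1 ht).1 h)
      rw [← erase_insert hs', ← erase_insert ht', hst]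
  · rw [disjoint_left]
    intro s hs hs'
    obtain ⟨t, _, rfl⟩ := mem_image.1 hs'
    exact ha ((mem_powersetCard.1 hs).1 (mem_insert_self _ _))

theorem nodup_of_card {l : List ι} (h : l.toFinset.card = l.length) : l.Nodup := by
  rw [List.card_toFinset] at h
  have := (List.dedup_sublist l).eq_of_length h
  rw [← this]
  exact List.nodup_dedup l

/-- The explicit form of `FF` on four points. -/
def F4 (f : Finset ι → ZMod 3) (a b c d : ι) : ZMod 3 :=
  f {a, b} + f {a, c} + f {a, d} + f {b, c} + f {b, d} + f {c, d}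

theorem FF_four (f : Finset ι → ZMod 3) {a b c d : ι} (h : ({a, b, c, d} : Finset ι).card = 4) :
    FF f {a, b, c, d} = F4 f a b c d := by
  have hd : [a, b, c, d].Nodup := by
    apply nodup_of_card
    simpa using h
  have hcd : c ≠ d := by
    intro e
    simp [e] at hd
  have hb : b ∉ ({c, d} : Finset ι) := by
    intro e
    simp only [mem_insert, mem_singleton] at e
    rcases e with rfl | rfl <;> simp at hd
  have ha : a ∉ ({b, c, d} : Finset ι) := by
    intro e
    simp only [mem_insert, mem_singleton] at e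
    rcases e with rfl | rfl | rfl <;> simp at hd
  unfold FF F4
  rw [h, show 4 - 2 = 2 from rfl, sum_pc2_insert f ha, sum_pc2_insert f hb,
    sum_insert hb, sum_pair hcd, sum_pair hcd]
  have : ({c, d} : Finset ι).powersetCard 2 = {{c, d}} := by
    have := powersetCard_self ({c, d} : Finset ι)
    rwa [card_pair hcd] at this
  rw [this, sum_singleton]
  ring

end Pool.Agent.LibE457g
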