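import Pool.Agent.Lib_MP_e457e7_g3.Loc0

/-!
Local part: monochromatic and rainbow triples; two classes of type one on six points;
the peeling lemma on seven points; classification of the bad configurations on seven points.
-/

set_option autoImplicit false
set_option linter.unusedSectionVars false

namespace Pool.Agent.LibE457g

open Finset

variable {ι : Type*} [DecidableEq ι]

/-- All sums over triples with two fixed points vanish. -/
def PairSum (U : Finset ι) (G : Finset ι → ZMod 3) : Prop :=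
  ∀ s ∈ U, ∀ t ∈ U, s ≠ t → ∑ x ∈ (U.erase s).erase t, G {s, t, x} = 0

/-- `G` is supported on triples with `ψ`-sum zero. -/
def Zero3 (U : Finset ι) (G : Finset ι → ZMod 3) (ψ : ι → ZMod 3) : Prop :=
  ∀ x ∈ U, ∀ y ∈ U, ∀ z ∈ U, x ≠ y → x ≠ z → y ≠ z → G {x, y, z} ≠ 0 → ψ x + ψ y + ψ z = 0

theorem aux_mono : ∀ a b : ZMod 3, a + a + b = 0 → b = a := by decide
theorem aux_third : ∀ a b c d : ZMod 3, a + b + c = 0 → a + b + d = 0 → c = d := by decide

variable {U : Finset ι} {G : Finset ι → ZMod 3} {ψ : ι → ZMod 3}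

theorem next_point (hP : PairSum U G) (hZ : Zero3 U G ψ) {x y z : ι} (hx : x ∈ U) (hy : y ∈ U)
    (hz : z ∈ U) (hxy : x ≠ y) (hxz : x ≠ z) (hyz : y ≠ z) (h : G {x, y, z} ≠ 0) :
    ∃ w ∈ U, w ≠ x ∧ w ≠ y ∧ w ≠ z ∧ ψ w = ψ z ∧ G {x, y, w} ≠ 0 := by
  obtain ⟨w, hw, hwz, hw0⟩ := exists_other (hP x hx y hy hxy) (i0 := z)
    (mem_erase.2 ⟨hyz.symm, mem_erase.2 ⟨hxz.symm, hz⟩⟩) h
  obtain ⟨hwy, hw⟩ := mem_erase.1 hw
  obtain ⟨hwx, hw⟩ := mem_erase.1 hw
  exact ⟨w, hw, hwx, hwy, hwz, aux_third _ _ _ _ (hZ x hx y hy w hw hxy hwx.symm hwy.symm hw0)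
    (hZ x hx y hy z hz hxy hxz hyz h), hw0⟩

theorem pair_two (hP : PairSum U G) (hZ : Zero3 U G ψ) {s t u v : ι}
    (hA : U.filter (fun r => ψ r = ψ s) = {s, t, u, v})
    (hst : s ≠ t) (hsu : s ≠ u) (hsv : s ≠ v) (htu : t ≠ u) (htv : t ≠ v) (huv : u ≠ v) :
    G {s, t, u} + G {s, t, v} = 0 := by
  have hm : ∀ r, r ∈ ({s, t, u, v} : Finset ι) → r ∈ U ∧ ψ r = ψ s := by
    intro r hr
    rw [← hA] at hr
    exact mem_filter.1 hr
  have hs := hm s (by simp)
  have ht := hm t (by simp)
  have hu := hm u (by simp)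
  have hv := hm v (by simp)
  rw [← hP s hs.1 t ht.1 hst, ← sum_pair (f := fun x => G {s, t, x}) huv]
  apply sum_subset
  · intro r hr
    simp only [mem_insert, mem_singleton] at hr
    rcases hr with rfl | rfl
    · exact mem_erase.2 ⟨htu.symm, mem_erase.2 ⟨hsu.symm, hu.1⟩⟩
    · exact mem_erase.2 ⟨htv.symm, mem_erase.2 ⟨hsv.symm, hv.1⟩⟩
  · intro r hr hr'
    obtain ⟨hrt, hr⟩ := mem_erase.1 hr
    obtain ⟨hrs, hr⟩ := mem_erase.1 hr
    by_contra h0
    have h1 := hZ s hs.1 t ht.1 r hr hst hrs.symm hrt.symm h0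
    rw [ht.2] at h1
    have h2 := aux_mono _ _ h1
    have h3 : r ∈ ({s, t, u, v} : Finset ι) := by
      rw [← hA]
      exact mem_filter.2 ⟨hr, h2⟩
    simp only [mem_insert, mem_singleton] at h3 hr'
    tauto

theorem mono_five (hP : PairSum U G) (hZ : Zero3 U G ψ) {x y z : ι} (hx : x ∈ U) (hy : y ∈ U)
    (hz : z ∈ U) (hxy : x ≠ y) (hxz : x ≠ z) (hyz : y ≠ z) (h : G {x, y, z} ≠ 0)
    (hψ : ψ y = ψ x) : 5 ≤ (U.filter (fun r => ψ r = ψ x)).card := by
  have h1 := hZ x hx y hy z hz hxy hxz hyz h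
  rw [hψ] at h1
  have h2 := aux_mono _ _ h1
  obtain ⟨w, hw, hwx, hwy, hwz, hw1, _⟩ := next_point hP hZ hx hy hz hxy hxz hyz h
  by_contra hcon
  have hsub : ({x, y, z, w} : Finset ι) ⊆ U.filter (fun r => ψ r = ψ x) := by
    intro r hr
    simp only [mem_insert, mem_singleton] at hr
    rcases hr with rfl | rfl | rfl | rfl
    · exact mem_filter.2 ⟨hx, rfl⟩
    · exact mem_filter.2 ⟨hy, hψ⟩
    · exact mem_filter.2 ⟨hz, h2⟩
    · exact mem_filter.2 ⟨hw, hw1.trans h2⟩
  have hc4 : ({x, y, z, w} : Finset ι).card = 4 := by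
    rw [card_insert_of_notMem, card_insert_of_notMem, card_insert_of_notMem, card_singleton]
    · simpa using hwz.symm
    · simp [hyz, hwy.symm]
    · simp [hxy, hxz, hwx.symm]
  have hA : U.filter (fun r => ψ r = ψ x) = {x, y, z, w} :=
    (eq_of_subset_of_card_le hsub (by omega)).symm
  have hA2 : U.filter (fun r => ψ r = ψ x) = {x, z, y, w} := by
    rw [hA]; ext r; simp only [mem_insert, mem_singleton]; tauto
  have hA3 : U.filter (fun r => ψ r = ψ x) = {x, w, y, z} := by
    rw [hA]; ext r; simp only [mem_insert, mem_singleton]; tauto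
  have e1 := pair_two hP hZ hA hxy hxz hwx.symm hyz hwy.symm hwz.symm
  have e2 := pair_two hP hZ hA2 hxz hxy hwx.symm hyz.symm hwz.symm hwy.symm
  have e3 := pair_two hP hZ hA3 hwx.symm hxy hxz hwy hwz hyz
  have s1 : ({x, z, y} : Finset ι) = {x, y, z} := by
    ext r; simp only [mem_insert, mem_singleton]; tauto
  have s2 : ({x, w, y} : Finset ι) = {x, y, w} := by
    ext r; simp only [mem_insert, mem_singleton]; tauto
  have s3 : ({x, w, z} : Finset ι) = {x, z, w} := by
    ext r; simp only [mem_insert, mem_singleton]; tauto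
  rw [s1] at e2
  rw [s2, s3] at e3
  have : ∀ p q r : ZMod 3, p + q = 0 → p + r = 0 → q + r = 0 → p = 0 := by decide
  exact h (this _ _ _ e1 e2 e3)

/-- A rainbow triple in the support forces every color to occur twice. -/
theorem rainbow_two (hP : PairSum U G) (hZ : Zero3 U G ψ) {x y z : ι} (hx : x ∈ U) (hy : y ∈ U)
    (hz : z ∈ U) (hxy : x ≠ y) (hxz : x ≠ z) (hyz : y ≠ z) (h : G {x, y, z} ≠ 0)
    (hψ : ψ y ≠ ψ x) (c : ZMod 3) : 2 ≤ (U.filter (fun r => ψ r = c)).card := by
  have key : ∀ x y z : ι, x ∈ U → y ∈ U → z ∈ U → x ≠ y → x ≠ z → y ≠ z → G {x, y, z} ≠ 0 →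
      2 ≤ (U.filter (fun r => ψ r = ψ z)).card := by
    intro x y z hx hy hz hxy hxz hyz h
    obtain ⟨w, hw, hwx, hwy, hwz, hw1, _⟩ := next_point hP hZ hx hy hz hxy hxz hyz h
    rw [← card_pair hwz]
    apply card_le_card
    intro r hr
    simp only [mem_insert, mem_singleton] at hr
    rcases hr with rfl | rfl
    · exact mem_filter.2 ⟨hw, hw1⟩
    · exact mem_filter.2 ⟨hz, rfl⟩
  have h1 := hZ x hx y hy z hz hxy hxz hyz h
  have hc : ∀ a b c d : ZMod 3, a + b + c = 0 → b ≠ a → d = a ∨ d = b ∨ d = c := by decide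
  have s2 : ({z, x, y} : Finset ι) = {x, y, z} := by
    ext r; simp only [mem_insert, mem_singleton]; tauto
  have s3 : ({y, z, x} : Finset ι) = {x, y, z} := by
    ext r; simp only [mem_insert, mem_singleton]; tauto
  rcases hc _ _ _ c h1 hψ with rfl | rfl | rfl
  · exact key y z x hy hz hx hyz hxy.symm hxz.symm (by rwa [s3])
  · exact key z x y hz hx hy hxz.symm hyz.symm hxy (by rwa [s2])
  · exact key x y z hx hy hz hxy hxz hyz h

/-- The complementary function of `FF f`. -/
theorem pairSum_compl (f : Finset ι → ZMod 3) (hU : 5 ≤ U.card) :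
    PairSum U (fun T => FF f (U \ T)) := by
  intro s hs t ht hst
  have h1 : ((U.erase s).erase t).card = U.card - 2 := by
    rw [card_erase_of_mem (mem_erase.2 ⟨hst.symm, ht⟩), card_erase_of_mem hs]
    omega
  rw [← sum_FF_erase f ((U.erase s).erase t) (by omega)]
  apply sum_congr rfl
  intro x _
  have hset : U \ {s, t, x} = ((U.erase s).erase t).erase x := by
    ext r
    simp only [mem_sdiff, mem_insert, mem_singleton, mem_erase]
    tauto
  show FF f (U \ {s, t, x}) = _
  rw [hset]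

/-- Bad configurations: no splitting of `U` into a set for `f` and a triple for `ψ`. -/
def Bad (f : Finset ι → ZMod 3) (ψ : ι → ZMod 3) (U : Finset ι) : Prop :=
  ∀ T ⊆ U, T.card = 3 → FF f (U \ T) ≠ 0 → ∑ x ∈ T, ψ x = 0

theorem Bad.zero3 {f : Finset ι → ZMod 3} (h : Bad f ψ U) :
    Zero3 U (fun T => FF f (U \ T)) ψ := by
  intro x hx y hy z hz hxy hxz hyz h0
  have hc : ({x, y, z} : Finset ι).card = 3 := by
    rw [card_insert_of_notMem, card_insert_of_notMem, card_singleton]
    · simpa using hyz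
    · simp [hxy, hxz]
  have := h {x, y, z} (by
    intro r hr
    simp only [mem_insert, mem_singleton] at hr
    rcases hr with rfl | rfl | rfl <;> assumption) hc h0
  rw [sum_insert, sum_insert, sum_singleton] at this
  · rw [← this]; ring
  · simpa using hyz
  · simp [hxy, hxz]

/-- Two classes of type one on six points. -/
theorem two_ones (f : Finset ι → ZMod 3) {U : Finset ι} (hU : U.card = 6) {a a' b b' : ι}
    (ha : a ∈ U) (ha' : a' ∈ U) (hb : b ∈ U) (hb' : b' ∈ U) (haa : a ≠ a') (hab : a ≠ b)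
    (hab' : a ≠ b') (hab2 : a' ≠ b) (hab2' : a' ≠ b') (hbb : b ≠ b')
    (hf : f {a} ≠ f {a'}) (hψ : ψ b ≠ ψ b') : ¬ Bad f ψ U := by
  intro hbad
  have hP := pairSum_compl (U := U) f (by omega)
  have hZ := hbad.zero3
  -- for two points outside, one of the two triples is in the support
  have key : ∀ s ∈ U, ∀ t ∈ U, s ≠ t → a ≠ s → a ≠ t → a' ≠ s → a' ≠ t →
      FF f (U \ {s, t, a}) ≠ 0 ∨ FF f (U \ {s, t, a'}) ≠ 0 := by
    intro s hs t ht hst has hat has' hat'
    by_contra hcon
    push Not at hcon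
    have hR1 : U \ {s, t, a} = insert a' (U \ {s, t, a, a'}) := by
      ext r
      simp only [mem_sdiff, mem_insert, mem_singleton]
      constructor
      · rintro ⟨h1, h2⟩
        by_cases hr : r = a'
        · exact Or.inl hr
        · exact Or.inr ⟨h1, by tauto⟩
      · rintro (rfl | ⟨h1, h2⟩)
        · exact ⟨ha', by tauto⟩
        · exact ⟨h1, by tauto⟩
    have hR2 : U \ {s, t, a'} = insert a (U \ {s, t, a, a'}) := by
      ext r
      simp only [mem_sdiff, mem_insert, mem_singleton]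
      constructor
      · rintro ⟨h1, h2⟩
        by_cases hr : r = a
        · exact Or.inl hr
        · exact Or.inr ⟨h1, by tauto⟩
      · rintro (rfl | ⟨h1, h2⟩)
        · exact ⟨ha, by tauto⟩
        · exact ⟨h1, by tauto⟩
    have hc4 : ({s, t, a, a'} : Finset ι).card = 4 := by
      rw [card_insert_of_notMem, card_insert_of_notMem, card_insert_of_notMem, card_singleton]
      · simpa using haa
      · simp [hat.symm, hat'.symm]
      · simp [hst, has.symm, has'.symm]
    have hsub : ({s, t, a, a'} : Finset ι) ⊆ U := by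
      intro r hr
      simp only [mem_insert, mem_singleton] at hr
      rcases hr with rfl | rfl | rfl | rfl <;> assumption
    have hc : (U \ {s, t, a, a'}).card = 2 := by
      rw [card_sdiff_of_subset hsub, hU, hc4]
    have hn1 : a' ∉ U \ {s, t, a, a'} := by simp
    have hn2 : a ∉ U \ {s, t, a, a'} := by simp
    have e1 := hcon.1
    have e2 := hcon.2
    rw [hR1, FF_one f (by rw [card_insert_of_notMem hn1, hc]), sum_insert hn1] at e1
    rw [hR2, FF_one f (by rw [card_insert_of_notMem hn2, hc]), sum_insert hn2] at e2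
    apply hf
    have := e2.trans e1.symm
    exact add_right_cancel this
  -- no class with five points and every class with at least two
  have hex : ∃ z, (z = a ∨ z = a') ∧ FF f (U \ {b, b', z}) ≠ 0 := by
    rcases key b hb b' hb' hbb hab hab' hab2 hab2' with h | h
    · exact ⟨a, Or.inl rfl, h⟩
    · exact ⟨a', Or.inr rfl, h⟩
  obtain ⟨z, hz, hz0⟩ := hex
  have hzU : z ∈ U := by rcases hz with rfl | rfl <;> assumption
  have hzb : b ≠ z := by
    rcases hz with rfl | rfl
    · exact hab.symm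
    · exact hab2.symm
  have hzb' : b' ≠ z := by
    rcases hz with rfl | rfl
    · exact hab'.symm
    · exact hab2'.symm
  have htwo := rainbow_two hP hZ hb hb' hzU hbb hzb hzb' hz0 hψ.symm
  -- sum of the class sizes
  have hsum : ∑ c : ZMod 3, (U.filter (fun r => ψ r = c)).card = 6 := by
    rw [← hU]
    exact (card_eq_sum_card_fiberwise (fun x _ => mem_coe.2 (mem_univ (ψ x)))).symm
  have hfive : ∀ c : ZMod 3, (U.filter (fun r => ψ r = c)).card < 5 := by
    intro c
    have h3 : ∑ c' ∈ (univ : Finset (ZMod 3)).erase c, 2 ≤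
        ∑ c' ∈ (univ : Finset (ZMod 3)).erase c, (U.filter (fun r => ψ r = c')).card :=
      sum_le_sum (fun c' _ => htwo c')
    have h4 := add_sum_erase (univ : Finset (ZMod 3))
      (fun c' => (U.filter (fun r => ψ r = c')).card) (mem_univ c)
    rw [hsum] at h4
    have h5 : ((univ : Finset (ZMod 3)).erase c).card = 2 := by
      rw [card_erase_of_mem (mem_univ c)]
      rfl
    rw [sum_const, h5] at h3
    simp only [smul_eq_mul] at h3
    omega
  -- two points of the same color outside of the pair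
  have hpig : ∃ s ∈ (U.erase a).erase a', ∃ t ∈ (U.erase a).erase a', s ≠ t ∧ ψ s = ψ t := by
    apply exists_ne_map_eq_of_card_lt_of_maps_to (t := (univ : Finset (ZMod 3)))
    · have h1 : ((U.erase a).erase a').card = 4 := by
        rw [card_erase_of_mem (mem_erase.2 ⟨haa.symm, ha'⟩), card_erase_of_mem ha, hU]
      rw [h1]
      decide
    · intro x _
      exact mem_coe.2 (mem_univ _)
  obtain ⟨s, hs, t, ht, hst, hψst⟩ := hpig
  simp only [mem_erase] at hs ht
  rcases key s hs.2.2 t ht.2.2 hst hs.2.1.symm ht.2.1.symm hs.1.symm ht.1.symm with h | h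
  · have := mono_five hP hZ hs.2.2 ht.2.2 ha hst hs.2.1 ht.2.1 h hψst.symm
    have := hfive (ψ s)
    omega
  · have := mono_five hP hZ hs.2.2 ht.2.2 ha' hst hs.1 ht.1 h hψst.symm
    have := hfive (ψ s)
    omega

end Pool.Agent.LibE457g
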