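import Pool.Agent.Lib_MP_e457e7_g3.Loc1

/-!
Local part: the peeling lemma on seven points and the classification of the bad
configurations on seven points.
-/

set_option autoImplicit false
set_option linter.unusedSectionVars false

namespace Pool.Agent.LibE457g

open Finset

variable {ι : Type*} [DecidableEq ι]

/-- Mixed second difference. -/
def D2 (f : Finset ι → ZMod 3) (a a' b b' : ι) : ZMod 3 :=
  f {a, b} - f {a', b} - f {a, b'} + f {a', b'}

variable {U : Finset ι} {G : Finset ι → ZMod 3} {ψ : ι → ZMod 3}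

theorem set4_compl {U R : Finset ι} {x x' y y' w : ι} (hx' : x' ∈ U) (hy' : y' ∈ U)
    (hxx : x ≠ x') (hyx : y ≠ x') (hwx : w ≠ x') (hxy : x ≠ y') (hyy : y ≠ y') (hwy : w ≠ y')
    (hR : U \ {x, x', y, y', w} = R) : U \ {x, y, w} = insert x' (insert y' R) := by
  rw [← hR]
  ext r
  simp only [mem_sdiff, mem_insert, mem_singleton]
  constructor
  · rintro ⟨h1, h2⟩
    by_cases hr : r = x'
    · exact Or.inl hr
    · by_cases hr' : r = y'
      · exact Or.inr (Or.inl hr')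
      · exact Or.inr (Or.inr ⟨h1, by tauto⟩)
  · rintro (rfl | rfl | ⟨h1, h2⟩)
    · exact ⟨hx', by tauto⟩
    · exact ⟨hy', by tauto⟩
    · exact ⟨h1, by tauto⟩

theorem card_five {a a' b b' w : ι} (haa : a ≠ a') (hab : a ≠ b) (hab' : a ≠ b')
    (hab2 : a' ≠ b) (hab2' : a' ≠ b') (hbb : b ≠ b')
    (hwa : w ≠ a) (hwa' : w ≠ a') (hwb : w ≠ b) (hwb' : w ≠ b') :
    ({a, a', b, b', w} : Finset ι).card = 5 := by
  rw [card_insert_of_notMem, card_insert_of_notMem, card_insert_of_notMem,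
    card_insert_of_notMem, card_singleton]
  · simpa using hwb'.symm
  · simp [hbb, hwb.symm]
  · simp [hab2, hab2', hwa'.symm]
  · simp [haa, hab, hab', hwa.symm]

theorem d2_compl (f : Finset ι → ZMod 3) (hU : U.card = 7) {a a' b b' w : ι}
    (ha : a ∈ U) (ha' : a' ∈ U) (hb : b ∈ U) (hb' : b' ∈ U) (hw : w ∈ U)
    (haa : a ≠ a') (hab : a ≠ b) (hab' : a ≠ b') (hab2 : a' ≠ b) (hab2' : a' ≠ b')
    (hbb : b ≠ b') (hwa : w ≠ a) (hwa' : w ≠ a') (hwb : w ≠ b) (hwb' : w ≠ b') :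
    FF f (U \ {a', b', w}) - FF f (U \ {a, b', w}) - FF f (U \ {a', b, w}) +
      FF f (U \ {a, b, w}) = D2 f a a' b b' := by
  have hc5 := card_five haa hab hab' hab2 hab2' hbb hwa hwa' hwb hwb'
  have hsub : ({a, a', b, b', w} : Finset ι) ⊆ U := by
    intro r hr
    simp only [mem_insert, mem_singleton] at hr
    rcases hr with rfl | rfl | rfl | rfl | rfl <;> assumption
  have hc : (U \ {a, a', b, b', w}).card = 2 := by
    rw [card_sdiff_of_subset hsub, hU, hc5]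
  obtain ⟨p, q, hpq, hR⟩ := card_eq_two.1 hc
  have hp : p ∈ U \ {a, a', b, b', w} := by rw [hR]; simp
  have hq : q ∈ U \ {a, a', b, b', w} := by rw [hR]; simp
  simp only [mem_sdiff, mem_insert, mem_singleton, not_or] at hp hq
  obtain ⟨-, hpa, hpa', hpb, hpb', hpw⟩ := hp
  obtain ⟨-, hqa, hqa', hqb, hqb', hqw⟩ := hq
  have c4 : ∀ x y : ι, x ≠ y → x ≠ p → x ≠ q → y ≠ p → y ≠ q →
      ({x, y, p, q} : Finset ι).card = 4 := by
    intro x y h1 h2 h3 h4 h5
    rw [card_insert_of_notMem, card_insert_of_notMem, card_insert_of_notMem, card_singleton]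
    · simpa using hpq
    · simp [h4, h5]
    · simp [h1, h2, h3]
  have t2 : ({a', a, b, b', w} : Finset ι) = {a, a', b, b', w} := Finset.insert_comm _ _ _
  have t3 : ({a, a', b', b, w} : Finset ι) = {a, a', b, b', w} := by
    rw [Finset.insert_comm b' b]
  have t4 : ({a', a, b', b, w} : Finset ι) = {a, a', b, b', w} := by
    rw [Finset.insert_comm b' b, Finset.insert_comm a' a]
  have r1 : U \ {a, b, w} = {a', b', p, q} :=
    set4_compl ha' hb' haa hab2.symm hwa' hab' hbb hwb' hR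
  have r2 : U \ {a', b, w} = {a, b', p, q} :=
    set4_compl ha hb' haa.symm hab.symm hwa hab2' hbb hwb' (by rw [t2]; exact hR)
  have r3 : U \ {a, b', w} = {a', b, p, q} :=
    set4_compl ha' hb haa hab2'.symm hwa' hab hbb.symm hwb (by rw [t3]; exact hR)
  have r4 : U \ {a', b', w} = {a, b, p, q} :=
    set4_compl ha hb haa.symm hab'.symm hwa hab2 hbb.symm hwb (by rw [t4]; exact hR)
  rw [r1, r2, r3, r4, FF_four f (c4 _ _ hab2' (Ne.symm hpa') (Ne.symm hqa') (Ne.symm hpb') (Ne.symm hqb')),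
    FF_four f (c4 _ _ hab' (Ne.symm hpa) (Ne.symm hqa) (Ne.symm hpb') (Ne.symm hqb')),
    FF_four f (c4 _ _ hab2 (Ne.symm hpa') (Ne.symm hqa') (Ne.symm hpb) (Ne.symm hqb)),
    FF_four f (c4 _ _ hab (Ne.symm hpa) (Ne.symm hqa) (Ne.symm hpb) (Ne.symm hqb))]
  unfold F4 D2
  ring

theorem support_of_D2 (f : Finset ι → ZMod 3) (hU : U.card = 7) {a a' b b' w : ι}
    (ha : a ∈ U) (ha' : a' ∈ U) (hb : b ∈ U) (hb' : b' ∈ U) (hw : w ∈ U)
    (haa : a ≠ a') (hab : a ≠ b) (hab' : a ≠ b') (hab2 : a' ≠ b) (hab2' : a' ≠ b')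
    (hbb : b ≠ b') (hwa : w ≠ a) (hwa' : w ≠ a') (hwb : w ≠ b) (hwb' : w ≠ b')
    (hD : D2 f a a' b b' ≠ 0) :
    ∃ x y, (x = a ∨ x = a') ∧ (y = b ∨ y = b') ∧ FF f (U \ {x, y, w}) ≠ 0 := by
  by_contra hcon
  push Not at hcon
  apply hD
  rw [← d2_compl f hU ha ha' hb hb' hw haa hab hab' hab2 hab2' hbb hwa hwa' hwb hwb',
    hcon a b (Or.inl rfl) (Or.inl rfl), hcon a' b (Or.inr rfl) (Or.inl rfl),
    hcon a b' (Or.inl rfl) (Or.inr rfl), hcon a' b' (Or.inr rfl) (Or.inr rfl)]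
  ring

theorem class_sum (ψ : ι → ZMod 3) (U : Finset ι) :
    ∑ c : ZMod 3, (U.filter (fun r => ψ r = c)).card = U.card :=
  (card_eq_sum_card_fiberwise (fun x _ => mem_coe.2 (mem_univ (ψ x)))).symm

theorem class_sum' (ψ : ι → ZMod 3) (U : Finset ι) (c : ZMod 3) :
    (U.filter (fun r => ψ r = c)).card + (U.filter (fun r => ψ r = c + 1)).card +
      (U.filter (fun r => ψ r = c + 2)).card = U.card := by
  rw [← class_sum ψ U]
  have h : (univ : Finset (ZMod 3)) = {c, c + 1, c + 2} := by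
    have : ∀ c : ZMod 3, (univ : Finset (ZMod 3)) = {c, c + 1, c + 2} := by decide
    exact this c
  have h1 : c ∉ ({c + 1, c + 2} : Finset (ZMod 3)) := by
    have : ∀ c : ZMod 3, c ∉ ({c + 1, c + 2} : Finset (ZMod 3)) := by decide
    exact this c
  have h2 : c + 1 ∉ ({c + 2} : Finset (ZMod 3)) := by
    have : ∀ c : ZMod 3, c + 1 ∉ ({c + 2} : Finset (ZMod 3)) := by decide
    exact this c
  rw [h, sum_insert h1, sum_insert h2, sum_singleton, add_assoc]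

/-- The basic alternative on seven points: there is a rainbow triple in the support. -/
theorem exists_rainbow (f : Finset ι → ZMod 3) (hU : U.card = 7) (hbad : Bad f ψ U)
    {a a' b b' c c' : ι}
    (ha : a ∈ U) (ha' : a' ∈ U) (hb : b ∈ U) (hb' : b' ∈ U) (hc : c ∈ U) (hc' : c' ∈ U)
    (haa : a ≠ a') (hab : a ≠ b) (hab' : a ≠ b') (hab2 : a' ≠ b) (hab2' : a' ≠ b')
    (hbb : b ≠ b') (hca : c ≠ a) (hca' : c ≠ a') (hcb : c ≠ b) (hcb' : c ≠ b')
    (hca2 : c' ≠ a) (hca2' : c' ≠ a') (hcb2 : c' ≠ b) (hcb2' : c' ≠ b')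
    (hD : D2 f a a' b b' ≠ 0) (hψ : ψ c ≠ ψ c') :
    ∃ x ∈ U, ∃ y ∈ U, ∃ z ∈ U, x ≠ y ∧ x ≠ z ∧ y ≠ z ∧ ψ y ≠ ψ x ∧
      FF f (U \ {x, y, z}) ≠ 0 := by
  have hP := pairSum_compl (U := U) f (by omega)
  have hZ := hbad.zero3
  have step : ∀ w ∈ U, w ≠ a → w ≠ a' → w ≠ b → w ≠ b' →
      (∃ x ∈ U, ∃ y ∈ U, ∃ z ∈ U, x ≠ y ∧ x ≠ z ∧ y ≠ z ∧ ψ y ≠ ψ x ∧
        FF f (U \ {x, y, z}) ≠ 0) ∨ 5 ≤ (U.filter (fun r => ψ r = ψ w)).card := by
    intro w hw hwa hwa' hwb hwb'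
    obtain ⟨x, y, hx, hy, h0⟩ := support_of_D2 f hU ha ha' hb hb' hw haa hab hab' hab2 hab2'
      hbb hwa hwa' hwb hwb' hD
    have hxU : x ∈ U := by rcases hx with rfl | rfl <;> assumption
    have hyU : y ∈ U := by rcases hy with rfl | rfl <;> assumption
    have hxy : x ≠ y := by
      rcases hx with rfl | rfl <;> rcases hy with rfl | rfl <;> assumption
    have hxw : x ≠ w := by
      rcases hx with rfl | rfl
      · exact hwa.symm
      · exact hwa'.symm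
    have hyw : y ≠ w := by
      rcases hy with rfl | rfl
      · exact hwb.symm
      · exact hwb'.symm
    by_cases hcol : ψ y = ψ x
    · right
      have h1 := mono_five hP hZ hxU hyU hw hxy hxw hyw h0 hcol
      have h2 := hZ x hxU y hyU w hw hxy hxw hyw h0
      rw [hcol] at h2
      rwa [← aux_mono _ _ h2] at h1
    · left
      exact ⟨x, hxU, y, hyU, w, hw, hxy, hxw, hyw, hcol, h0⟩
  rcases step c hc hca hca' hcb hcb' with h | h
  · exact h
  rcases step c' hc' hca2 hca2' hcb2 hcb2' with h' | h'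
  · exact h'
  exfalso
  have h1 := class_sum ψ U
  rw [hU] at h1
  have h2 : (U.filter (fun r => ψ r = ψ c)).card + (U.filter (fun r => ψ r = ψ c')).card ≤
      ∑ d : ZMod 3, (U.filter (fun r => ψ r = d)).card := by
    rw [← sum_pair (f := fun d => (U.filter (fun r => ψ r = d)).card) hψ]
    exact sum_le_sum_of_subset (subset_univ _)
  omega

/-- Peeling lemma. -/
theorem peel (f : Finset ι → ZMod 3) (ψ : ι → ZMod 3) (hU : U.card = 7)
    {a a' b b' c c' : ι}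
    (ha : a ∈ U) (ha' : a' ∈ U) (hb : b ∈ U) (hb' : b' ∈ U) (hc : c ∈ U) (hc' : c' ∈ U)
    (haa : a ≠ a') (hab : a ≠ b) (hab' : a ≠ b') (hab2 : a' ≠ b) (hab2' : a' ≠ b')
    (hbb : b ≠ b') (hca : c ≠ a) (hca' : c ≠ a') (hcb : c ≠ b) (hcb' : c ≠ b')
    (hca2 : c' ≠ a) (hca2' : c' ≠ a') (hcb2 : c' ≠ b) (hcb2' : c' ≠ b')
    (hD : D2 f a a' b b' ≠ 0) (hψ : ψ c ≠ ψ c') :
    ∃ Q ⊆ U, Q.card = 4 ∧ FF f Q ≠ 0 ∧ ∃ x ∈ U \ Q, ∃ y ∈ U \ Q, ψ x ≠ ψ y := by
  by_contra hcon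
  push Not at hcon
  have hconst : ∀ T ⊆ U, T.card = 3 → FF f (U \ T) ≠ 0 → ∀ x ∈ T, ∀ y ∈ T, ψ x = ψ y := by
    intro T hT hT3 hT0 x hx y hy
    have h1 : (U \ T).card = 4 := by rw [card_sdiff_of_subset hT, hU, hT3]
    have h2 : U \ (U \ T) = T := Finset.sdiff_sdiff_eq_self hT
    exact hcon (U \ T) sdiff_subset h1 hT0 x (by rwa [h2]) y (by rwa [h2])
  have hbad : Bad f ψ U := by
    intro T hT hT3 hT0
    obtain ⟨x, hx⟩ := card_pos.1 (by omega : 0 < T.card)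
    have h1 : ∑ y ∈ T, ψ y = ∑ _y ∈ T, ψ x := sum_congr rfl (fun y hy =>
      hconst T hT hT3 hT0 y hy x hx)
    rw [h1, sum_const, hT3, nsmul_eq_mul]
    have : ((3 : ℕ) : ZMod 3) = 0 := rfl
    rw [this, zero_mul]
  obtain ⟨x, hx, y, hy, z, hz, hxy, hxz, hyz, hcol, h0⟩ := exists_rainbow f hU hbad ha ha' hb
    hb' hc hc' haa hab hab' hab2 hab2' hbb hca hca' hcb hcb' hca2 hca2' hcb2 hcb2' hD hψ
  apply hcol
  refine hconst {x, y, z} ?_ ?_ h0 y (by simp) x (by simp)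
  · intro r hr
    simp only [mem_insert, mem_singleton] at hr
    rcases hr with rfl | rfl | rfl <;> assumption
  · rw [card_insert_of_notMem, card_insert_of_notMem, card_singleton]
    · simpa using hyz
    · simp [hxy, hxz]

theorem pair_rain (hP : PairSum U G) (hZ : Zero3 U G ψ) {s t u v : ι}
    (hA : U.filter (fun r => ψ r = ψ u) = {u, v}) (hs : s ∈ U) (ht : t ∈ U)
    (hst : s ≠ t) (hsu : s ≠ u) (hsv : s ≠ v) (htu : t ≠ u) (htv : t ≠ v) (huv : u ≠ v)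
    (h0 : ψ s + ψ t + ψ u = 0) :
    G {s, t, u} + G {s, t, v} = 0 := by
  have hm : ∀ r, r ∈ ({u, v} : Finset ι) → r ∈ U ∧ ψ r = ψ u := by
    intro r hr
    rw [← hA] at hr
    exact mem_filter.1 hr
  have hu := hm u (by simp)
  have hv := hm v (by simp)
  rw [← hP s hs t ht hst, ← sum_pair (f := fun x => G {s, t, x}) huv]
  apply sum_subset
  · intro r hr
    simp only [mem_insert, mem_singleton] at hr
    rcases hr with rfl | rfl
    · exact mem_erase.2 ⟨htu.symm, mem_erase.2 ⟨hsu.symm, hu.1⟩⟩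
    · exact mem_erase.2 ⟨htv.symm, mem_erase.2 ⟨hsv.symm, hv.1⟩⟩
  · intro r hr hr'
    obtain ⟨hrt, hr⟩ := mem_erase.1 hr
    obtain ⟨hrs, hr⟩ := mem_erase.1 hr
    by_contra h1
    have h2 := hZ s hs t ht r hr hst hrs.symm hrt.symm h1
    have h3 := aux_third _ _ _ _ h2 h0
    have h4 : r ∈ ({u, v} : Finset ι) := by
      rw [← hA]
      exact mem_filter.2 ⟨hr, h3⟩
    exact hr' h4

theorem set3a (x y z : ι) : ({x, z, y} : Finset ι) = {x, y, z} := by
  ext r; simp only [mem_insert, mem_singleton]; tauto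
theorem set3b (x y z : ι) : ({y, x, z} : Finset ι) = {x, y, z} := by
  ext r; simp only [mem_insert, mem_singleton]; tauto
theorem set3c (x y z : ι) : ({y, z, x} : Finset ι) = {x, y, z} := by
  ext r; simp only [mem_insert, mem_singleton]; tauto
theorem set3d (x y z : ι) : ({z, x, y} : Finset ι) = {x, y, z} := by
  ext r; simp only [mem_insert, mem_singleton]; tauto
theorem set3e (x y z : ι) : ({z, y, x} : Finset ι) = {x, y, z} := by
  ext r; simp only [mem_insert, mem_singleton]; tauto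

/-- Classification of the bad configurations. -/
theorem classify (f : Finset ι → ZMod 3) (hU : U.card = 7) (hbad : Bad f ψ U)
    {a a' b b' c c' : ι}
    (ha : a ∈ U) (ha' : a' ∈ U) (hb : b ∈ U) (hb' : b' ∈ U) (hc : c ∈ U) (hc' : c' ∈ U)
    (haa : a ≠ a') (hab : a ≠ b) (hab' : a ≠ b') (hab2 : a' ≠ b) (hab2' : a' ≠ b')
    (hbb : b ≠ b') (hca : c ≠ a) (hca' : c ≠ a') (hcb : c ≠ b) (hcb' : c ≠ b')
    (hca2 : c' ≠ a) (hca2' : c' ≠ a') (hcb2 : c' ≠ b) (hcb2' : c' ≠ b')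
    (hD : D2 f a a' b b' ≠ 0) (hψ : ψ c ≠ ψ c') :
    ∃ (v : ZMod 3) (a1 a2 a3 p p' q q' : ι), U = {a1, a2, a3, p, p', q, q'} ∧
      ψ a1 = v ∧ ψ a2 = v ∧ ψ a3 = v ∧ ψ p = v + 1 ∧ ψ p' = v + 1 ∧ ψ q = v + 2 ∧
      ψ q' = v + 2 ∧ D2 f p p' q q' ≠ 0 := by
  have hP := pairSum_compl (U := U) f (by omega)
  have hZ := hbad.zero3
  obtain ⟨x, hx, y, hy, z, hz, hxy, hxz, hyz, hcol, h0⟩ := exists_rainbow f hU hbad ha ha' hb
    hb' hc hc' haa hab hab' hab2 hab2' hbb hca hca' hcb hcb' hca2 hca2' hcb2 hcb2' hD hψ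
  have htwo := rainbow_two hP hZ hx hy hz hxy hxz hyz h0 hcol
  have hxyz := hZ x hx y hy z hz hxy hxz hyz h0
  -- the class with three points
  have hv : ∃ v : ZMod 3, (U.filter (fun r => ψ r = v)).card = 3 ∧
      (U.filter (fun r => ψ r = v + 1)).card = 2 ∧
      (U.filter (fun r => ψ r = v + 2)).card = 2 := by
    have h1 := class_sum' ψ U 0
    rw [hU] at h1
    have h2 := htwo 0
    have h3 := htwo (0 + 1)
    have h4 := htwo (0 + 2)
    by_cases e0 : (U.filter (fun r => ψ r = 0)).card = 3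
    · exact ⟨0, e0, by omega, by omega⟩
    by_cases e1 : (U.filter (fun r => ψ r = 0 + 1)).card = 3
    · refine ⟨0 + 1, e1, ?_, ?_⟩
      · have : (0 + 1 + 1 : ZMod 3) = 0 + 2 := by decide
        rw [this]; omega
      · have : (0 + 1 + 2 : ZMod 3) = 0 := by decide
        rw [this]; omega
    · refine ⟨0 + 2, by omega, ?_, ?_⟩
      · have : (0 + 2 + 1 : ZMod 3) = 0 := by decide
        rw [this]; omega
      · have : (0 + 2 + 2 : ZMod 3) = 0 + 1 := by decide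
        rw [this]; omega
  obtain ⟨v, hv0, hv1, hv2⟩ := hv
  obtain ⟨a1, a2, a3, h12, h13, h23, hA0⟩ := card_eq_three.1 hv0
  obtain ⟨p, p', hpp, hA1⟩ := card_eq_two.1 hv1
  obtain ⟨q, q', hqq, hA2⟩ := card_eq_two.1 hv2
  have m0 : ∀ r, r ∈ U ∧ ψ r = v ↔ r = a1 ∨ r = a2 ∨ r = a3 := by
    intro r
    have : r ∈ U.filter (fun r => ψ r = v) ↔ r ∈ ({a1, a2, a3} : Finset ι) := by rw [hA0]
    simpa using this
  have m1 : ∀ r, r ∈ U ∧ ψ r = v + 1 ↔ r = p ∨ r = p' := by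
    intro r
    have : r ∈ U.filter (fun r => ψ r = v + 1) ↔ r ∈ ({p, p'} : Finset ι) := by rw [hA1]
    simpa using this
  have m2 : ∀ r, r ∈ U ∧ ψ r = v + 2 ↔ r = q ∨ r = q' := by
    intro r
    have : r ∈ U.filter (fun r => ψ r = v + 2) ↔ r ∈ ({q, q'} : Finset ι) := by rw [hA2]
    simpa using this
  have e1 := (m0 a1).2 (by simp)
  have e2 := (m0 a2).2 (by simp)
  have e3 := (m0 a3).2 (by simp)
  have ep := (m1 p).2 (by simp)
  have ep' := (m1 p').2 (by simp)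
  have eq := (m2 q).2 (by simp)
  have eq' := (m2 q').2 (by simp)
  have d01 : ∀ v : ZMod 3, v ≠ v + 1 := by decide
  have d02 : ∀ v : ZMod 3, v ≠ v + 2 := by decide
  have d12 : ∀ v : ZMod 3, v + 1 ≠ v + 2 := by decide
  have hUset : U = {a1, a2, a3, p, p', q, q'} := by
    ext r
    simp only [mem_insert, mem_singleton]
    constructor
    · intro hr
      have hval : ∀ v w : ZMod 3, w = v ∨ w = v + 1 ∨ w = v + 2 := by decide
      rcases hval v (ψ r) with h | h | h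
      · have := (m0 r).1 ⟨hr, h⟩
        tauto
      · have := (m1 r).1 ⟨hr, h⟩
        tauto
      · have := (m2 r).1 ⟨hr, h⟩
        tauto
    · rintro (rfl | rfl | rfl | rfl | rfl | rfl | rfl)
      exacts [e1.1, e2.1, e3.1, ep.1, ep'.1, eq.1, eq'.1]
  refine ⟨v, a1, a2, a3, p, p', q, q', hUset, e1.2, e2.2, e3.2, ep.2, ep'.2, eq.2, eq'.2, ?_⟩
  intro hzero
  -- all rainbow values vanish
  have hpq : p ≠ q := fun h => d12 v (by rw [← ep.2, h, eq.2])
  have hpq' : p ≠ q' := fun h => d12 v (by rw [← ep.2, h, eq'.2])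
  have hp'q : p' ≠ q := fun h => d12 v (by rw [← ep'.2, h, eq.2])
  have hp'q' : p' ≠ q' := fun h => d12 v (by rw [← ep'.2, h, eq'.2])
  have hsum0 : ∀ v : ZMod 3, v + (v + 1) + (v + 2) = 0 := by decide
  have hsum0' : ∀ v : ZMod 3, v + (v + 2) + (v + 1) = 0 := by decide
  have hvan : ∀ s, s ∈ U → ψ s = v → FF f (U \ {s, p, q}) = 0 ∧ FF f (U \ {s, p, q'}) = 0 ∧
      FF f (U \ {s, p', q}) = 0 ∧ FF f (U \ {s, p', q'}) = 0 := by
    intro s hs hsv
    have hsp : s ≠ p := fun h => d01 v (hsv.symm.trans ((congrArg ψ h).trans ep.2))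
    have hsp' : s ≠ p' := fun h => d01 v (hsv.symm.trans ((congrArg ψ h).trans ep'.2))
    have hsq : s ≠ q := fun h => d02 v (hsv.symm.trans ((congrArg ψ h).trans eq.2))
    have hsq' : s ≠ q' := fun h => d02 v (hsv.symm.trans ((congrArg ψ h).trans eq'.2))
    have r1 := pair_rain hP hZ (s := s) (t := p) (u := q) (v := q') (by rw [eq.2, hA2])
      hs ep.1 hsp hsq hsq' hpq hpq' hqq (by rw [hsv, ep.2, eq.2]; exact hsum0 v)
    have r2 := pair_rain hP hZ (s := s) (t := p') (u := q) (v := q') (by rw [eq.2, hA2])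
      hs ep'.1 hsp' hsq hsq' hp'q hp'q' hqq (by rw [hsv, ep'.2, eq.2]; exact hsum0 v)
    have r3 := pair_rain hP hZ (s := s) (t := q) (u := p) (v := p') (by rw [ep.2, hA1])
      hs eq.1 hsq hsp hsp' hpq.symm hp'q.symm hpp (by rw [hsv, eq.2, ep.2]; exact hsum0' v)
    have r4 := d2_compl f hU ep.1 ep'.1 eq.1 eq'.1 hs hpp hpq hpq' hp'q hp'q' hqq hsp hsp'
      hsq hsq'
    rw [hzero] at r4
    simp only [set3a s p q, set3a s p' q, set3c s p' q', set3c s p q', set3c s p' q,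
      set3c s p q] at r1 r2 r3 r4
    revert r1 r2 r3 r4
    generalize FF f (U \ {s, p, q}) = A
    generalize FF f (U \ {s, p, q'}) = B
    generalize FF f (U \ {s, p', q}) = C
    generalize FF f (U \ {s, p', q'}) = D
    revert A B C D
    decide
  have hmain : ∀ s t u, s ∈ U → t ∈ U → u ∈ U → ψ s = v → ψ t = v + 1 → ψ u = v + 2 →
      FF f (U \ {s, t, u}) = 0 := by
    intro s t u hs ht hu h1 h2 h3
    obtain ⟨g1, g2, g3, g4⟩ := hvan s hs h1
    rcases (m1 t).1 ⟨ht, h2⟩ with rfl | rfl <;> rcases (m2 u).1 ⟨hu, h3⟩ with rfl | rfl <;>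
      assumption
  have hperm : ∀ α β γ v : ZMod 3, α + β + γ = 0 → β ≠ α →
      (α = v ∧ β = v + 1 ∧ γ = v + 2) ∨ (α = v ∧ γ = v + 1 ∧ β = v + 2) ∨
      (β = v ∧ α = v + 1 ∧ γ = v + 2) ∨ (β = v ∧ γ = v + 1 ∧ α = v + 2) ∨
      (γ = v ∧ α = v + 1 ∧ β = v + 2) ∨ (γ = v ∧ β = v + 1 ∧ α = v + 2) := by decide
  rcases hperm _ _ _ v hxyz hcol with ⟨g1, g2, g3⟩ | ⟨g1, g2, g3⟩ | ⟨g1, g2, g3⟩ |
    ⟨g1, g2, g3⟩ | ⟨g1, g2, g3⟩ | ⟨g1, g2, g3⟩
  · exact h0 (hmain x y z hx hy hz g1 g2 g3)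
  · exact h0 (by rw [← set3a x y z]; exact hmain x z y hx hz hy g1 g2 g3)
  · exact h0 (by rw [← set3b x y z]; exact hmain y x z hy hx hz g1 g2 g3)
  · exact h0 (by rw [← set3c x y z]; exact hmain y z x hy hz hx g1 g2 g3)
  · exact h0 (by rw [← set3d x y z]; exact hmain z x y hz hx hy g1 g2 g3)
  · exact h0 (by rw [← set3e x y z]; exact hmain z y x hz hy hx g1 g2 g3)

end Pool.Agent.LibE457g
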