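import Pool.Agent.Lib_MP_e457e7_g3.Loc2

/-!
Local part: the end `(2,2,1)` on eleven points.
-/

set_option autoImplicit false
set_option linter.unusedSectionVars false

namespace Pool.Agent.LibE457g

open Finset

variable {ι : Type*} [DecidableEq ι]
variable {f : Finset ι → ZMod 3} {ψ : ι → ZMod 3} {U : Finset ι}

theorem Bad.use (hbad : Bad f ψ U) (hU : U.card = 7) {a b c d x y z : ι}
    (hset : U = {a, b, c, d, x, y, z}) : F4 f a b c d = 0 ∨ ψ x + ψ y + ψ z = 0 := by
  have hnd : [a, b, c, d, x, y, z].Nodup := by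
    apply nodup_of_card
    have : [a, b, c, d, x, y, z].toFinset = U := by rw [hset]; simp
    rw [this, hU]; rfl
  have h4 : [a, b, c, d].Nodup := (List.nodup_append.1
    (show ([a, b, c, d] ++ [x, y, z]).Nodup from hnd)).1
  have h3 : [x, y, z].Nodup := (List.nodup_append.1
    (show ([a, b, c, d] ++ [x, y, z]).Nodup from hnd)).2.1
  have hdis : ∀ u ∈ [a, b, c, d], ∀ v ∈ [x, y, z], u ≠ v := (List.nodup_append.1
    (show ([a, b, c, d] ++ [x, y, z]).Nodup from hnd)).2.2
  have c4 : ({a, b, c, d} : Finset ι).card = 4 := by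
    have := List.toFinset_card_of_nodup h4
    simpa using this
  have c3 : ({x, y, z} : Finset ι).card = 3 := by
    have := List.toFinset_card_of_nodup h3
    simpa using this
  have hsd : U \ {x, y, z} = {a, b, c, d} := by
    ext r
    rw [hset]
    simp only [mem_sdiff, mem_insert, mem_singleton]
    constructor
    · rintro ⟨h1, h2⟩
      rcases h1 with h | h | h | h | h
      · exact Or.inl h
      · exact Or.inr (Or.inl h)
      · exact Or.inr (Or.inr (Or.inl h))
      · exact Or.inr (Or.inr (Or.inr h))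
      · exact absurd h h2
    · intro h
      have hr : r ∈ [a, b, c, d] := by simpa using h
      refine ⟨?_, ?_⟩
      · rcases h with h | h | h | h
        · exact Or.inl h
        · exact Or.inr (Or.inl h)
        · exact Or.inr (Or.inr (Or.inl h))
        · exact Or.inr (Or.inr (Or.inr (Or.inl h)))
      · intro h2
        exact hdis r hr r (by simpa using h2) rfl
  by_contra hcon
  push Not at hcon
  have h1 := hbad {x, y, z} (by
    intro r hr
    rw [hset]
    simp only [mem_insert, mem_singleton] at hr ⊢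
    exact Or.inr (Or.inr (Or.inr (Or.inr hr)))) c3 (by
    rw [hsd, FF_four f c4]
    exact hcon.1)
  apply hcon.2
  rw [sum_insert, sum_insert, sum_singleton] at h1
  · rw [← h1]; ring
  · intro h
    rw [mem_singleton] at h
    simp [h] at h3
  · intro h
    rw [mem_insert, mem_singleton] at h
    rcases h with h | h <;> simp [h] at h3

/-- difference at `q, q'` -/
def dd (f : Finset ι → ZMod 3) (q q' x : ι) : ZMod 3 := f {x, q} - f {x, q'}

theorem F4_diff {a b c q q' : ι} (h1 : F4 f a b c q = 0) (h2 : F4 f a b c q' = 0) :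
    dd f q q' a + dd f q q' b + dd f q q' c = 0 := by
  unfold F4 at h1 h2
  unfold dd
  linear_combination h1 - h2

theorem F4_diff2 {a b p p' q q' : ι} (h1 : F4 f a b p q = 0) (h2 : F4 f a b p' q = 0)
    (h3 : F4 f a b p q' = 0) (h4 : F4 f a b p' q' = 0) : dd f q q' p = dd f q q' p' := by
  unfold F4 at h1 h2 h3 h4
  unfold dd
  linear_combination h1 - h2 - h3 + h4

theorem col1 : ∀ v0 v2 : ZMod 3, v0 ≠ v2 → v0 + v0 + v2 ≠ 0 := by decide
theorem col2 : ∀ v0 v1 v2 y : ZMod 3, v0 ≠ v1 → v0 ≠ v2 → v1 ≠ v2 → y ≠ v0 →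
    y + v1 + v2 ≠ 0 := by decide

/-- relations from the base configuration -/
theorem base_rel (hbad : Bad f ψ U) (hU : U.card = 7) {a1 a2 a3 p p' q q' : ι}
    (hset : U = {a1, a2, a3, p, p', q, q'}) {v0 v2 : ZMod 3} (h02 : v0 ≠ v2)
    (h2 : ψ a2 = v0) (h3 : ψ a3 = v0) (hq : ψ q = v2) (hq' : ψ q' = v2) :
    dd f q q' a1 + dd f q q' p + dd f q q' p' = 0 := by
  have e1 : U = {a1, p, p', q, a2, a3, q'} := by
    rw [hset]; ext r; simp only [mem_insert, mem_singleton]; exact iff_of_eq (by ac_rfl)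
  have e2 : U = {a1, p, p', q', a2, a3, q} := by
    rw [hset]; ext r; simp only [mem_insert, mem_singleton]; exact iff_of_eq (by ac_rfl)
  have r1 := (hbad.use hU e1).resolve_right (by rw [h2, h3, hq']; exact col1 _ _ h02)
  have r2 := (hbad.use hU e2).resolve_right (by rw [h2, h3, hq]; exact col1 _ _ h02)
  exact F4_diff r1 r2

/-- Step (i). -/
theorem step_one {y a2 a3 p p' q q' : ι} (hbad : Bad f ψ U) (hU : U.card = 7)
    (hset : U = {y, a2, a3, p, p', q, q'}) {v0 v1 v2 : ZMod 3} (h01 : v0 ≠ v1) (h02 : v0 ≠ v2)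
    (h12 : v1 ≠ v2) (hp : ψ p = v1) (hp' : ψ p' = v1) (hq : ψ q = v2) (hq' : ψ q' = v2)
    (hd : dd f q q' p ≠ dd f q q' p') : ψ y = v0 := by
  by_contra hy
  have hs : ψ y + v1 + v2 ≠ 0 := col2 _ _ _ _ h01 h02 h12 hy
  have e1 : U = {a2, a3, p, q, y, p', q'} := by
    rw [hset]; ext r; simp only [mem_insert, mem_singleton]; exact iff_of_eq (by ac_rfl)
  have e2 : U = {a2, a3, p', q, y, p, q'} := by
    rw [hset]; ext r; simp only [mem_insert, mem_singleton]; exact iff_of_eq (by ac_rfl)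
  have e3 : U = {a2, a3, p, q', y, p', q} := by
    rw [hset]; ext r; simp only [mem_insert, mem_singleton]; exact iff_of_eq (by ac_rfl)
  have e4 : U = {a2, a3, p', q', y, p, q} := by
    rw [hset]; ext r; simp only [mem_insert, mem_singleton]; exact iff_of_eq (by ac_rfl)
  have r1 := (hbad.use hU e1).resolve_right (by rw [hp', hq']; exact hs)
  have r2 := (hbad.use hU e2).resolve_right (by rw [hp, hq']; exact hs)
  have r3 := (hbad.use hU e3).resolve_right (by rw [hp', hq]; exact hs)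
  have r4 := (hbad.use hU e4).resolve_right (by rw [hp, hq]; exact hs)
  exact hd (F4_diff2 r1 r2 r3 r4)

/-- Step (ii). -/
theorem step_two {y a1 a2 a3 p p' q q' : ι} (hbad : Bad f ψ U) (hU : U.card = 7)
    (hset : U = {a1, a2, a3, y, p', q, q'}) {v0 v1 v2 : ZMod 3} (h01 : v0 ≠ v1) (h02 : v0 ≠ v2)
    (h12 : v1 ≠ v2) (ha1 : ψ a1 = v0) (ha3 : ψ a3 = v0) (hp' : ψ p' = v1)
    (hq : ψ q = v2) (hq' : ψ q' = v2) (hd : dd f q q' p ≠ dd f q q' p')
    (hr1 : dd f q q' a1 + dd f q q' p + dd f q q' p' = 0)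
    (hr2 : dd f q q' a2 + dd f q q' p + dd f q q' p' = 0) : ψ y = v1 := by
  have hcol : ∀ v0 v1 v2 y : ZMod 3, v0 ≠ v1 → v0 ≠ v2 → v1 ≠ v2 → y ≠ v1 →
      y = v0 ∨ y = v2 := by decide
  have hc3 : ∀ v0 v2 : ZMod 3, v0 ≠ v2 → v2 + v0 + v2 ≠ 0 := by decide
  have hc4 : ∀ v0 v2 : ZMod 3, v0 ≠ v2 → v0 + v0 + v2 ≠ 0 := by decide
  by_contra hy
  rcases hcol _ _ _ _ h01 h02 h12 hy with h | h
  · -- `ψ y = v0`
    have e1 : U = {a1, a2, p', q, a3, y, q'} := by
      rw [hset]; ext r; simp only [mem_insert, mem_singleton]; exact iff_of_eq (by ac_rfl)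
    have e2 : U = {a1, a2, p', q', a3, y, q} := by
      rw [hset]; ext r; simp only [mem_insert, mem_singleton]; exact iff_of_eq (by ac_rfl)
    have r1 := (hbad.use hU e1).resolve_right (by rw [ha3, h, hq']; exact hc4 _ _ h02)
    have r2 := (hbad.use hU e2).resolve_right (by rw [ha3, h, hq]; exact hc4 _ _ h02)
    have r3 := F4_diff r1 r2
    apply hd
    revert hr1 hr2 r3
    generalize dd f q q' a1 = A
    generalize dd f q q' a2 = B
    generalize dd f q q' p = C
    generalize dd f q q' p' = D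
    revert A B C D
    decide
  · -- `ψ y = v2`
    have e1 : U = {a2, a3, a1, q, y, p', q'} := by
      rw [hset]; ext r; simp only [mem_insert, mem_singleton]; exact iff_of_eq (by ac_rfl)
    have e2 : U = {a2, a3, p', q, y, a1, q'} := by
      rw [hset]; ext r; simp only [mem_insert, mem_singleton]; exact iff_of_eq (by ac_rfl)
    have e3 : U = {a2, a3, a1, q', y, p', q} := by
      rw [hset]; ext r; simp only [mem_insert, mem_singleton]; exact iff_of_eq (by ac_rfl)
    have e4 : U = {a2, a3, p', q', y, a1, q} := by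
      rw [hset]; ext r; simp only [mem_insert, mem_singleton]; exact iff_of_eq (by ac_rfl)
    have r1 := (hbad.use hU e1).resolve_right (by rw [h, hp', hq']; exact hc3 _ _ h12)
    have r2 := (hbad.use hU e2).resolve_right (by rw [h, ha1, hq']; exact hc3 _ _ h02)
    have r3 := (hbad.use hU e3).resolve_right (by rw [h, hp', hq]; exact hc3 _ _ h12)
    have r4 := (hbad.use hU e4).resolve_right (by rw [h, ha1, hq]; exact hc3 _ _ h02)
    have r5 := F4_diff2 r1 r2 r3 r4
    apply hd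
    revert hr1 r5
    generalize dd f q q' a1 = A
    generalize dd f q q' p = C
    generalize dd f q q' p' = D
    revert A C D
    decide

/-- Step (iii). -/
theorem step_three {U' U'' : Finset ι} {y a1 a2 a3 p p' q q' : ι}
    (hbad : Bad f ψ U') (hU : U'.card = 7) (hset : U' = {a1, a2, a3, y, p', q, q'})
    (hbad' : Bad f ψ U'') (hU' : U''.card = 7) (hset' : U'' = {a1, a2, a3, p, y, q, q'})
    {v0 v2 : ZMod 3} (h02 : v0 ≠ v2) (ha2 : ψ a2 = v0) (ha3 : ψ a3 = v0)
    (hq : ψ q = v2) (hq' : ψ q' = v2) : dd f q q' p = dd f q q' p' := by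
  have h1 := base_rel hbad hU hset h02 ha2 ha3 hq hq'
  have h2 := base_rel hbad' hU' hset' h02 ha2 ha3 hq hq'
  linear_combination h2 - h1

theorem base_swap {a1 a2 a3 p p' q q' : ι} :
    ({a1, a2, a3, p, p', q, q'} : Finset ι) = {a2, a1, a3, p, p', q, q'} := by
  ext r; simp only [mem_insert, mem_singleton]; exact iff_of_eq (by ac_rfl)

theorem base_swap2 {a1 a2 a3 p p' q q' : ι} :
    ({a1, a2, a3, p, p', q, q'} : Finset ι) = {a1, a2, a3, q, q', p, p'} := by
  ext r; simp only [mem_insert, mem_singleton]; exact iff_of_eq (by ac_rfl)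

/-- The case `(2,2,1)` on eleven points. -/
theorem end221 (f1 f2 : Finset ι → ZMod 3) (ψ : ι → ZMod 3) {N U1 : Finset ι}
    (hN : N.card = 11) (hU1N : U1 ⊆ N) (hU1 : U1.card = 7)
    {a a' b b' c c' : ι}
    (ha : a ∈ U1) (ha' : a' ∈ U1) (hb : b ∈ U1) (hb' : b' ∈ U1) (hc : c ∈ U1) (hc' : c' ∈ U1)
    (haa : a ≠ a') (hab : a ≠ b) (hab' : a ≠ b') (hab2 : a' ≠ b) (hab2' : a' ≠ b')
    (hbb : b ≠ b') (hca : c ≠ a) (hca' : c ≠ a') (hcb : c ≠ b) (hcb' : c ≠ b')
    (hca2 : c' ≠ a) (hca2' : c' ≠ a') (hcb2 : c' ≠ b) (hcb2' : c' ≠ b')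
    (hD1 : D2 f1 a a' b b' ≠ 0) (hψ : ψ c ≠ ψ c')
    {d d' e e' : ι} (hd : d ∈ N) (hd' : d' ∈ N) (he : e ∈ N) (he' : e' ∈ N)
    (hdU : d ∉ U1) (hdU' : d' ∉ U1) (heU : e ∉ U1) (heU' : e' ∉ U1)
    (hdd : d ≠ d') (hde : d ≠ e) (hde' : d ≠ e') (hde2 : d' ≠ e) (hde2' : d' ≠ e')
    (hee : e ≠ e') (hD2 : D2 f2 d d' e e' ≠ 0) :
    ∃ Q1 ⊆ N, ∃ Q2 ⊆ N, ∃ Q3 ⊆ N, Disjoint Q1 Q2 ∧ Disjoint Q1 Q3 ∧ Disjoint Q2 Q3 ∧
      Q1.card = 4 ∧ Q2.card = 4 ∧ Q3.card = 3 ∧ FF f1 Q1 ≠ 0 ∧ FF f2 Q2 ≠ 0 ∧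
      ∑ x ∈ Q3, ψ x ≠ 0 := by
  by_contra hcon
  have hbadN : ∀ Q ⊆ N, Q.card = 4 → FF f1 Q ≠ 0 → Bad f2 ψ (N \ Q) := by
    intro Q hQ hQ4 hQ0 T hT hT3 hT0
    by_contra hTψ
    apply hcon
    have h11 : (N \ Q).card = 7 := by rw [card_sdiff_of_subset hQ, hN, hQ4]
    refine ⟨Q, hQ, (N \ Q) \ T, sdiff_subset.trans sdiff_subset, T, hT.trans sdiff_subset,
      ?_, ?_, sdiff_disjoint, hQ4, ?_, hT3, hQ0, hT0, hTψ⟩
    · exact (disjoint_sdiff (s := Q) (t := N)).mono_right sdiff_subset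
    · exact (disjoint_sdiff (s := Q) (t := N)).mono_right hT
    · rw [card_sdiff_of_subset hT, h11, hT3]
  obtain ⟨Q0, hQ0U, hQ04, hQ00, x0, hx0, y0, hy0, hxy0⟩ := peel f1 ψ hU1 ha ha' hb hb' hc hc'
    haa hab hab' hab2 hab2' hbb hca hca' hcb hcb' hca2 hca2' hcb2 hcb2' hD1 hψ
  have hQ0N := hQ0U.trans hU1N
  have hbad0 := hbadN Q0 hQ0N hQ04 hQ00
  have hU0 : (N \ Q0).card = 7 := by rw [card_sdiff_of_subset hQ0N, hN, hQ04]
  obtain ⟨hx0U, hx0Q⟩ := mem_sdiff.1 hx0
  obtain ⟨hy0U, hy0Q⟩ := mem_sdiff.1 hy0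
  obtain ⟨v, a1, a2, a3, p, p', q, q', hset, e1, e2, e3, ep, ep', eq, eq', hDpq⟩ :=
    classify f2 hU0 hbad0 (a := d) (a' := d') (b := e) (b' := e') (c := x0) (c' := y0)
      (mem_sdiff.2 ⟨hd, fun h => hdU (hQ0U h)⟩) (mem_sdiff.2 ⟨hd', fun h => hdU' (hQ0U h)⟩)
      (mem_sdiff.2 ⟨he, fun h => heU (hQ0U h)⟩) (mem_sdiff.2 ⟨he', fun h => heU' (hQ0U h)⟩)
      (mem_sdiff.2 ⟨hU1N hx0U, hx0Q⟩) (mem_sdiff.2 ⟨hU1N hy0U, hy0Q⟩)
      hdd hde hde' hde2 hde2' hee (fun h => hdU (h ▸ hx0U)) (fun h => hdU' (h ▸ hx0U))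
      (fun h => heU (h ▸ hx0U)) (fun h => heU' (h ▸ hx0U)) (fun h => hdU (h ▸ hy0U))
      (fun h => hdU' (h ▸ hy0U)) (fun h => heU (h ▸ hy0U)) (fun h => heU' (h ▸ hy0U)) hD2 hxy0
  have v01 : v ≠ v + 1 := by
    have : ∀ v : ZMod 3, v ≠ v + 1 := by decide
    exact this v
  have v02 : v ≠ v + 2 := by
    have : ∀ v : ZMod 3, v ≠ v + 2 := by decide
    exact this v
  have v12 : v + 1 ≠ v + 2 := by
    have : ∀ v : ZMod 3, v + 1 ≠ v + 2 := by decide
    exact this v
  have hdq : dd f2 q q' p ≠ dd f2 q q' p' := by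
    intro h
    apply hDpq
    unfold dd at h
    unfold D2
    linear_combination h
  have hdp : dd f2 p p' q ≠ dd f2 p p' q' := by
    intro h
    apply hDpq
    unfold dd at h
    rw [pair_comm q p, pair_comm q p', pair_comm q' p, pair_comm q' p'] at h
    unfold D2
    linear_combination h
  -- exchange
  have hex : ∀ (x : ι) (l : Finset ι), N \ Q0 = insert x l → l.card ≤ 6 →
      ∃ y ∈ Q0, Bad f2 ψ (insert y l) ∧ (insert y l).card = 7 := by
    intro x l hl hl6
    have hxl : x ∉ l := by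
      intro h
      rw [hl, insert_eq_of_mem h] at hU0
      omega
    have hxN : x ∈ N \ Q0 := by rw [hl]; exact mem_insert_self _ _
    obtain ⟨hxN, hxQ⟩ := mem_sdiff.1 hxN
    obtain ⟨y, hy, hy0⟩ := FF_exchange f1 Q0 (by omega) hQ00 hxQ
    have hyx : y ≠ x := fun h => hxQ (h ▸ hy)
    have hsub : insert x (Q0.erase y) ⊆ N := by
      intro r hr
      rcases mem_insert.1 hr with rfl | hr
      · exact hxN
      · exact hQ0N (mem_of_mem_erase hr)
    have hcard : (insert x (Q0.erase y)).card = 4 := by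
      rw [card_insert_of_notMem (fun h => hxQ (mem_of_mem_erase h)), card_erase_of_mem hy, hQ04]
    have h1 := hbadN _ hsub hcard hy0
    have h2 : N \ insert x (Q0.erase y) = insert y l := by
      ext r
      have hr : r ∈ N \ Q0 ↔ r ∈ insert x l := by rw [hl]
      rw [mem_sdiff, mem_insert] at hr
      rw [mem_sdiff, mem_insert, mem_insert, mem_erase]
      constructor
      · rintro ⟨h3, h4⟩
        push Not at h4
        by_cases hry : r = y
        · exact Or.inl hry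
        · right
          exact (hr.1 ⟨h3, h4.2 hry⟩).resolve_left h4.1
      · rintro (rfl | h3)
        · exact ⟨hQ0N hy, by push Not; exact ⟨hyx, fun h => absurd rfl h⟩⟩
        · have h4 := hr.2 (Or.inr h3)
          refine ⟨h4.1, ?_⟩
          push Not
          exact ⟨fun h => hxl (h ▸ h3), fun _ => h4.2⟩
    rw [h2] at h1
    refine ⟨y, hy, h1, ?_⟩
    rw [← h2, card_sdiff_of_subset hsub, hN, hcard]
  -- relations
  have hb1 := base_rel hbad0 hU0 hset v02 e2 e3 eq eq'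
  have hb2 := base_rel hbad0 hU0 (hset.trans base_swap) v02 e1 e3 eq eq'
  have hc1 := base_rel hbad0 hU0 (hset.trans base_swap2) v01 e2 e3 ep ep'
  have hc2 := base_rel hbad0 hU0 ((hset.trans base_swap2).trans base_swap) v01 e1 e3 ep ep'
  -- the five elements
  obtain ⟨y1, hy1, hB1, hk1⟩ := hex a1 {a2, a3, p, p', q, q'} hset card_le_six
  obtain ⟨yp, hyp, hBp, hkp⟩ := hex p {a1, a2, a3, p', q, q'} (by
    rw [hset]; ext r; simp only [mem_insert, mem_singleton]; exact iff_of_eq (by ac_rfl))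
    card_le_six
  obtain ⟨yp', hyp', hBp', hkp'⟩ := hex p' {a1, a2, a3, p, q, q'} (by
    rw [hset]; ext r; simp only [mem_insert, mem_singleton]; exact iff_of_eq (by ac_rfl))
    card_le_six
  obtain ⟨yq, hyq, hBq, hkq⟩ := hex q {a1, a2, a3, q', p, p'} (by
    rw [hset]; ext r; simp only [mem_insert, mem_singleton]; exact iff_of_eq (by ac_rfl))
    card_le_six
  obtain ⟨yq', hyq', hBq', hkq'⟩ := hex q' {a1, a2, a3, q, p, p'} (by
    rw [hset]; ext r; simp only [mem_insert, mem_singleton]; exact iff_of_eq (by ac_rfl))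
    card_le_six
  have c1 : ψ y1 = v := step_one hB1 hk1 rfl v01 v02 v12 ep ep' eq eq' hdq
  have sp : insert yp {a1, a2, a3, p', q, q'} = ({a1, a2, a3, yp, p', q, q'} : Finset ι) := by
    ext r; simp only [mem_insert, mem_singleton]; exact iff_of_eq (by ac_rfl)
  have sp' : insert yp' {a1, a2, a3, p, q, q'} = ({a1, a2, a3, yp', p, q, q'} : Finset ι) := by
    ext r; simp only [mem_insert, mem_singleton]; exact iff_of_eq (by ac_rfl)
  have sp2 : insert yp' {a1, a2, a3, p, q, q'} = ({a1, a2, a3, p, yp', q, q'} : Finset ι) := by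
    ext r; simp only [mem_insert, mem_singleton]; exact iff_of_eq (by ac_rfl)
  have sq : insert yq {a1, a2, a3, q', p, p'} = ({a1, a2, a3, yq, q', p, p'} : Finset ι) := by
    ext r; simp only [mem_insert, mem_singleton]; exact iff_of_eq (by ac_rfl)
  have sq' : insert yq' {a1, a2, a3, q, p, p'} = ({a1, a2, a3, yq', q, p, p'} : Finset ι) := by
    ext r; simp only [mem_insert, mem_singleton]; exact iff_of_eq (by ac_rfl)
  have sq2 : insert yq' {a1, a2, a3, q, p, p'} = ({a1, a2, a3, q, yq', p, p'} : Finset ι) := by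
    ext r; simp only [mem_insert, mem_singleton]; exact iff_of_eq (by ac_rfl)
  have c2 : ψ yp = v + 1 := step_two hBp hkp sp v01 v02 v12 e1 e3 ep' eq eq' hdq hb1 hb2
  have c3 : ψ yp' = v + 1 := step_two (p := p') hBp' hkp' sp' v01 v02 v12 e1 e3 ep eq eq'
    hdq.symm (by rw [← hb1]; ring) (by rw [← hb2]; ring)
  have c4 : ψ yq = v + 2 := step_two hBq hkq sq v02 v01 v12.symm e1 e3 eq' ep ep' hdp
    hc1 hc2
  have c5 : ψ yq' = v + 2 := step_two (p := q') hBq' hkq' sq' v02 v01 v12.symm e1 e3 eq ep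
    ep' hdp.symm (by rw [← hc1]; ring) (by rw [← hc2]; ring)
  have n1 : yp ≠ yp' := by
    intro h
    rw [← h] at hBp' hkp' sp2
    exact hdq (step_three hBp hkp sp hBp' hkp' sp2 v02 e2 e3 eq eq')
  have n2 : yq ≠ yq' := by
    intro h
    rw [← h] at hBq' hkq' sq2
    exact hdp (step_three hBq hkq sq hBq' hkq' sq2 v01 e2 e3 ep ep')
  have hsub5 : ({y1, yp, yp', yq, yq'} : Finset ι) ⊆ Q0 := by
    intro r hr
    simp only [mem_insert, mem_singleton] at hr
    rcases hr with rfl | rfl | rfl | rfl | rfl <;> assumption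
  have hc5 : ({y1, yp, yp', yq, yq'} : Finset ι).card = 5 := by
    apply card_five
    · exact fun h => v01 (c1.symm.trans ((congrArg ψ h).trans c2))
    · exact fun h => v01 (c1.symm.trans ((congrArg ψ h).trans c3))
    · exact fun h => v02 (c1.symm.trans ((congrArg ψ h).trans c4))
    · exact n1
    · exact fun h => v12 (c2.symm.trans ((congrArg ψ h).trans c4))
    · exact fun h => v12 (c3.symm.trans ((congrArg ψ h).trans c4))
    · exact fun h => v02 (c1.symm.trans ((congrArg ψ h.symm).trans c5))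
    · exact fun h => v12 (c2.symm.trans ((congrArg ψ h.symm).trans c5))
    · exact fun h => v12 (c3.symm.trans ((congrArg ψ h.symm).trans c5))
    · exact n2.symm
  have := card_le_card hsub5
  omega

end Pool.Agent.LibE457g
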