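import Mathlib

/-!
# Local lemma, core

`FF f Q` is the sum of `f` over the subsets of `Q` of size `#Q - 2`, `DD f μ O` is the alternating sum over the
transversals of the pairs `(o, μ o)`. Two facts: the sum of `FF f` over the `V.erase x` is zero (`FF_sz`), and
the difference of `FF f` over the pairs is `DD f` (`FF_one_diff`, `FF_two_diff`). With them: `no_rainbow` and
`lemX`.
-/

set_option autoImplicit false

namespace G3
open Finset

variable {ι : Type*} [DecidableEq ι]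

/-- the local form of the invariant of a class after the extension by the star `Q` -/
def FF (f : Finset ι → ZMod 3) (Q : Finset ι) : ZMod 3 := ∑ J ∈ Q.powersetCard (Q.card - 2), f J

/-- the local form of the invariant of a class of the split graph -/
def DD (f : Finset ι → ZMod 3) (μ : ι → ι) (O : Finset ι) : ZMod 3 :=
  ∑ A ∈ O.powerset, (-1) ^ A.card * f ((O \ A) ∪ A.image μ)

/-- sum-zero property -/
theorem FF_sz (f : Finset ι → ZMod 3) (V : Finset ι) (hV : 3 ≤ V.card) :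
    ∑ x ∈ V, FF f (V.erase x) = 0 := by
  obtain ⟨j, hj⟩ : ∃ j, V.card = j + 3 := ⟨V.card - 3, by omega⟩
  have h1 : ∀ x ∈ V, FF f (V.erase x) = ∑ J ∈ V.powersetCard j, if x ∉ J then f J else 0 := by
    intro x hx
    have hc : (V.erase x).card - 2 = j := by rw [card_erase_of_mem hx]; omega
    rw [FF, hc, ← Finset.sum_filter]
    refine Finset.sum_congr ?_ fun J hJ => rfl
    ext J
    simp only [mem_powersetCard, mem_filter, subset_erase]
    tauto
  rw [Finset.sum_congr rfl h1, Finset.sum_comm]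
  refine Finset.sum_eq_zero fun J hJ => ?_
  rw [mem_powersetCard] at hJ
  rw [← Finset.sum_filter, Finset.sum_const]
  have h3 : (V.filter fun x => x ∉ J) = V \ J := by
    ext x; simp
  rw [h3, card_sdiff_of_subset hJ.1, hJ.2, hj]
  have : j + 3 - j = 3 := by omega
  rw [this, nsmul_eq_mul]
  have h33 : ((3 : ℕ) : ZMod 3) = 0 := by decide
  rw [h33, zero_mul]

/-- sum-zero property for an exchange -/
theorem FF_sz' (f : Finset ι → ZMod 3) (Q : Finset ι) (p : ι) (hp : p ∉ Q) (hQ : 2 ≤ Q.card) :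
    FF f Q + ∑ q ∈ Q, FF f (insert p (Q.erase q)) = 0 := by
  have h := FF_sz f (insert p Q) (by rw [card_insert_of_notMem hp]; omega)
  rw [sum_insert hp, erase_insert hp] at h
  rw [← h]
  congr 1
  refine Finset.sum_congr rfl fun q hq => ?_
  rw [erase_insert_of_ne]
  rintro rfl
  exact hp hq

omit [DecidableEq ι] in
theorem FF_zero (f : Finset ι → ZMod 3) {R : Finset ι} (hR : R.card = 2) : FF f R = f ∅ := by
  rw [FF, hR]; simp

theorem FF_one (f : Finset ι → ZMod 3) {R : Finset ι} (hR : R.card = 2) {x : ι} (hx : x ∉ R) :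
    FF f (insert x R) = f {x} + ∑ r ∈ R, f {r} := by
  have h3 : (insert x R).card - 2 = 1 := by rw [card_insert_of_notMem hx]; omega
  rw [FF, h3, powersetCard_one, sum_map]
  rw [sum_insert hx]
  rfl

theorem FF_two (f : Finset ι → ZMod 3) {R : Finset ι} (hR : R.card = 2) {x y : ι} (hx : x ∉ R)
    (hy : y ∉ R) (hxy : x ≠ y) :
    FF f (insert x (insert y R)) = f {x, y} + ∑ r ∈ R, f {x, r} + ∑ r ∈ R, f {y, r} + f R := by
  have hx' : x ∉ insert y R := by simp [hxy, hx]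
  have h3 : (insert x (insert y R)).card - 2 = 2 := by
    rw [card_insert_of_notMem hx', card_insert_of_notMem hy]; omega
  have hin : ∀ (z : ι) (S : Finset ι), z ∉ S → Set.InjOn (insert z) (S.powersetCard 1 : Set (Finset ι)) := by
    intro z S hz A hA B hB hAB
    rw [mem_coe, mem_powersetCard] at hA hB
    have h1 : z ∉ A := fun h => hz (hA.1 h)
    have h2 : z ∉ B := fun h => hz (hB.1 h)
    rw [← erase_insert h1, hAB, erase_insert h2]
  have hdj : ∀ (z : ι) (S : Finset ι), z ∉ S →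
      Disjoint (S.powersetCard 2) ((S.powersetCard 1).image (insert z)) := by
    intro z S hz
    rw [disjoint_left]
    intro A hA hA'
    rw [mem_image] at hA'
    obtain ⟨B, _, rfl⟩ := hA'
    exact hz ((mem_powersetCard.1 hA).1 (mem_insert_self _ _))
  rw [FF, h3, powersetCard_succ_insert hx', sum_union, powersetCard_succ_insert hy, sum_union,
    powersetCard_one, powersetCard_one]
  · rw [sum_image, sum_image, sum_map, sum_map, sum_insert hy]
    · have : R.powersetCard 2 = {R} := by rw [← hR, powersetCard_self]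
      rw [this, sum_singleton]
      simp only [Function.Embedding.coeFn_mk]
      ring
    · rw [← powersetCard_one]
      exact hin x _ hx'
    · rw [← powersetCard_one]
      exact hin y R hy
  · exact hdj y R hy
  · exact hdj x _ hx'

theorem DD_zero (f : Finset ι → ZMod 3) (μ : ι → ι) : DD f μ ∅ = f ∅ := by
  simp [DD]

theorem DD_one (f : Finset ι → ZMod 3) (μ : ι → ι) (o : ι) : DD f μ {o} = f {o} - f {μ o} := by
  have h1 : ({o} : Finset ι) = insert o ∅ := rfl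
  rw [DD, h1, sum_powerset_insert (notMem_empty o)]
  simp
  ring

theorem DD_two (f : Finset ι → ZMod 3) (μ : ι → ι) {o p : ι} (h : o ≠ p) :
    DD f μ {o, p} = f {o, p} - f {o, μ p} - f {p, μ o} + f {μ o, μ p} := by
  have h1 : ({o, p} : Finset ι) = insert o (insert p ∅) := rfl
  have h2 : ({o, p} : Finset ι) \ {p} = {o} := by
    ext x; simp only [mem_sdiff, mem_insert, mem_singleton]
    constructor
    · rintro ⟨h1 | h1, h2⟩ <;> tauto
    · rintro rfl; exact ⟨Or.inl rfl, h⟩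
  have h3 : ({o, p} : Finset ι) \ {o} = {p} := by
    ext x; simp only [mem_sdiff, mem_insert, mem_singleton]
    constructor
    · rintro ⟨h1 | h1, h2⟩ <;> tauto
    · rintro rfl; exact ⟨Or.inr rfl, h.symm⟩
  have e1 : ({o, p} : Finset ι).powerset = {∅, {p}, {o}, {o, p}} := by
    rw [h1, powerset_insert, powerset_insert, powerset_empty]
    ext A
    simp only [image_singleton, mem_union, mem_singleton, mem_image, mem_insert, insert_empty_eq]
    constructor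
    · rintro ((h | h) | ⟨B, h | h, rfl⟩) <;> simp_all
    · rintro (h | h | h | h)
      · exact Or.inl (Or.inl h)
      · exact Or.inl (Or.inr h)
      · exact Or.inr ⟨∅, Or.inl rfl, h.symm⟩
      · exact Or.inr ⟨{p}, Or.inr rfl, h.symm⟩
  have n1 : (∅ : Finset ι) ∉ ({{p}, {o}, {o, p}} : Finset (Finset ι)) := by
    simp only [mem_insert, mem_singleton]
    rintro (h | h | h)
    · exact singleton_ne_empty _ h.symm
    · exact singleton_ne_empty _ h.symm
    · exact insert_ne_empty _ _ h.symm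
  have n2 : ({p} : Finset ι) ∉ ({{o}, {o, p}} : Finset (Finset ι)) := by
    simp only [mem_insert, mem_singleton]
    rintro (h' | h')
    · exact h (singleton_injective h').symm
    · have := mem_insert_self o {p}
      rw [← h', mem_singleton] at this
      exact h this
  have n3 : ({o} : Finset ι) ∉ ({{o, p}} : Finset (Finset ι)) := by
    simp only [mem_singleton]
    intro h'
    have : p ∈ ({o, p} : Finset ι) := by simp
    rw [← h', mem_singleton] at this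
    exact h this.symm
  rw [DD, e1, sum_insert n1, sum_insert n2, sum_insert n3, sum_singleton]
  simp only [card_empty, pow_zero, sdiff_empty, image_empty, union_empty, one_mul, card_singleton,
    pow_one, h2, h3, image_singleton, card_pair h, sdiff_self, image_insert]
  have h5 : ({o} ∪ {μ p} : Finset ι) = {o, μ p} := rfl
  have h6 : ({p} ∪ {μ o} : Finset ι) = {p, μ o} := rfl
  rw [h5, h6]
  simp only [bot_eq_empty, empty_union]
  ring

/-- second difference of `FF` -/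
theorem FF_diff2 (f : Finset ι → ZMod 3) {R : Finset ι} (hR : R.card = 2) {x x' y y' : ι}
    (hx : x ∉ R) (hx' : x' ∉ R) (hy : y ∉ R) (hy' : y' ∉ R) (h1 : x ≠ y) (h2 : x ≠ y')
    (h3 : x' ≠ y) (h4 : x' ≠ y') :
    FF f (insert x (insert y R)) - FF f (insert x (insert y' R)) - FF f (insert x' (insert y R)) +
      FF f (insert x' (insert y' R)) = f {x, y} - f {x, y'} - f {x', y} + f {x', y'} := by
  rw [FF_two f hR hx hy h1, FF_two f hR hx hy' h2, FF_two f hR hx' hy h3, FF_two f hR hx' hy' h4]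
  ring

/-- A class with at most two new arcs can be extended by any two further points: choose one point of
every pair. -/
theorem exists_choice (f : Finset ι → ZMod 3) (μ : ι → ι) (O R : Finset ι) (hO : O.card ≤ 2)
    (hR : R.card = 2) (hμO : ∀ x ∈ O, μ x ∉ O) (hμ : Set.InjOn μ O) (hRO : Disjoint R O)
    (hRμ : Disjoint R (O.image μ)) (hD : DD f μ O ≠ 0) :
    ∃ X ⊆ O ∪ O.image μ, X.card = O.card ∧ FF f (X ∪ R) ≠ 0 := by
  have hcases : O.card = 0 ∨ O.card = 1 ∨ O.card = 2 := by omega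
  rcases hcases with h0 | h1 | h2
  · rw [card_eq_zero] at h0
    subst h0
    refine ⟨∅, by simp, rfl, ?_⟩
    rw [empty_union, FF_zero f hR]
    rwa [DD_zero] at hD
  · obtain ⟨o, rfl⟩ := card_eq_one.1 h1
    have ho : o ∉ R := disjoint_right.1 hRO (mem_singleton_self o)
    have ho' : μ o ∉ R := disjoint_right.1 hRμ (mem_image_of_mem μ (mem_singleton_self o))
    rw [DD_one] at hD
    by_contra hcon
    push Not at hcon
    have e1 := hcon {o} (by intro x hx; exact mem_union_left _ hx) rfl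
    have e2 := hcon {μ o} (by
      intro x hx
      rw [mem_singleton] at hx
      subst hx
      exact mem_union_right _ (mem_image_of_mem μ (mem_singleton_self o))) rfl
    rw [singleton_union] at e1 e2
    rw [FF_one f hR ho] at e1
    rw [FF_one f hR ho'] at e2
    exact hD (by linear_combination e1 - e2)
  · obtain ⟨o, p, hop, rfl⟩ := card_eq_two.1 h2
    have mo : o ∈ ({o, p} : Finset ι) := mem_insert_self _ _
    have mp : p ∈ ({o, p} : Finset ι) := mem_insert_of_mem (mem_singleton_self _)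
    have ho : o ∉ R := disjoint_right.1 hRO mo
    have hp : p ∉ R := disjoint_right.1 hRO mp
    have ho' : μ o ∉ R := disjoint_right.1 hRμ (mem_image_of_mem μ mo)
    have hp' : μ p ∉ R := disjoint_right.1 hRμ (mem_image_of_mem μ mp)
    have d1 : o ≠ μ p := fun h => hμO p mp (h ▸ mo)
    have d2 : μ o ≠ p := fun h => hμO o mo (h ▸ mp)
    have d3 : μ o ≠ μ p := fun h => hop (hμ (by simp) (by simp) h)
    rw [DD_two f μ hop] at hD
    by_contra hcon
    push Not at hcon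
    have mo' : μ o ∈ ({o, p} : Finset ι) ∪ ({o, p} : Finset ι).image μ :=
      mem_union_right _ (mem_image_of_mem μ mo)
    have mp' : μ p ∈ ({o, p} : Finset ι) ∪ ({o, p} : Finset ι).image μ :=
      mem_union_right _ (mem_image_of_mem μ mp)
    have mo'' : o ∈ ({o, p} : Finset ι) ∪ ({o, p} : Finset ι).image μ := mem_union_left _ mo
    have mp'' : p ∈ ({o, p} : Finset ι) ∪ ({o, p} : Finset ι).image μ := mem_union_left _ mp
    have key : ∀ x y : ι, x ∈ ({o, p} : Finset ι) ∪ ({o, p} : Finset ι).image μ →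
        y ∈ ({o, p} : Finset ι) ∪ ({o, p} : Finset ι).image μ → x ≠ y →
        FF f (insert x (insert y R)) = 0 := by
      intro x y hx hy hxy
      have := hcon {x, y} (by
        intro z hz
        rw [mem_insert, mem_singleton] at hz
        rcases hz with rfl | rfl
        · exact hx
        · exact hy) (by rw [card_pair hxy, card_pair hop])
      rwa [insert_union, singleton_union] at this
    have e := FF_diff2 f hR ho ho' hp hp' hop d1 d2 d3
    rw [key o p mo'' mp'' hop, key o (μ p) mo'' mp' d1, key (μ o) p mo' mp'' d2,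
      key (μ o) (μ p) mo' mp' d3] at e
    have h7 : f {μ o, p} = f {p, μ o} := by rw [pair_comm]
    apply hD
    rw [← h7]
    linear_combination -e

/-- a state: two classes with non-zero invariants -/
structure St (N : Finset ι) (F₁ F₂ : Finset ι → ZMod 3) (m₁ m₂ : ℕ) (Q₁ Q₂ : Finset ι) : Prop where
  s₁ : Q₁ ⊆ N
  s₂ : Q₂ ⊆ N
  d : Disjoint Q₁ Q₂
  c₁ : Q₁.card = m₁
  c₂ : Q₂.card = m₂
  n₁ : F₁ Q₁ ≠ 0
  n₂ : F₂ Q₂ ≠ 0

omit [DecidableEq ι] in
theorem St.symm {N : Finset ι} {F₁ F₂ : Finset ι → ZMod 3} {m₁ m₂ : ℕ} {Q₁ Q₂ : Finset ι}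
    (h : St N F₁ F₂ m₁ m₂ Q₁ Q₂) : St N F₂ F₁ m₂ m₁ Q₂ Q₁ :=
  ⟨h.s₂, h.s₁, h.d.symm, h.c₂, h.c₁, h.n₂, h.n₁⟩

/-- the sum-zero property -/
def SZ (m : ℕ) (F : Finset ι → ZMod 3) : Prop :=
  ∀ (Q : Finset ι) (p : ι), Q.card = m → p ∉ Q → F Q + ∑ q ∈ Q, F (insert p (Q.erase q)) = 0

/-- there is no full split -/
def NS (N : Finset ι) (F₁ F₂ : Finset ι → ZMod 3) (m₁ m₂ : ℕ) (ψ : ι → ZMod 3) : Prop :=
  ∀ Q₁ Q₂, St N F₁ F₂ m₁ m₂ Q₁ Q₂ → ∑ x ∈ Q₁, ψ x + ∑ x ∈ Q₂, ψ x = ∑ x ∈ N, ψ x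

omit [DecidableEq ι] in
theorem NS.symm {N : Finset ι} {F₁ F₂ : Finset ι → ZMod 3} {m₁ m₂ : ℕ} {ψ : ι → ZMod 3}
    (h : NS N F₁ F₂ m₁ m₂ ψ) : NS N F₂ F₁ m₂ m₁ ψ := by
  intro Q₁ Q₂ hs
  rw [add_comm]
  exact h _ _ hs.symm

section
variable {N : Finset ι} {F₁ F₂ : Finset ι → ZMod 3} {m₁ m₂ : ℕ} {ψ : ι → ZMod 3}

theorem St.exch (hns : NS N F₁ F₂ m₁ m₂ ψ) {Q₁ Q₂ : Finset ι} (h : St N F₁ F₂ m₁ m₂ Q₁ Q₂)
    {p q : ι} (hp : p ∈ N) (hp1 : p ∉ Q₁) (hp2 : p ∉ Q₂) (hq : q ∈ Q₁)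
    (hF : F₁ (insert p (Q₁.erase q)) ≠ 0) :
    St N F₁ F₂ m₁ m₂ (insert p (Q₁.erase q)) Q₂ ∧ ψ q = ψ p := by
  have hp1' : p ∉ Q₁.erase q := fun h => hp1 (mem_of_mem_erase h)
  have h' : St N F₁ F₂ m₁ m₂ (insert p (Q₁.erase q)) Q₂ := by
    refine ⟨?_, h.s₂, ?_, ?_, h.c₂, hF, h.n₂⟩
    · intro x hx
      rcases mem_insert.1 hx with rfl | hx
      · exact hp
      · exact h.s₁ (mem_of_mem_erase hx)
    · rw [disjoint_insert_left]
      exact ⟨hp2, h.d.mono_left (erase_subset _ _)⟩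
    · have h1 := card_pos.2 ⟨q, hq⟩
      have h2 := h.c₁
      rw [card_insert_of_notMem hp1', card_erase_of_mem hq]
      omega
  refine ⟨h', ?_⟩
  have e1 := hns _ _ h
  have e2 := hns _ _ h'
  rw [sum_insert hp1'] at e2
  have e3 := Finset.add_sum_erase Q₁ ψ hq
  linear_combination e1 - e2 + e3

theorem St.exists_color (hS : SZ m₁ F₁) (hns : NS N F₁ F₂ m₁ m₂ ψ) {Q₁ Q₂ : Finset ι}
    (h : St N F₁ F₂ m₁ m₂ Q₁ Q₂) {p : ι} (hp : p ∈ N) (hp1 : p ∉ Q₁) (hp2 : p ∉ Q₂) :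
    ∃ q ∈ Q₁, ψ q = ψ p := by
  by_contra hcon
  push Not at hcon
  have e := hS Q₁ p h.c₁ hp1
  rw [sum_eq_zero, add_zero] at e
  · exact h.n₁ e
  · intro q hq
    by_contra h1
    exact hcon q hq (h.exch hns hp hp1 hp2 hq h1).2

theorem St.step (hS : SZ m₁ F₁) (hns : NS N F₁ F₂ m₁ m₂ ψ) {R₁ R₂ : Finset ι} {x y z : ι}
    (h : St N F₁ F₂ m₁ m₂ (insert y R₁) (insert z R₂)) (hx : x ∈ N) (hx1 : x ∉ insert y R₁)
    (hx2 : x ∉ insert z R₂) (hy : y ∉ R₁) (hR : ∀ w ∈ R₁, ψ w ≠ ψ x) :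
    F₁ (insert y R₁) + F₁ (insert x R₁) = 0 ∧
      St N F₁ F₂ m₁ m₂ (insert x R₁) (insert z R₂) := by
  have e := hS _ x h.c₁ hx1
  rw [sum_insert hy, erase_insert hy, sum_eq_zero, add_zero] at e
  · refine ⟨e, ?_⟩
    have h1 : F₁ (insert x R₁) ≠ 0 := by
      intro h0
      rw [h0, add_zero] at e
      exact h.n₁ e
    have h2 := (h.exch hns hx hx1 hx2 (mem_insert_self y R₁) (by rwa [erase_insert hy])).1
    rwa [erase_insert hy] at h2
  · intro q hq
    by_contra h1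
    exact hR q hq (h.exch hns hx hx1 hx2 (mem_insert_of_mem hq) h1).2

/-- the walk -/
theorem walk (hS₁ : SZ m₁ F₁) (hS₂ : SZ m₂ F₂) (hns : NS N F₁ F₂ m₁ m₂ ψ) {R₁ R₂ : Finset ι}
    {p q t : ι} (h : St N F₁ F₂ m₁ m₂ (insert q R₁) (insert t R₂)) (hp : p ∈ N)
    (hpq : p ≠ q) (hpt : p ≠ t) (hqt : q ≠ t)
    (hp1 : p ∉ R₁) (hp2 : p ∉ R₂) (hq1 : q ∉ R₁) (hq2 : q ∉ R₂) (ht1 : t ∉ R₁) (ht2 : t ∉ R₂)
    (c1 : ψ p = ψ q) (c2 : ψ p = ψ t) (hR₁ : ∀ w ∈ R₁, ψ w ≠ ψ p) (hR₂ : ∀ w ∈ R₂, ψ w ≠ ψ p) :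
    False := by
  have hq : q ∈ N := h.s₁ (mem_insert_self _ _)
  have ht : t ∈ N := h.s₂ (mem_insert_self _ _)
  have nn : ∀ {x y : ι} {R : Finset ι}, x ≠ y → x ∉ R → x ∉ insert y R := by
    intro x y R h1 h2 h3
    rcases mem_insert.1 h3 with h | h
    · exact h1 h
    · exact h2 h
  -- (p; q, t)
  obtain ⟨a1, s1⟩ := h.step hS₁ hns hp (nn hpq hp1) (nn hpt hp2) hq1 hR₁
  obtain ⟨b1, s2⟩ := h.symm.step hS₂ hns.symm hp (nn hpt hp2) (nn hpq hp1) ht2 hR₂
  -- (q; p, t)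
  obtain ⟨b2, s3⟩ := s1.symm.step hS₂ hns.symm hq (nn hqt hq2) (nn hpq.symm hq1) ht2
    (by rw [← c1]; exact hR₂)
  -- (t; p, q)
  obtain ⟨a2, _⟩ := s3.symm.step hS₁ hns ht (nn hpt.symm ht1) (nn hqt.symm ht2) hp1
    (by rw [← c2]; exact hR₁)
  -- (t; q, p)
  obtain ⟨a3, _⟩ := s2.symm.step hS₁ hns ht (nn hqt.symm ht1) (nn hpt.symm ht2) hq1
    (by rw [← c2]; exact hR₁)
  apply h.n₁
  have h3 : (3 : ZMod 3) = 0 := by decide
  linear_combination -a1 + a2 - a3 + (F₁ (insert q R₁)) * h3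

/-- Step A: in a state the third class (three points) is constant for `ψ`. -/
theorem no_rainbow (hS₁ : SZ m₁ F₁) (hS₂ : SZ m₂ F₂) (hm₁ : m₁ ≤ 4) (hm₂ : m₂ ≤ 4)
    (hns : NS N F₁ F₂ m₁ m₂ ψ) {Q₁ Q₂ : Finset ι} (h : St N F₁ F₂ m₁ m₂ Q₁ Q₂)
    (hT : (N \ (Q₁ ∪ Q₂)).card = 3) :
    ∀ x ∈ N \ (Q₁ ∪ Q₂), ∀ y ∈ N \ (Q₁ ∪ Q₂), ψ x = ψ y := by
  by_contra hcon
  push Not at hcon
  obtain ⟨p1, hp1, p2, hp2, h12⟩ := hcon
  have hmem : ∀ {p}, p ∈ N \ (Q₁ ∪ Q₂) → p ∈ N ∧ p ∉ Q₁ ∧ p ∉ Q₂ := by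
    intro p hp
    rw [mem_sdiff, mem_union] at hp
    tauto
  have hsub : Q₁ ∪ Q₂ ⊆ N := union_subset h.s₁ h.s₂
  have hsum : ∑ x ∈ N \ (Q₁ ∪ Q₂), ψ x = 0 := by
    have e1 := hns _ _ h
    have e2 := sum_sdiff (f := ψ) hsub
    rw [sum_union h.d] at e2
    linear_combination e2 - e1
  -- all colours appear in the third class
  have hcol : ∀ κ : ZMod 3, ∃ p ∈ N \ (Q₁ ∪ Q₂), ψ p = κ := by
    have hne : p1 ≠ p2 := fun h => h12 (by rw [h])
    have h2 : p2 ∈ (N \ (Q₁ ∪ Q₂)).erase p1 := mem_erase.2 ⟨hne.symm, hp2⟩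
    have hc1 : (((N \ (Q₁ ∪ Q₂)).erase p1).erase p2).card = 1 := by
      rw [card_erase_of_mem h2, card_erase_of_mem hp1, hT]
    obtain ⟨p3, hp3⟩ := card_eq_one.1 hc1
    have hp3' : p3 ∈ N \ (Q₁ ∪ Q₂) := by
      have : p3 ∈ ((N \ (Q₁ ∪ Q₂)).erase p1).erase p2 := by rw [hp3]; exact mem_singleton_self _
      exact mem_of_mem_erase (mem_of_mem_erase this)
    have e : ψ p1 + (ψ p2 + ψ p3) = 0 := by
      rw [← hsum, ← Finset.add_sum_erase _ ψ hp1, ← Finset.add_sum_erase _ ψ h2, hp3, sum_singleton]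
    intro κ
    have hd : ∀ a b c κ : ZMod 3, a ≠ b → a + (b + c) = 0 → a = κ ∨ b = κ ∨ c = κ := by decide
    rcases hd _ _ _ κ h12 e with h | h | h
    · exact ⟨p1, hp1, h⟩
    · exact ⟨p2, hp2, h⟩
    · exact ⟨p3, hp3', h⟩
  have hpos₁ : ∀ κ : ZMod 3, 1 ≤ (Q₁.filter fun w => ψ w = κ).card := by
    intro κ
    obtain ⟨p, hp, hpκ⟩ := hcol κ
    obtain ⟨h1, h2, h3⟩ := hmem hp
    obtain ⟨q, hq, hq'⟩ := h.exists_color hS₁ hns h1 h2 h3
    exact card_pos.2 ⟨q, mem_filter.2 ⟨hq, by rw [hq', hpκ]⟩⟩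
  have hpos₂ : ∀ κ : ZMod 3, 1 ≤ (Q₂.filter fun w => ψ w = κ).card := by
    intro κ
    obtain ⟨p, hp, hpκ⟩ := hcol κ
    obtain ⟨h1, h2, h3⟩ := hmem hp
    obtain ⟨q, hq, hq'⟩ := h.symm.exists_color hS₂ hns.symm h1 h3 h2
    exact card_pos.2 ⟨q, mem_filter.2 ⟨hq, by rw [hq', hpκ]⟩⟩
  have hsm : ∀ Q : Finset ι, (Q.filter fun w => ψ w = 0).card + (Q.filter fun w => ψ w = 1).card +
      (Q.filter fun w => ψ w = 2).card = Q.card := by
    intro Q
    have e1 := Finset.card_eq_sum_card_fiberwise (s := Q) (f := ψ) (t := univ)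
      (fun x _ => mem_univ _)
    have e2 : ∀ g : ZMod 3 → ℕ, ∑ κ : ZMod 3, g κ = g 0 + g 1 + g 2 :=
      fun g => Fin.sum_univ_three g
    rw [e1, e2]
  obtain ⟨κ, hκ₁, hκ₂⟩ : ∃ κ : ZMod 3, (Q₁.filter fun w => ψ w = κ).card = 1 ∧
      (Q₂.filter fun w => ψ w = κ).card = 1 := by
    have a0 := hpos₁ 0
    have a1 := hpos₁ 1
    have a2 := hpos₁ 2
    have b0 := hpos₂ 0
    have b1 := hpos₂ 1
    have b2 := hpos₂ 2
    have e1 := hsm Q₁
    have e2 := hsm Q₂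
    rw [h.c₁] at e1
    rw [h.c₂] at e2
    by_contra hcon
    push Not at hcon
    have c0 := hcon 0
    have c1 := hcon 1
    have c2 := hcon 2
    omega
  obtain ⟨p, hp, hpκ⟩ := hcol κ
  obtain ⟨hpN, hpn1, hpn2⟩ := hmem hp
  obtain ⟨q, hq⟩ := card_eq_one.1 hκ₁
  obtain ⟨t, ht⟩ := card_eq_one.1 hκ₂
  have hq' : q ∈ Q₁ ∧ ψ q = κ := mem_filter.1 (by rw [hq]; exact mem_singleton_self _)
  have ht' : t ∈ Q₂ ∧ ψ t = κ := mem_filter.1 (by rw [ht]; exact mem_singleton_self _)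
  have hR₁ : ∀ w ∈ Q₁.erase q, ψ w ≠ ψ p := by
    intro w hw hw'
    rw [mem_erase] at hw
    apply hw.1
    rw [← mem_singleton, ← hq, mem_filter]
    exact ⟨hw.2, by rw [hw', hpκ]⟩
  have hR₂ : ∀ w ∈ Q₂.erase t, ψ w ≠ ψ p := by
    intro w hw hw'
    rw [mem_erase] at hw
    apply hw.1
    rw [← mem_singleton, ← ht, mem_filter]
    exact ⟨hw.2, by rw [hw', hpκ]⟩
  have hdj := disjoint_left.1 h.d
  refine walk hS₁ hS₂ hns (R₁ := Q₁.erase q) (R₂ := Q₂.erase t) (p := p) (q := q) (t := t) ?_ hpN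
    ?_ ?_ ?_ ?_ ?_ ?_ ?_ ?_ ?_ ?_ ?_ hR₁ hR₂
  · rw [insert_erase hq'.1, insert_erase ht'.1]; exact h
  · rintro rfl; exact hpn1 hq'.1
  · rintro rfl; exact hpn2 ht'.1
  · rintro rfl; exact hdj hq'.1 ht'.1
  · exact fun h => hpn1 (mem_of_mem_erase h)
  · exact fun h => hpn2 (mem_of_mem_erase h)
  · exact fun h => (mem_erase.1 h).1 rfl
  · exact fun h => hdj hq'.1 (mem_of_mem_erase h)
  · exact fun h => hdj (mem_of_mem_erase h) ht'.1
  · exact fun h => (mem_erase.1 h).1 rfl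
  · rw [hpκ, hq'.2]
  · rw [hpκ, ht'.2]

/-- Step B, core. -/
theorem lemX_core (f : Finset ι → ZMod 3) (ψ : ι → ZMod 3) (U Z : Finset ι) (x x' y y' z₁ z₂ : ι)
    (hZ : Z.card = 3) (hZU : Z ⊆ U) (hxU : x ∈ U) (hxU' : x' ∈ U) (hyU : y ∈ U) (hyU' : y' ∈ U)
    (hx : x ∉ Z) (hx' : x' ∉ Z) (hy : y ∉ Z) (hy' : y' ∉ Z)
    (h1 : x ≠ y) (h2 : x ≠ y') (h3 : x' ≠ y) (h4 : x' ≠ y') (h5 : x ≠ x') (h6 : y ≠ y')
    (hB : f {x, y} - f {x, y'} - f {x', y} + f {x', y'} ≠ 0)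
    (hG : ∀ (Q : Finset ι) (a b : ι), Q ⊆ U → Q.card = 4 → a ∈ U → b ∈ U → a ∉ Q → b ∉ Q →
      ψ a ≠ ψ b → FF f Q = 0)
    (hz₁ : z₁ ∈ Z) (hz₂ : z₂ ∈ Z) (hc1 : ψ z₁ = ψ x) (hc2 : ψ y = ψ x) (hc3 : ψ x' ≠ ψ x)
    (hc4 : ψ y' ≠ ψ x) (hc5 : ψ z₂ ≠ ψ x) : False := by
  set B := f {x, y} - f {x, y'} - f {x', y} + f {x', y'} with hBdef
  have nn : ∀ {a b : ι} {R : Finset ι}, a ≠ b → a ∉ R → a ∉ insert b R := by
    intro a b R h1 h2 h3
    rcases mem_insert.1 h3 with h | h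
    · exact h1 h
    · exact h2 h
  have hsub : ∀ {a b : ι} {R : Finset ι}, a ∈ U → b ∈ U → R ⊆ U → insert a (insert b R) ⊆ U := by
    intro a b R ha hb hR
    exact insert_subset ha (insert_subset hb hR)
  have hval : ∀ z ∈ Z, FF f (insert x' (insert y' (Z.erase z))) = if ψ z = ψ x then B else 0 := by
    intro z hz
    have hzU := hZU hz
    have er : ∀ {a : ι}, a ∉ Z → a ∉ Z.erase z := fun h h' => h (mem_of_mem_erase h')
    have ne : ∀ {a : ι}, a ∉ Z → a ≠ z := fun h h' => h (h' ▸ hz)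
    have hR : (Z.erase z).card = 2 := by rw [card_erase_of_mem hz, hZ]
    have hRU : Z.erase z ⊆ U := (erase_subset _ _).trans hZU
    have hcd : ∀ {a b : ι}, a ∉ Z → b ∉ Z → a ≠ b → (insert a (insert b (Z.erase z))).card = 4 := by
      intro a b ha hb hab
      rw [card_insert_of_notMem (nn hab (er ha)), card_insert_of_notMem (er hb), hR]
    have hze : z ∉ Z.erase z := fun h => (mem_erase.1 h).1 rfl
    split_ifs with hcz
    · have e := FF_diff2 f hR (er hx) (er hx') (er hy) (er hy') h1 h2 h3 h4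
      have e1 : FF f (insert x (insert y (Z.erase z))) = 0 :=
        hG _ z x' (hsub hxU hyU hRU) (hcd hx hy h1) hzU hxU' (nn (ne hx).symm (nn (ne hy).symm hze))
          (nn h5.symm (nn h3 (er hx'))) (by rw [hcz]; exact hc3.symm)
      have e2 : FF f (insert x (insert y' (Z.erase z))) = 0 :=
        hG _ y x' (hsub hxU hyU' hRU) (hcd hx hy' h2) hyU hxU' (nn h1.symm (nn h6 (er hy)))
          (nn h5.symm (nn h4 (er hx'))) (by rw [hc2]; exact hc3.symm)
      have e3 : FF f (insert x' (insert y (Z.erase z))) = 0 :=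
        hG _ x y' (hsub hxU' hyU hRU) (hcd hx' hy h3) hxU hyU' (nn h5 (nn h1 (er hx)))
          (nn h4.symm (nn h6.symm (er hy'))) hc4.symm
      rw [e1, e2, e3] at e
      rw [hBdef]
      linear_combination e
    · exact hG _ z x (hsub hxU' hyU' hRU) (hcd hx' hy' h4) hzU hxU
        (nn (ne hx').symm (nn (ne hy').symm hze)) (nn h5 (nn h2 (er hx))) hcz
  have hV : (insert x' (insert y' Z)).card = 5 := by
    rw [card_insert_of_notMem (nn h4 hx'), card_insert_of_notMem hy', hZ]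
  have e := FF_sz f (insert x' (insert y' Z)) (by omega)
  rw [sum_insert (nn h4 hx'), sum_insert hy', erase_insert (nn h4 hx')] at e
  have e1 : FF f (insert y' Z) = 0 := by
    refine hG _ x x' (insert_subset hyU' hZU) ?_ hxU hxU' (nn h2 hx) (nn h4 hx') hc3.symm
    rw [card_insert_of_notMem hy', hZ]
  have e2 : FF f ((insert x' (insert y' Z)).erase y') = 0 := by
    rw [erase_insert_of_ne h4, erase_insert hy']
    refine hG _ x y' (insert_subset hxU' hZU) ?_ hxU hyU' (nn h5 hx) (nn h4.symm hy') hc4.symm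
    rw [card_insert_of_notMem hx', hZ]
  have e3 : ∀ z ∈ Z, FF f ((insert x' (insert y' Z)).erase z) = if ψ z = ψ x then B else 0 := by
    intro z hz
    rw [← hval z hz, erase_insert_of_ne, erase_insert_of_ne]
    · rintro rfl; exact hy' hz
    · rintro rfl; exact hx' hz
  rw [e1, e2, sum_congr rfl e3, zero_add, zero_add, ← sum_filter, sum_const, nsmul_eq_mul] at e
  have hlt : (Z.filter fun z => ψ z = ψ x).card < Z.card :=
    card_lt_card (filter_ssubset.2 ⟨z₂, hz₂, hc5⟩)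
  have hpos : 0 < (Z.filter fun z => ψ z = ψ x).card :=
    card_pos.2 ⟨z₁, mem_filter.2 ⟨hz₁, hc1⟩⟩
  rcases mul_eq_zero.1 e with h | h
  · rw [ZMod.natCast_eq_zero_iff] at h
    have := Nat.le_of_dvd hpos h
    omega
  · exact hB h

/-- Step B (Lemma X): a two-class next to three further points. If all choices of the class leave three
points on which `ψ` is constant, then `ψ` is constant on the three further points. -/
theorem lemX (f : Finset ι → ZMod 3) (μ : ι → ι) (O Z : Finset ι) (ψ : ι → ZMod 3)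
    (hO : O.card = 2) (hZ : Z.card = 3) (hμO : ∀ x ∈ O, μ x ∉ O) (hμ : Set.InjOn μ O)
    (hZO : Disjoint Z O) (hZμ : Disjoint Z (O.image μ)) (hD : DD f μ O ≠ 0)
    (hG : ∀ Q : Finset ι, Q ⊆ Z ∪ (O ∪ O.image μ) → Q.card = 4 → FF f Q ≠ 0 →
      ∀ a ∈ (Z ∪ (O ∪ O.image μ)) \ Q, ∀ b ∈ (Z ∪ (O ∪ O.image μ)) \ Q, ψ a = ψ b) :
    ∀ a ∈ Z, ∀ b ∈ Z, ψ a = ψ b := by
  obtain ⟨o, p, hop, rfl⟩ := card_eq_two.1 hO
  by_contra hcon
  push Not at hcon
  obtain ⟨z₁, hz₁, z₂, hz₂, h12⟩ := hcon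
  set U : Finset ι := Z ∪ ({o, p} ∪ ({o, p} : Finset ι).image μ) with hU
  have mo : o ∈ ({o, p} : Finset ι) := mem_insert_self _ _
  have mp : p ∈ ({o, p} : Finset ι) := mem_insert_of_mem (mem_singleton_self _)
  have ho : o ∉ Z := disjoint_right.1 hZO mo
  have hp : p ∉ Z := disjoint_right.1 hZO mp
  have ho' : μ o ∉ Z := disjoint_right.1 hZμ (mem_image_of_mem μ mo)
  have hp' : μ p ∉ Z := disjoint_right.1 hZμ (mem_image_of_mem μ mp)
  have d1 : o ≠ μ p := fun h => hμO p mp (h ▸ mo)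
  have d2 : μ o ≠ p := fun h => hμO o mo (h ▸ mp)
  have d3 : μ o ≠ μ p := fun h => hop (hμ (by simp) (by simp) h)
  have d4 : o ≠ μ o := fun h => hμO o mo (h ▸ mo)
  have d5 : p ≠ μ p := fun h => hμO p mp (h ▸ mp)
  have uo : o ∈ U := mem_union_right _ (mem_union_left _ mo)
  have up : p ∈ U := mem_union_right _ (mem_union_left _ mp)
  have uo' : μ o ∈ U := mem_union_right _ (mem_union_right _ (mem_image_of_mem μ mo))
  have up' : μ p ∈ U := mem_union_right _ (mem_union_right _ (mem_image_of_mem μ mp))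
  have hZU : Z ⊆ U := subset_union_left
  rw [DD_two f μ hop] at hD
  have h7 : f {p, μ o} = f {μ o, p} := by rw [pair_comm]
  rw [h7] at hD
  have hG' : ∀ (Q : Finset ι) (a b : ι), Q ⊆ U → Q.card = 4 → a ∈ U → b ∈ U → a ∉ Q → b ∉ Q →
      ψ a ≠ ψ b → FF f Q = 0 := by
    intro Q a b hQ hQc ha hb haQ hbQ hab
    by_contra h
    exact hab (hG Q hQ hQc h a (mem_sdiff.2 ⟨ha, haQ⟩) b (mem_sdiff.2 ⟨hb, hbQ⟩))
  -- every point of `Z` has a companion pair of its colour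
  have nn : ∀ {a b : ι} {R : Finset ι}, a ≠ b → a ∉ R → a ∉ insert b R := by
    intro a b R h1 h2 h3
    rcases mem_insert.1 h3 with h | h
    · exact h1 h
    · exact h2 h
  have hex : ∀ z ∈ Z, (ψ o = ψ z ∧ ψ p = ψ z) ∨ (ψ o = ψ z ∧ ψ (μ p) = ψ z) ∨
      (ψ (μ o) = ψ z ∧ ψ p = ψ z) ∨ (ψ (μ o) = ψ z ∧ ψ (μ p) = ψ z) := by
    intro z hz
    have hzU := hZU hz
    have er : ∀ {a : ι}, a ∉ Z → a ∉ Z.erase z := fun h h' => h (mem_of_mem_erase h')
    have ne : ∀ {a : ι}, a ∉ Z → z ≠ a := fun h h' => h (h' ▸ hz)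
    have hR : (Z.erase z).card = 2 := by rw [card_erase_of_mem hz, hZ]
    have hRU : Z.erase z ⊆ U := (erase_subset _ _).trans hZU
    have hze : z ∉ Z.erase z := fun h => (mem_erase.1 h).1 rfl
    have key : ∀ a b a' b' : ι, a ∈ U → b ∈ U → a' ∈ U → b' ∈ U → a ∉ Z → b ∉ Z → a' ∉ Z → b' ∉ Z →
        a ≠ b → a' ≠ a → a' ≠ b → b' ≠ a → b' ≠ b → ¬ (ψ a' = ψ z ∧ ψ b' = ψ z) →
        FF f (insert a (insert b (Z.erase z))) = 0 := by
      intro a b a' b' ha hb ha' hb' haZ hbZ haZ' hbZ' hab h1 h2 h3 h4 h5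
      have hc : (insert a (insert b (Z.erase z))).card = 4 := by
        rw [card_insert_of_notMem (nn hab (er haZ)), card_insert_of_notMem (er hbZ), hR]
      have hs : insert a (insert b (Z.erase z)) ⊆ U := insert_subset ha (insert_subset hb hRU)
      have hz' : z ∉ insert a (insert b (Z.erase z)) := nn (ne haZ) (nn (ne hbZ) hze)
      by_cases h6 : ψ a' = ψ z
      · have h7 : ψ b' ≠ ψ z := fun h => h5 ⟨h6, h⟩
        exact hG' _ b' z hs hc hb' hzU (nn h3 (nn h4 (er hbZ'))) hz' h7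
      · exact hG' _ a' z hs hc ha' hzU (nn h1 (nn h2 (er haZ'))) hz' h6
    by_contra hcon
    push Not at hcon
    obtain ⟨c1, c2, c3, c4⟩ := hcon
    have e := FF_diff2 f hR (er ho) (er ho') (er hp) (er hp') hop d1 d2 d3
    rw [key o p (μ o) (μ p) uo up uo' up' ho hp ho' hp' hop d4.symm d2 d1.symm d5.symm
        (fun h => c4 h.1 h.2),
      key o (μ p) (μ o) p uo up' uo' up ho hp' ho' hp d1 d4.symm d3 hop.symm d5
        (fun h => c3 h.1 h.2),
      key (μ o) p o (μ p) uo' up uo up' ho' hp ho hp' d2 d4 hop d3.symm d5.symm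
        (fun h => c2 h.1 h.2),
      key (μ o) (μ p) o p uo' up' uo up ho' hp' ho hp d3 d4 d1 d2.symm d5
        (fun h => c1 h.1 h.2)] at e
    exact hD (by linear_combination -e)
  have hD2 : f {o, μ p} - f {o, p} - f {μ o, μ p} + f {μ o, p} ≠ 0 := fun h =>
    hD (by linear_combination -h)
  have hD3 : f {μ o, p} - f {μ o, μ p} - f {o, p} + f {o, μ p} ≠ 0 := fun h =>
    hD (by linear_combination -h)
  have hD4 : f {μ o, μ p} - f {μ o, p} - f {o, μ p} + f {o, p} ≠ 0 := fun h =>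
    hD (by linear_combination h)
  have h12' := fun h : ψ z₂ = ψ z₁ => h12 h.symm
  rcases hex z₁ hz₁ with ⟨a1, a2⟩ | ⟨a1, a2⟩ | ⟨a1, a2⟩ | ⟨a1, a2⟩
  · -- `o, p` have the colour of `z₁`
    have c : ψ (μ o) = ψ z₂ ∧ ψ (μ p) = ψ z₂ := by
      rcases hex z₂ hz₂ with ⟨b1, b2⟩ | ⟨b1, b2⟩ | ⟨b1, b2⟩ | ⟨b1, b2⟩
      · exact absurd (b1.symm.trans a1) h12'
      · exact absurd (b1.symm.trans a1) h12'
      · exact absurd (b2.symm.trans a2) h12'
      · exact ⟨b1, b2⟩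
    exact lemX_core f ψ U Z o (μ o) p (μ p) z₁ z₂ hZ hZU uo uo' up up' ho ho' hp hp' hop d1 d2 d3
      d4 d5 hD hG' hz₁ hz₂ a1.symm (by rw [a1, a2]) (by rw [a1, c.1]; exact h12')
      (by rw [a1, c.2]; exact h12') (by rw [a1]; exact h12')
  · have c : ψ (μ o) = ψ z₂ ∧ ψ p = ψ z₂ := by
      rcases hex z₂ hz₂ with ⟨b1, b2⟩ | ⟨b1, b2⟩ | ⟨b1, b2⟩ | ⟨b1, b2⟩
      · exact absurd (b1.symm.trans a1) h12'
      · exact absurd (b1.symm.trans a1) h12'
      · exact ⟨b1, b2⟩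
      · exact absurd (b2.symm.trans a2) h12'
    exact lemX_core f ψ U Z o (μ o) (μ p) p z₁ z₂ hZ hZU uo uo' up' up ho ho' hp' hp d1 hop d3 d2
      d4 d5.symm hD2 hG' hz₁ hz₂ a1.symm (by rw [a1, a2]) (by rw [a1, c.1]; exact h12')
      (by rw [a1, c.2]; exact h12') (by rw [a1]; exact h12')
  · have c : ψ o = ψ z₂ ∧ ψ (μ p) = ψ z₂ := by
      rcases hex z₂ hz₂ with ⟨b1, b2⟩ | ⟨b1, b2⟩ | ⟨b1, b2⟩ | ⟨b1, b2⟩
      · exact absurd (b2.symm.trans a2) h12'
      · exact ⟨b1, b2⟩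
      · exact absurd (b1.symm.trans a1) h12'
      · exact absurd (b1.symm.trans a1) h12'
    exact lemX_core f ψ U Z (μ o) o p (μ p) z₁ z₂ hZ hZU uo' uo up up' ho' ho hp hp' d2 d3 hop d1
      d4.symm d5 hD3 hG' hz₁ hz₂ a1.symm (by rw [a1, a2]) (by rw [a1, c.1]; exact h12')
      (by rw [a1, c.2]; exact h12') (by rw [a1]; exact h12')
  · have c : ψ o = ψ z₂ ∧ ψ p = ψ z₂ := by
      rcases hex z₂ hz₂ with ⟨b1, b2⟩ | ⟨b1, b2⟩ | ⟨b1, b2⟩ | ⟨b1, b2⟩
      · exact ⟨b1, b2⟩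
      · exact absurd (b2.symm.trans a2) h12'
      · exact absurd (b1.symm.trans a1) h12'
      · exact absurd (b1.symm.trans a1) h12'
    exact lemX_core f ψ U Z (μ o) o (μ p) p z₁ z₂ hZ hZU uo' uo up' up ho' ho hp' hp d3 d2 d1 hop
      d4.symm d5.symm hD4 hG' hz₁ hz₂ a1.symm (by rw [a1, a2]) (by rw [a1, c.1]; exact h12')
      (by rw [a1, c.2]; exact h12') (by rw [a1]; exact h12')

end

end G3
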