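import Pool.Agent.Lib_MP_e457e7_g3.DefsG

/-! # Piece P6: splitting off at a vertex -/

set_option autoImplicit false

namespace G3
open Finset

variable {W : Type*} [Fintype W] [DecidableEq W] {E : Type*} [Fintype E] [DecidableEq E]

/-- the tail of `e` is in `Y` -/
private def tin (t : E → Option W) (e : E) (Y : Finset W) : Prop := ∃ w ∈ Y, t e = some w

omit [Fintype W] [DecidableEq W] [Fintype E] [DecidableEq E] in
private theorem tin_mono {t : E → Option W} {e : E} {Y Z : Finset W} (h : Y ⊆ Z)
    (hY : tin t e Y) : tin t e Z := by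
  obtain ⟨w, hw, he⟩ := hY
  exact ⟨w, h hw, he⟩

omit [Fintype W] [Fintype E] [DecidableEq E] in
private theorem tin_inter {t : E → Option W} {e : E} {Y Z : Finset W} (hY : tin t e Y)
    (hZ : tin t e Z) : tin t e (Y ∩ Z) := by
  obtain ⟨w, hw, he⟩ := hY
  obtain ⟨w', hw', he'⟩ := hZ
  rw [he, Option.some.injEq] at he'
  subst he'
  exact ⟨w, mem_inter.2 ⟨hw, hw'⟩, he⟩

omit [Fintype W] [Fintype E] [DecidableEq E] in
private theorem tin_union {t : E → Option W} {e : E} {Y Z : Finset W} :
    tin t e (Y ∪ Z) ↔ tin t e Y ∨ tin t e Z := by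
  constructor
  · rintro ⟨w, hw, he⟩
    rcases mem_union.1 hw with h | h
    · exact Or.inl ⟨w, h, he⟩
    · exact Or.inr ⟨w, h, he⟩
  · rintro (⟨w, hw, he⟩ | ⟨w, hw, he⟩)
    · exact ⟨w, mem_union_left _ hw, he⟩
    · exact ⟨w, mem_union_right _ hw, he⟩

open Classical in
/-- number of arcs of `F` entering `Y` -/
private noncomputable def ro (h : E → W) (t : E → Option W) (F : Finset E) (Y : Finset W) : ℕ :=
  #{e ∈ F | h e ∈ Y ∧ ¬ tin t e Y}

omit [Fintype E] [DecidableEq E] in
open Classical in
private theorem ro_eq_rho (h : E → W) (t : E → Option W) (F : Finset E) (Y : Finset W) :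
    ro h t F Y = rho h t F Y := by
  unfold ro rho
  congr 1
  refine filter_congr fun e _ => ?_
  unfold tin
  push Not
  exact Iff.rfl

omit [Fintype W] [Fintype E] [DecidableEq E] in
open Classical in
private theorem ro_submod (h : E → W) (t : E → Option W) (F : Finset E) (X Y : Finset W) :
    ro h t F (X ∩ Y) + ro h t F (X ∪ Y) ≤ ro h t F X + ro h t F Y := by
  unfold ro
  simp only [card_filter]
  rw [← sum_add_distrib, ← sum_add_distrib]
  refine sum_le_sum fun e _ => ?_
  have h1 : tin t e X → tin t e Y → tin t e (X ∩ Y) := tin_inter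
  have h2 := tin_union (t := t) (e := e) (Y := X) (Z := Y)
  have h3 : tin t e (X ∩ Y) → tin t e X := tin_mono inter_subset_left
  have h4 : tin t e (X ∩ Y) → tin t e Y := tin_mono inter_subset_right
  by_cases a1 : h e ∈ X <;> by_cases a2 : h e ∈ Y <;> by_cases a3 : tin t e X <;>
    by_cases a4 : tin t e Y <;> by_cases a5 : tin t e (X ∩ Y) <;> simp_all

omit [Fintype W] [Fintype E] in
open Classical in
private theorem ro_submod_lt (h : E → W) (t : E → Option W) (F : Finset E) (X Y : Finset W)
    {f : E} (hf : f ∈ F) (h1 : h f ∈ X) (h2 : h f ∉ Y) (h3 : tin t f Y) (h4 : ¬ tin t f X) :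
    ro h t F (X ∩ Y) + ro h t F (X ∪ Y) + 1 ≤ ro h t F X + ro h t F Y := by
  have key := ro_submod h t (F.erase f) X Y
  have e1 : ∀ Z : Finset W, ro h t F Z = ro h t (F.erase f) Z +
      if h f ∈ Z ∧ ¬ tin t f Z then 1 else 0 := by
    intro Z
    unfold ro
    simp only [card_filter]
    rw [← sum_erase_add _ _ hf]
  rw [e1 (X ∩ Y), e1 (X ∪ Y), e1 X, e1 Y]
  have h5 : ¬ (h f ∈ X ∩ Y ∧ ¬ tin t f (X ∩ Y)) := fun hc => h2 (mem_inter.1 hc.1).2
  have h6 : ¬ (h f ∈ X ∪ Y ∧ ¬ tin t f (X ∪ Y)) := fun hc => hc.2 (tin_union.2 (Or.inr h3))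
  have h7 : ¬ (h f ∈ Y ∧ ¬ tin t f Y) := fun hc => h2 hc.1
  rw [if_neg h5, if_neg h6, if_neg h7, if_pos ⟨h1, h4⟩]
  omega

open Classical in
/-- one step -/
private theorem step_aux {K : ℕ} {h : E → W} {t : E → Option W} {v : W} {F I : Finset E}
    (hF : ∀ e, e ∈ F ↔ (h e = v → e ∈ I)) (hI : ∀ a ∈ I, h a = v)
    (hl : ∀ e, h e = v → t e ≠ some v)
    (hc : #{e | t e = some v} ≤ #I)
    (hr : ∀ Z : Finset W, Z.Nonempty → Z ≠ {v} → K ≤ ro h t F Z) {f : E} (hf : t f = some v) :
    ∃ a ∈ I, ∀ Z : Finset W, Z.Nonempty → Z ≠ {v} → ro h t F Z = K →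
      ¬ ((v ∉ Z ∧ h f ∈ Z ∧ tin t a Z) ∨ (v ∈ Z ∧ h f ∉ Z ∧ ¬ tin t a Z)) := by
  have hfv : h f ≠ v := fun hc => hl f hc hf
  have hfF : f ∈ F := (hF f).2 fun hc => absurd hc hfv
  have htf : ∀ Z : Finset W, tin t f Z ↔ v ∈ Z := by
    intro Z
    constructor
    · rintro ⟨w, hw, he⟩
      rw [hf, Option.some.injEq] at he
      rwa [he]
    · intro hv
      exact ⟨v, hv, hf⟩
  -- number of arcs from v into Z
  let o : Finset W → ℕ := fun Z => #{e | h e ∈ Z ∧ t e = some v}
  -- Lemma A
  have hA : ∀ P Z : Finset W, v ∉ P → h f ∈ P → ro h t F P = K → v ∈ Z → h f ∉ Z →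
      ro h t F Z = K → Disjoint P Z := by
    intro P Z h1 h2 h3 h4 h5 h6
    by_contra hd
    rw [disjoint_iff_inter_eq_empty] at hd
    have hne : (P ∩ Z).Nonempty := nonempty_iff_ne_empty.2 hd
    have h7 : P ∩ Z ≠ {v} := by
      intro hc
      have : v ∈ P ∩ Z := by rw [hc]; exact mem_singleton_self v
      exact h1 (mem_inter.1 this).1
    have h8 : P ∪ Z ≠ {v} := by
      intro hc
      have : h f ∈ P ∪ Z := mem_union_left _ h2
      rw [hc, mem_singleton] at this
      exact hfv this
    have h9 := hr _ hne h7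
    have h10 := hr _ ⟨v, mem_union_right _ h4⟩ h8
    have h11 := ro_submod_lt h t F P Z hfF h2 h5 ((htf Z).2 h4) (fun hc => h1 ((htf P).1 hc))
    omega
  -- Lemma B
  have hB : ∀ Z : Finset W, v ∈ Z → Z ≠ {v} → ro h t F Z = K →
      #{a ∈ I | ¬ tin t a Z} ≤ o (Z.erase v) := by
    intro Z h1 h2 h3
    have hne : (Z.erase v).Nonempty := by
      by_contra hc
      rw [not_nonempty_iff_eq_empty] at hc
      apply h2
      rw [← insert_erase h1, hc]
      rfl
    have h4 := hr (Z.erase v) hne (fun hc => by
      have : v ∈ Z.erase v := by rw [hc]; exact mem_singleton_self v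
      exact (notMem_erase v Z) this)
    have h5 : ro h t F Z = #{e ∈ F | h e ∈ Z.erase v ∧ ¬ tin t e Z} + #{a ∈ I | ¬ tin t a Z} := by
      unfold ro
      rw [← card_union_of_disjoint]
      · congr 1
        ext e
        simp only [mem_filter, mem_union, mem_erase]
        constructor
        · rintro ⟨h6, h7, h8⟩
          by_cases h9 : h e = v
          · exact Or.inr ⟨(hF e).1 h6 h9, h8⟩
          · exact Or.inl ⟨h6, ⟨h9, h7⟩, h8⟩
        · rintro (⟨h6, ⟨_, h7⟩, h8⟩ | ⟨h6, h8⟩)
          · exact ⟨h6, h7, h8⟩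
          · exact ⟨(hF e).2 fun _ => h6, by rw [hI e h6]; exact h1, h8⟩
      · rw [disjoint_left]
        intro e h6 h7
        simp only [mem_filter, mem_erase] at h6 h7
        exact h6.2.1.1 (hI e h7.1)
    have h6 : ro h t F (Z.erase v) ≤ #{e ∈ F | h e ∈ Z.erase v ∧ ¬ tin t e Z} + o (Z.erase v) := by
      unfold ro
      refine (card_le_card ?_).trans (card_union_le _ _)
      intro e he
      simp only [mem_filter, mem_union, mem_univ, true_and] at he ⊢
      obtain ⟨h7, h8, h9⟩ := he
      by_cases h10 : tin t e Z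
      · right
        refine ⟨h8, ?_⟩
        obtain ⟨w, hw, hew⟩ := h10
        by_cases hwv : w = v
        · rw [hew, hwv]
        · exact absurd ⟨w, mem_erase.2 ⟨hwv, hw⟩, hew⟩ h9
      · left
        exact ⟨h7, h8, h10⟩
    omega
  -- Lemma C
  have hC : ∀ P : Finset W, v ∉ P → h f ∈ P → ro h t F P = K → ∃ a ∈ I, ¬ tin t a P := by
    intro P h1 h2 h3
    have h4 := hr (insert v P) ⟨v, mem_insert_self _ _⟩ (fun hc => by
      have : h f ∈ insert v P := mem_insert_of_mem h2
      rw [hc, mem_singleton] at this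
      exact hfv this)
    have h5 : ro h t F (insert v P) ≤ #{e ∈ F | h e ∈ P ∧ ¬ tin t e (insert v P)} +
        #{a ∈ I | ¬ tin t a P} := by
      unfold ro
      refine (card_le_card ?_).trans (card_union_le _ _)
      intro e he
      simp only [mem_filter, mem_union, mem_insert] at he ⊢
      obtain ⟨h7, h8, h9⟩ := he
      rcases h8 with h8 | h8
      · exact Or.inr ⟨(hF e).1 h7 h8, fun hc => h9 (tin_mono (subset_insert _ _) hc)⟩
      · exact Or.inl ⟨h7, h8, h9⟩
    have h6 : #{e ∈ F | h e ∈ P ∧ ¬ tin t e (insert v P)} + 1 ≤ ro h t F P := by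
      have h7 : f ∉ ({e ∈ F | h e ∈ P ∧ ¬ tin t e (insert v P)} : Finset E) := by
        simp only [mem_filter, not_and, not_not]
        exact fun _ _ => (htf _).2 (mem_insert_self _ _)
      rw [← card_insert_of_notMem h7]
      unfold ro
      refine card_le_card ?_
      intro e he
      rcases mem_insert.1 he with he | he
      · subst he
        simp only [mem_filter]
        exact ⟨hfF, h2, fun hc => h1 ((htf P).1 hc)⟩
      · simp only [mem_filter] at he ⊢
        exact ⟨he.1, he.2.1, fun hc => he.2.2 (tin_mono (subset_insert _ _) hc)⟩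
    have h7 : 0 < #{a ∈ I | ¬ tin t a P} := by omega
    obtain ⟨a, ha⟩ := card_pos.1 h7
    rw [mem_filter] at ha
    exact ⟨a, ha.1, ha.2⟩
  by_contra hcon
  push Not at hcon
  by_cases hII : ∃ Z : Finset W, v ∈ Z ∧ Z ≠ {v} ∧ h f ∉ Z ∧ ro h t F Z = K
  · -- smallest type II set
    obtain ⟨Z₀, hZ₀, hmin⟩ := exists_min_image
      (univ.filter fun Z : Finset W => v ∈ Z ∧ Z ≠ {v} ∧ h f ∉ Z ∧ ro h t F Z = K) card (by
        obtain ⟨Z, hZ⟩ := hII
        exact ⟨Z, mem_filter.2 ⟨mem_univ _, hZ⟩⟩)
    simp only [mem_filter, mem_univ, true_and] at hZ₀ hmin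
    obtain ⟨h1, h2, h3, h4⟩ := hZ₀
    have ho : ∀ X Y : Finset W, Disjoint X Y → h f ∉ X → h f ∉ Y → o X + o Y + 1 ≤ #I := by
      intro X Y hXY h5 h6
      refine le_trans ?_ hc
      have h7 : o X + o Y = #(univ.filter (fun e => h e ∈ X ∧ t e = some v) ∪
          univ.filter (fun e => h e ∈ Y ∧ t e = some v)) := by
        rw [card_union_of_disjoint]
        rw [disjoint_left]
        intro e he he'
        simp only [mem_filter, mem_univ, true_and] at he he'
        exact disjoint_left.1 hXY he.1 he'.1
      rw [h7, ← card_insert_of_notMem (a := f)]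
      · refine card_le_card ?_
        intro e he
        simp only [mem_insert, mem_union, mem_filter, mem_univ, true_and] at he ⊢
        rcases he with he | he | he
        · rw [he]; exact hf
        · exact he.2
        · exact he.2
      · simp only [mem_union, mem_filter, mem_univ, true_and, not_or, not_and]
        exact ⟨fun hc => absurd hc h5, fun hc => absurd hc h6⟩
    have hsub : ∀ Z : Finset W, v ∈ Z → Z ≠ {v} → h f ∉ Z → ro h t F Z = K → Z₀ ⊆ Z := by
      intro Z h5 h6 h7 h8
      by_cases h9 : Z₀ ∩ Z = {v}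
      · exfalso
        have h10 := hB Z₀ h1 h2 h4
        have h11 := hB Z h5 h6 h8
        have h12 := ho (Z₀.erase v) (Z.erase v) (by
          rw [disjoint_left]
          intro w hw hw'
          have : w ∈ Z₀ ∩ Z := mem_inter.2 ⟨mem_of_mem_erase hw, mem_of_mem_erase hw'⟩
          rw [h9, mem_singleton] at this
          exact (mem_erase.1 hw).1 this) (fun hc => h3 (mem_of_mem_erase hc))
          (fun hc => h7 (mem_of_mem_erase hc))
        have h13 : #I ≤ #{a ∈ I | ¬ tin t a Z₀} + #{a ∈ I | ¬ tin t a Z} := by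
          refine (card_le_card ?_).trans (card_union_le _ _)
          intro a ha
          simp only [mem_union, mem_filter]
          by_contra hcc
          push Not at hcc
          obtain ⟨w, hw, haw⟩ := tin_inter (hcc.1 ha) (hcc.2 ha)
          rw [h9, mem_singleton] at hw
          exact hl a (hI a ha) (by rw [haw, hw])
        omega
      · have hv : v ∈ Z₀ ∩ Z := mem_inter.2 ⟨h1, h5⟩
        have h10 := hr _ ⟨v, hv⟩ h9
        have h11 : Z₀ ∪ Z ≠ {v} := by
          intro hcc
          refine h2 (subset_antisymm ?_ (singleton_subset_iff.2 h1))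
          rw [← hcc]
          exact subset_union_left
        have h12 := hr _ ⟨v, mem_union_left _ h1⟩ h11
        have h13 := ro_submod h t F Z₀ Z
        have h14 := hmin (Z₀ ∩ Z) ⟨hv, h9, fun hcc => h3 (mem_inter.1 hcc).1, by omega⟩
        have h15 : Z₀ ∩ Z = Z₀ := eq_of_subset_of_card_le inter_subset_left h14
        rw [← h15]
        exact inter_subset_right
    have hall : ∀ a ∈ I, ¬ tin t a Z₀ := by
      intro a ha hta
      obtain ⟨Z, h5, h6, h7, h8⟩ := hcon a ha
      rcases h8 with ⟨h8, h9, h10⟩ | ⟨h8, h9, h10⟩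
      · have hd := hA Z Z₀ h8 h9 h7 h1 h3 h4
        obtain ⟨w, hw, -⟩ := tin_inter h10 hta
        exact disjoint_left.1 hd (mem_inter.1 hw).1 (mem_inter.1 hw).2
      · exact h10 (tin_mono (hsub Z h8 h6 h9 h7) hta)
    have h5 := hB Z₀ h1 h2 h4
    have h6 : #{a ∈ I | ¬ tin t a Z₀} = #I := by
      congr 1
      exact filter_true_of_mem hall
    have h7 := ho (Z₀.erase v) ∅ (disjoint_empty_right _) (fun hc => h3 (mem_of_mem_erase hc))
      (notMem_empty _)
    omega
  · -- no type II set
    push Not at hII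
    have hIne : I.Nonempty := by
      rw [← card_pos]
      have : 0 < #{e | t e = some v} := card_pos.2 ⟨f, by simpa using hf⟩
      omega
    have hI2 : ∀ a ∈ I, ∃ P : Finset W, v ∉ P ∧ h f ∈ P ∧ ro h t F P = K ∧ tin t a P := by
      intro a ha
      obtain ⟨Z, h5, h6, h7, h8⟩ := hcon a ha
      rcases h8 with ⟨h8, h9, h10⟩ | ⟨h8, h9, h10⟩
      · exact ⟨Z, h8, h9, h7, h10⟩
      · exact absurd h7 (hII Z h8 h6 h9)
    obtain ⟨P₀, hP₀, hmax⟩ := exists_max_image
      (univ.filter fun P : Finset W => v ∉ P ∧ h f ∈ P ∧ ro h t F P = K) card (by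
        obtain ⟨a, ha⟩ := hIne
        obtain ⟨P, h1, h2, h3, -⟩ := hI2 a ha
        exact ⟨P, mem_filter.2 ⟨mem_univ _, h1, h2, h3⟩⟩)
    simp only [mem_filter, mem_univ, true_and] at hP₀ hmax
    obtain ⟨h1, h2, h3⟩ := hP₀
    obtain ⟨a, ha, hta⟩ := hC P₀ h1 h2 h3
    obtain ⟨P, h4, h5, h6, h7⟩ := hI2 a ha
    have hnv : ∀ Q : Finset W, v ∉ Q → Q ≠ {v} := by
      intro Q hQ hc
      exact hQ (by rw [hc]; exact mem_singleton_self v)
    have hvi : v ∉ P₀ ∩ P := fun hc => h1 (mem_inter.1 hc).1
    have hvu : v ∉ P₀ ∪ P := fun hc => (mem_union.1 hc).elim h1 h4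
    have h8 := hr (P₀ ∩ P) ⟨h f, mem_inter.2 ⟨h2, h5⟩⟩ (hnv _ hvi)
    have h9 := hr (P₀ ∪ P) ⟨h f, mem_union_left _ h2⟩ (hnv _ hvu)
    have h10 := ro_submod h t F P₀ P
    have h11 := hmax (P₀ ∪ P) ⟨hvu, mem_union_left _ h2, by omega⟩
    have h12 : P₀ = P₀ ∪ P := eq_of_subset_of_card_le subset_union_left h11
    refine hta (tin_mono ?_ h7)
    rw [h12]
    exact subset_union_right

/-- tails after the arcs of `O₀ - O` have been split off -/
private def tt (t : E → Option W) (O₀ O : Finset E) (σ : E → E) (e : E) : Option W :=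
  if e ∈ O₀ ∧ e ∉ O then t (σ e) else t e

open Classical in
private theorem iter_aux {K : ℕ} {h : E → W} {t : E → Option W} {v : W} (O₀ : Finset E)
    (hO₀ : ∀ e, e ∈ O₀ ↔ t e = some v) (hl : ∀ e, h e = v → t e ≠ some v) :
    ∀ n : ℕ, ∀ (O I : Finset E) (σ : E → E), #O = n → O ⊆ O₀ → (∀ a ∈ I, h a = v) → #O ≤ #I →
      (∀ e ∈ O₀, e ∉ O → h (σ e) = v ∧ σ e ∉ I) →
      (∀ e e', e ∈ O₀ → e ∉ O → e' ∈ O₀ → e' ∉ O → σ e = σ e' → e = e') →
      (∀ Z : Finset W, Z.Nonempty → Z ≠ {v} →
        K ≤ ro h (tt t O₀ O σ) (univ.filter fun e => h e = v → e ∈ I) Z) →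
      ∃ σ' : E → E, (∀ e ∈ O₀, h (σ' e) = v) ∧
        (∀ e e', e ∈ O₀ → e' ∈ O₀ → σ' e = σ' e' → e = e') ∧
        ∀ Z : Finset W, Z.Nonempty → v ∉ Z → K ≤ ro h (tt t O₀ ∅ σ') univ Z := by
  intro n
  induction n with
  | zero =>
    intro O I σ hO _ _ _ h3 h4 h5
    rw [card_eq_zero] at hO
    subst hO
    refine ⟨σ, fun e he => (h3 e he (notMem_empty _)).1,
      fun e e' he he' => h4 e e' he (notMem_empty _) he' (notMem_empty _), fun Z hZ hvZ => ?_⟩
    refine (h5 Z hZ fun hc => hvZ (by rw [hc]; exact mem_singleton_self v)).trans ?_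
    unfold ro
    refine card_le_card ?_
    intro e he
    simp only [mem_filter, mem_univ, true_and] at he ⊢
    exact he.2
  | succ n ih =>
    intro O I σ hO hOO hI hc h3 h4 h5
    obtain ⟨f, hf⟩ : O.Nonempty := by
      rw [← card_pos]
      omega
    have hfO : f ∈ O₀ := hOO hf
    have hlO : ∀ e, h e = v → e ∉ O₀ := fun e he hcc => hl e he ((hO₀ e).1 hcc)
    have htv : ∀ e, h e = v → tt t O₀ O σ e = t e := by
      intro e he
      unfold tt
      rw [if_neg fun hcc => hlO e he hcc.1]
    have hlt : ∀ e, h e = v → tt t O₀ O σ e ≠ some v := by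
      intro e he
      rw [htv e he]
      exact hl e he
    have hout : ∀ e, tt t O₀ O σ e = some v ↔ e ∈ O := by
      intro e
      unfold tt
      constructor
      · intro he
        split_ifs at he with hcc
        · exact absurd he (hl _ (h3 e hcc.1 hcc.2).1)
        · by_contra hne
          exact hcc ⟨(hO₀ e).2 he, hne⟩
      · intro he
        rw [if_neg fun hcc => hcc.2 he]
        exact (hO₀ e).1 (hOO he)
    have hcard : #{e | tt t O₀ O σ e = some v} ≤ #I := by
      refine le_trans (card_le_card ?_) hc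
      intro e he
      rw [mem_filter] at he
      exact (hout e).1 he.2
    obtain ⟨a, ha, hgood⟩ := step_aux (F := univ.filter fun e => h e = v → e ∈ I)
      (by intro e; simp) hI hlt hcard h5 ((hout f).2 hf)
    have hav : h a = v := hI a ha
    have hfv : h f ≠ v := fun hcc => hlO f hcc hfO
    let σ' : E → E := Function.update σ f a
    have hσf : σ' f = a := Function.update_self ..
    have hσ : ∀ e, e ≠ f → σ' e = σ e := fun e he => Function.update_of_ne he ..
    -- the new tails
    have ht' : ∀ e, tt t O₀ (O.erase f) σ' e = if e = f then t a else tt t O₀ O σ e := by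
      intro e
      by_cases he : e = f
      · rw [if_pos he]
        unfold tt
        rw [he, if_pos ⟨hfO, notMem_erase f O⟩, hσf]
      · rw [if_neg he]
        unfold tt
        by_cases h6 : e ∈ O₀ ∧ e ∉ O
        · rw [if_pos h6, if_pos ⟨h6.1, fun hcc => h6.2 (mem_of_mem_erase hcc)⟩, hσ e he]
        · rw [if_neg h6, if_neg]
          rintro ⟨h7, h8⟩
          exact h6 ⟨h7, fun hcc => h8 (mem_erase.2 ⟨he, hcc⟩)⟩
    refine ih (O.erase f) (I.erase a) σ' (by rw [card_erase_of_mem hf]; omega)
      ((erase_subset _ _).trans hOO) (fun b hb => hI b (mem_of_mem_erase hb)) ?_ ?_ ?_ ?_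
    · rw [card_erase_of_mem hf, card_erase_of_mem ha]
      omega
    · intro e he he'
      by_cases h6 : e = f
      · rw [h6, hσf]
        exact ⟨hav, notMem_erase a I⟩
      · have h7 : e ∉ O := fun hcc => he' (mem_erase.2 ⟨h6, hcc⟩)
        rw [hσ e h6]
        exact ⟨(h3 e he h7).1, fun hcc => (h3 e he h7).2 (mem_of_mem_erase hcc)⟩
    · intro e e' he1 he2 he1' he2' hee
      by_cases h6 : e = f
      · by_cases h7 : e' = f
        · rw [h6, h7]
        · exfalso
          rw [h6, hσf, hσ e' h7] at hee
          have h8 : e' ∉ O := fun hcc => he2' (mem_erase.2 ⟨h7, hcc⟩)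
          exact (h3 e' he1' h8).2 (by rw [← hee]; exact ha)
      · have h8 : e ∉ O := fun hcc => he2 (mem_erase.2 ⟨h6, hcc⟩)
        by_cases h7 : e' = f
        · exfalso
          rw [h7, hσf, hσ e h6] at hee
          exact (h3 e he1 h8).2 (by rw [hee]; exact ha)
        · have h9 : e' ∉ O := fun hcc => he2' (mem_erase.2 ⟨h7, hcc⟩)
          rw [hσ e h6, hσ e' h7] at hee
          exact h4 e e' he1 h8 he1' h9 hee
    · intro Z hZ hZv
      have h6 := h5 Z hZ hZv
      have h7 := hgood Z hZ hZv
      -- entering arcs before and after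
      let B := (univ.filter fun e => h e = v → e ∈ I).filter
        fun e => h e ∈ Z ∧ ¬ tin (tt t O₀ O σ) e Z
      let B' := (univ.filter fun e => h e = v → e ∈ I.erase a).filter
        fun e => h e ∈ Z ∧ ¬ tin (tt t O₀ (O.erase f) σ') e Z
      have hB : ro h (tt t O₀ O σ) (univ.filter fun e => h e = v → e ∈ I) Z = #B := rfl
      have hB' : ro h (tt t O₀ (O.erase f) σ') (univ.filter fun e => h e = v → e ∈ I.erase a) Z =
        #B' := rfl
      rw [hB] at h6
      rw [hB'] 
      have htf : tin (tt t O₀ O σ) f Z ↔ v ∈ Z := by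
        constructor
        · rintro ⟨w, hw, he⟩
          rw [(hout f).2 hf, Option.some.injEq] at he
          rwa [he]
        · intro hv
          exact ⟨v, hv, (hout f).2 hf⟩
      have hta : tin (tt t O₀ O σ) a Z ↔ tin t a Z := by
        unfold tin
        rw [htv a hav]
      have htf' : tin (tt t O₀ (O.erase f) σ') f Z ↔ tin t a Z := by
        unfold tin
        rw [ht' f, if_pos rfl]
      have htn : ∀ e, e ≠ f → (tin (tt t O₀ (O.erase f) σ') e Z ↔ tin (tt t O₀ O σ) e Z) := by
        intro e he
        unfold tin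
        rw [ht' e, if_neg he]
      have hsub : ∀ e ∈ B, e ≠ f → e ≠ a → e ∈ B' := by
        intro e he h8 h9
        simp only [B, B', mem_filter, mem_univ, true_and] at he ⊢
        exact ⟨fun hcc => mem_erase.2 ⟨h9, he.1 hcc⟩, he.2.1, fun hcc => he.2.2 ((htn e h8).1 hcc)⟩
      have hfB' : h f ∈ Z → ¬ tin t a Z → f ∈ B' := by
        intro h8 h9
        simp only [B', mem_filter, mem_univ, true_and]
        exact ⟨fun hcc => absurd hcc hfv, h8, fun hcc => h9 (htf'.1 hcc)⟩
      have haf : a ≠ f := fun hcc => hfv (by rw [← hcc]; exact hav)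
      by_cases hv : v ∈ Z
      · -- f does not enter before
        have hfB : f ∉ B := by
          simp only [B, mem_filter, not_and, not_not]
          exact fun _ _ => htf.2 hv
        by_cases h8 : tin t a Z
        · -- a does not enter before
          refine h6.trans (card_le_card fun e he => hsub e he (fun hcc => hfB (hcc ▸ he)) ?_)
          intro hcc
          subst hcc
          simp only [B, mem_filter] at he
          exact he.2.2 (hta.2 h8)
        · by_cases h9 : h f ∈ Z
          · -- f enters now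
            refine h6.trans ?_
            have h10 : B ⊆ insert a (B'.erase f) := by
              intro e he
              by_cases h11 : e = a
              · rw [h11]; exact mem_insert_self _ _
              · have h12 : e ≠ f := fun hcc => hfB (hcc ▸ he)
                exact mem_insert_of_mem (mem_erase.2 ⟨h12, hsub e he h12 h11⟩)
            have h13 := (card_le_card h10).trans (card_insert_le _ _)
            rw [card_erase_of_mem (hfB' h9 h8)] at h13
            have : 0 < #B' := card_pos.2 ⟨f, hfB' h9 h8⟩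
            omega
          · -- not tight
            have h10 : #B ≠ K := fun hcc => h7 (by rw [hB]; exact hcc) (Or.inr ⟨hv, h9, by
              rw [hta]
              exact h8⟩)
            have h11 : B ⊆ insert a B' := by
              intro e he
              by_cases h11 : e = a
              · rw [h11]; exact mem_insert_self _ _
              · exact mem_insert_of_mem (hsub e he (fun hcc => hfB (hcc ▸ he)) h11)
            have h12 := (card_le_card h11).trans (card_insert_le _ _)
            omega
      · have haB : a ∉ B := by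
          simp only [B, mem_filter, not_and]
          intro _ hcc
          rw [hav] at hcc
          exact absurd hcc hv
        by_cases h8 : h f ∈ Z ∧ tin t a Z
        · have h10 : #B ≠ K := fun hcc => h7 (by rw [hB]; exact hcc) (Or.inl ⟨hv, h8.1, by
            rw [hta]
            exact h8.2⟩)
          have h11 : B ⊆ insert f B' := by
            intro e he
            by_cases h11 : e = f
            · rw [h11]; exact mem_insert_self _ _
            · exact mem_insert_of_mem (hsub e he h11 (fun hcc => haB (hcc ▸ he)))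
          have h12 := (card_le_card h11).trans (card_insert_le _ _)
          omega
        · refine h6.trans (card_le_card fun e he => ?_)
          by_cases h11 : e = f
          · subst h11
            have h12 : h e ∈ Z := (mem_filter.1 he).2.1
            exact hfB' h12 fun hcc => h8 ⟨h12, hcc⟩
          · exact hsub e he h11 (fun hcc => haB (hcc ▸ he))

/-- PIECE P6 (helper67) -/
theorem split_vertex {k : ℕ} {h : E → W} {t : E → Option W} (hd : Dig k h t) (v : W)
    (hout : #{e | t e = some v} ≤ 2 * k) :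
    ∃ σ : E → E, (∀ e, t e = some v → h (σ e) = v) ∧
      (∀ e e', t e = some v → t e' = some v → σ e = σ e' → e = e') ∧ Dig k h (spl h t v σ) := by
  classical
  have hin := hd.indeg v
  have hl : ∀ e, h e = v → t e ≠ some v := by
    intro e he hcc
    have h1 := hd.conn {v} (singleton_nonempty v)
    have h2 : rho h t univ {v} < #{e | h e = v} := by
      unfold rho
      refine card_lt_card ?_
      rw [ssubset_iff_of_subset]
      · refine ⟨e, by simpa using he, ?_⟩
        simp [hcc]
      · intro e' he'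
        simp only [mem_filter, mem_univ, true_and, mem_singleton] at he' ⊢
        exact he'.1
    omega
  obtain ⟨σ, h1, h2, h3⟩ := iter_aux (K := 2 * k) (h := h) (t := t) (v := v)
    (univ.filter fun e => t e = some v) (by intro e; simp) hl _
    (univ.filter fun e => t e = some v) (univ.filter fun e => h e = v) id rfl subset_rfl
    (by intro a ha; simpa using ha) (by rw [hin]; exact hout)
    (fun e he he' => absurd he he') (fun e e' he he' => absurd he he') (by
      intro Z hZ _
      have h4 := hd.conn Z hZ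
      rw [← ro_eq_rho] at h4
      refine h4.trans ?_
      unfold ro
      refine card_le_card ?_
      intro e he
      simp only [mem_filter, mem_univ, true_and] at he ⊢
      refine ⟨fun hcc => hcc, he.1, ?_⟩
      have : tin (tt t (univ.filter fun e => t e = some v) (univ.filter fun e => t e = some v) id)
          e Z ↔ tin t e Z := by
        unfold tin tt
        rw [if_neg fun hcc => hcc.2 hcc.1]
      rw [this]
      exact he.2)
  refine ⟨σ, fun e he => h1 e (by simpa using he),
    fun e e' he he' => h2 e e' (by simpa using he) (by simpa using he'), hd.indeg, ?_⟩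
  intro Y hY
  by_cases hv : v ∈ Y
  · rw [← hin]
    unfold rho
    refine card_le_card ?_
    intro e he
    simp only [mem_filter, mem_univ, true_and] at he ⊢
    refine ⟨by rw [he]; exact hv, fun w _ => ?_⟩
    unfold spl
    rw [if_pos he]
    exact fun hcc => by cases hcc
  · refine (h3 Y hY hv).trans ?_
    rw [ro_eq_rho]
    unfold rho
    refine card_le_card ?_
    intro e he
    simp only [mem_filter, mem_univ, true_and] at he ⊢
    refine ⟨he.1, fun w hw => ?_⟩
    have h4 := he.2 w hw
    unfold tt at h4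
    unfold spl
    have h5 : h e ≠ v := fun hcc => hv (by rw [← hcc]; exact he.1)
    rw [if_neg h5]
    simpa using h4

end G3
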