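import Pool.Agent.Lib_MP_e457e7_co_k.Main

/-!
Piece (L1): the statement `T(k)` (every pairing of the arcs of a rooted digraph with in-degrees
`2k` and `2k` arc-disjoint arborescences has a transversal which splits it into two digraphs with
`k` arc-disjoint arborescences each) implies the packing statement for this `k` and all `l`.
-/

set_option autoImplicit false
set_option linter.unusedSectionVars false

namespace Pool.Agent.LibE457g

open Finset LibE457k

/-- Statement `T(k)`.  `W` is the set of non-root vertices, `E` the set of arcs, `h` the head,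
`t` the tail (`none` is the root), `P` the pairing. -/
def TK (k : ℕ) : Prop :=
  ∀ (W E : Type) [Fintype W] [DecidableEq W] [Fintype E] [DecidableEq E]
    (h : E → W) (t : E → Option W) (P : E → E),
    (∀ w, (univ.filter (fun e => h e = w)).card = 2 * k) →
    (∀ X : Finset W, X.Nonempty →
      2 * k ≤ (univ.filter (fun e => h e ∈ X ∧ ∀ u ∈ X, t e ≠ some u)).card) →
    (∀ e, P (P e) = e) → (∀ e, P e ≠ e) → (∀ e, h (P e) = h e) →
    ∃ F : Finset E, (∀ e, e ∈ F ↔ P e ∉ F) ∧
      (∀ X : Finset W, X.Nonempty →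
        k ≤ (F.filter (fun e => h e ∈ X ∧ ∀ u ∈ X, t e ≠ some u)).card) ∧
      (∀ X : Finset W, X.Nonempty →
        k ≤ (Fᶜ.filter (fun e => h e ∈ X ∧ ∀ u ∈ X, t e ≠ some u)).card)

variable {V A : Type} [Fintype V] [DecidableEq V] [Fintype A] [DecidableEq A]

theorem split_of_TK {tail head : A → V} {r : V} {k : ℕ} (hTK : TK k)
    {x y : A → ℕ} (hx : Good tail head r k x) (hy : Good tail head r k y) :
    ∃ x' y' : A → ℕ, Good tail head r k x' ∧ Good tail head r k y' ∧
      (∀ a, x' a + y' a = x a + y a) ∧ ∀ a, x' a ≤ y' a + 1 ∧ y' a ≤ x' a + 1 := by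
  classical
  have hz := hx.add hy
  rw [← two_mul] at hz
  obtain ⟨B, hB, hBz⟩ := edmonds (2 * k) _ hz
  -- the arc with head `v` in `B i`
  choose α hα1 hα2 using fun (i : Fin (2 * k)) (v : {v : V // v ≠ r}) => (hB i).uniq v.1 v.2
  have hαmem : ∀ i v, α i v ∈ B i := fun i v => (hα1 i v).1
  have hαhead : ∀ i v, head (α i v) = v.1 := fun i v => (hα1 i v).2
  have hαuniq : ∀ i v a, a ∈ B i → head a = v.1 → a = α i v := fun i v a h1 h2 =>
    hα2 i v a ⟨h1, h2⟩
  let π : Fin (2 * k) → {v : V // v ≠ r} → Option {v : V // v ≠ r} := fun i v =>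
    if h : tail (α i v) = r then none else some ⟨tail (α i v), h⟩
  have hπsome : ∀ i v u, π i v = some u ↔ tail (α i v) = u.1 := by
    intro i v u
    simp only [π]
    split_ifs with h
    · simp only [false_iff]
      rw [h]
      exact fun h => u.2 h.symm
    · simp only [Option.some.injEq]
      constructor
      · intro h; rw [← h]
      · intro h; exact Subtype.ext h
  -- the pairing
  have hμ : ∀ v : {v : V // v ≠ r}, ∃ μ : Fin (2 * k) → Fin (2 * k),
      (∀ i, μ (μ i) = i ∧ μ i ≠ i) ∧
      ∀ i j, α i v = α j v → α (μ i) v ≠ α i v → α (μ j) v ≠ α j v → i = j := by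
    intro v
    obtain ⟨μ, h1, h2, _⟩ := nested_matching (fun i => α i v) (fun _ => ())
      (fun _ _ _ => rfl) k (univ : Finset (Fin (2 * k))) (by simp)
    exact ⟨μ, fun i => ⟨(h1 i (mem_univ _)).2.1, (h1 i (mem_univ _)).2.2⟩,
      fun i j => h2 i (mem_univ _) j (mem_univ _)⟩
  choose μ hμ1 hμ2 using hμ
  obtain ⟨F, hF, hF1, hF2⟩ := hTK {v : V // v ≠ r} (Fin (2 * k) × {v : V // v ≠ r})
    (fun p => p.2) (fun p => π p.1 p.2) (fun p => (μ p.2 p.1, p.2))
    (by
      intro w
      have : (univ.filter (fun e : Fin (2 * k) × {v : V // v ≠ r} => e.2 = w)) =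
          (univ : Finset (Fin (2 * k))).map ⟨fun i => (i, w), fun i j h => by
            simpa using h⟩ := by
        ext ⟨i, v⟩
        simp only [mem_filter, mem_univ, true_and, mem_map, Function.Embedding.coeFn_mk,
          Prod.mk.injEq, exists_eq_left]
        exact eq_comm
      rw [this]
      simp)
    (by
      intro Y hY
      have hX : (Y.map (Function.Embedding.subtype _)).Nonempty := hY.map
      have hr : r ∉ Y.map (Function.Embedding.subtype _) := by
        intro h
        obtain ⟨u, _, hu⟩ := mem_map.1 h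
        exact u.2 hu
      have h1 : ∀ i, ∃ v ∈ Y, ∀ u ∈ Y, π i v ≠ some u := by
        intro i
        obtain ⟨a, ha, h1, h2⟩ := (hB i).enters hX hr
        obtain ⟨v, hv, hva⟩ := mem_map.1 h1
        refine ⟨v, hv, fun u hu h => h2 ?_⟩
        have h3 : a = α i v := hαuniq i v a ha hva.symm
        rw [hπsome] at h
        rw [h3, h]
        exact mem_map.2 ⟨u, hu, rfl⟩
      choose g hg1 hg2 using h1
      calc 2 * k = (univ : Finset (Fin (2 * k))).card := by simp
        _ ≤ _ := by
          refine card_le_card_of_injOn (fun i => (i, g i)) ?_ ?_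
          · intro i _
            exact mem_coe.2 (mem_filter.2 ⟨mem_univ _, hg1 i, hg2 i⟩)
          · intro i _ j _ hij
            exact (Prod.ext_iff.1 hij).1)
    (fun e => Prod.ext (hμ1 e.2 e.1).1 rfl)
    (fun e h => (hμ1 e.2 e.1).2 (Prod.ext_iff.1 h).1)
    (fun _ => rfl)
  let χ : Fin (2 * k) × {v : V // v ≠ r} → Bool := fun p => decide (p ∈ F)
  have hχμ : ∀ v i, χ (μ v i, v) ≠ χ (i, v) := by
    intro v i
    have := hF (i, v)
    simp only [χ]
    by_cases h : (i, v) ∈ F
    · have h' : (μ v i, v) ∉ F := this.1 h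
      simp [h, h']
    · have h' : (μ v i, v) ∈ F := by
        by_contra hcon
        exact h (this.2 hcon)
      simp [h, h']
  have hχ1 : ∀ b v, (univ.filter (fun i => χ (i, v) = b)).card = k := by
    intro b v
    exact half (S := (univ : Finset (Fin (2 * k)))) (by simp)
      (fun i _ => ⟨mem_univ _, (hμ1 v i).1, (hμ1 v i).2⟩) (fun i _ => hχμ v i) b
  have hχ2 : ∀ b v (a : A), (univ.filter (fun i => α i v = a ∧ χ (i, v) = b)).card ≤
      (univ.filter (fun i => α i v = a ∧ χ (i, v) = !b)).card + 1 := by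
    intro b v a
    exact class_balanced (S := (univ : Finset (Fin (2 * k)))) (f := fun i => α i v)
      (fun i _ => ⟨mem_univ _, (hμ1 v i).1, (hμ1 v i).2⟩)
      (fun i _ j _ => hμ2 v i j) (fun i _ => hχμ v i) a b
  have hχ3 : ∀ b, ∀ Y : Finset {v : V // v ≠ r}, Y.Nonempty →
      k ≤ (univ.filter (fun p : Fin (2 * k) × {v : V // v ≠ r} =>
        (p.2 ∈ Y ∧ ∀ u ∈ Y, π p.1 p.2 ≠ some u) ∧ χ p = b)).card := by
    intro b Y hY
    cases b
    · refine (hF2 Y hY).trans (card_le_card ?_)
      intro p hp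
      obtain ⟨h1, h2⟩ := mem_filter.1 hp
      refine mem_filter.2 ⟨mem_univ _, h2, ?_⟩
      simpa [χ] using h1
    · refine (hF1 Y hY).trans (card_le_card ?_)
      intro p hp
      obtain ⟨h1, h2⟩ := mem_filter.1 hp
      refine mem_filter.2 ⟨mem_univ _, h2, ?_⟩
      simpa [χ] using h1
  let cnt : Bool → A → ℕ := fun b a => (univ.filter (fun p : Fin (2 * k) × {v : V // v ≠ r} =>
    α p.1 p.2 = a ∧ χ p = b)).card
  have hcnt0 : ∀ b a, head a = r → cnt b a = 0 := by
    intro b a ha
    simp only [cnt, card_eq_zero]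
    refine filter_eq_empty_iff.2 ?_
    rintro p _ ⟨h, _⟩
    have := hαhead p.1 p.2
    rw [h, ha] at this
    exact p.2.2 this.symm
  have hcnt1 : ∀ b a (v : {v : V // v ≠ r}), head a = v.1 →
      cnt b a = (univ.filter (fun i => α i v = a ∧ χ (i, v) = b)).card := by
    intro b a v hv
    refine card_bij (fun p _ => p.1) ?_ ?_ ?_
    · intro p hp
      obtain ⟨_, h1, h2⟩ := mem_filter.1 hp
      have h3 : p.2 = v := by
        apply Subtype.ext
        rw [← hv, ← h1, hαhead]
      have h4 : p = (p.1, v) := by rw [← h3]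
      refine mem_filter.2 ⟨mem_univ _, ?_, ?_⟩
      · rw [← h3]; exact h1
      · rw [← h4]; exact h2
    · intro p hp q hq hpq
      obtain ⟨_, h1, _⟩ := mem_filter.1 hp
      obtain ⟨_, h2, _⟩ := mem_filter.1 hq
      refine Prod.ext hpq ?_
      apply Subtype.ext
      rw [← hαhead p.1 p.2, ← hαhead q.1 q.2, h1, h2]
    · intro i hi
      obtain ⟨_, h1, h2⟩ := mem_filter.1 hi
      exact ⟨(i, v), mem_filter.2 ⟨mem_univ _, h1, h2⟩, rfl⟩
  have hsum : ∀ b (Q : A → Prop) [DecidablePred Q], ∑ a ∈ univ.filter Q, cnt b a =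
      (univ.filter (fun p : Fin (2 * k) × {v : V // v ≠ r} => Q (α p.1 p.2) ∧ χ p = b)).card := by
    intro b Q _
    rw [card_eq_sum_card_fiberwise (f := fun p => α p.1 p.2) (t := univ.filter Q)]
    · refine sum_congr rfl fun a ha => ?_
      have hQ : Q a := (mem_filter.1 ha).2
      simp only [cnt]
      congr 1
      ext p
      simp only [mem_filter, mem_univ, true_and]
      constructor
      · rintro ⟨h1, h2⟩
        exact ⟨⟨h1 ▸ hQ, h2⟩, h1⟩
      · rintro ⟨⟨_, h2⟩, h1⟩
        exact ⟨h1, h2⟩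
    · intro p hp
      have := (mem_filter.1 (mem_coe.1 hp)).2.1
      exact mem_coe.2 (mem_filter.2 ⟨mem_univ _, this⟩)
  have hgood : ∀ b, Good tail head r k (cnt b) := by
    intro b
    refine ⟨hcnt0 b, ?_, ?_⟩
    · intro v hv
      rw [hsum b (fun a => head a = v)]
      refine Eq.trans ?_ (hχ1 b ⟨v, hv⟩)
      refine card_bij (fun p _ => p.1) ?_ ?_ ?_
      · intro p hp
        obtain ⟨_, h1, h2⟩ := mem_filter.1 hp
        have h3 : p.2 = ⟨v, hv⟩ := by
          apply Subtype.ext
          rw [← hαhead p.1 p.2, h1]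
        have h4 : p = (p.1, ⟨v, hv⟩) := by rw [← h3]
        refine mem_filter.2 ⟨mem_univ _, ?_⟩
        rw [← h4]; exact h2
      · intro p hp q hq hpq
        obtain ⟨_, h1, _⟩ := mem_filter.1 hp
        obtain ⟨_, h2, _⟩ := mem_filter.1 hq
        refine Prod.ext hpq ?_
        apply Subtype.ext
        rw [← hαhead p.1 p.2, ← hαhead q.1 q.2, h1, h2]
      · intro i hi
        obtain ⟨_, h2⟩ := mem_filter.1 hi
        exact ⟨(i, ⟨v, hv⟩), mem_filter.2 ⟨mem_univ _, hαhead _ _, h2⟩, rfl⟩
    · intro X hX hrX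
      unfold rho
      rw [hsum b (fun a => head a ∈ X ∧ tail a ∉ X)]
      set Y : Finset {v : V // v ≠ r} := univ.filter (fun w => w.1 ∈ X) with hY
      have hYne : Y.Nonempty := by
        obtain ⟨v, hv⟩ := hX
        exact ⟨⟨v, fun h => hrX (h ▸ hv)⟩, by simp [hY, hv]⟩
      refine (hχ3 b Y hYne).trans (card_le_card ?_)
      intro p hp
      obtain ⟨_, ⟨h1, h2⟩, h3⟩ := mem_filter.1 hp
      refine mem_filter.2 ⟨mem_univ _, ⟨?_, ?_⟩, h3⟩
      · rw [hαhead]
        simpa [hY] using h1
      · intro h4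
        have h5 : tail (α p.1 p.2) ≠ r := fun h => hrX (h ▸ h4)
        exact h2 ⟨tail (α p.1 p.2), h5⟩ (by simp [hY, h4]) ((hπsome _ _ _).2 rfl)
  refine ⟨cnt true, cnt false, hgood true, hgood false, ?_, ?_⟩
  · intro a
    by_cases ha : head a = r
    · rw [hcnt0 _ a ha, hcnt0 _ a ha]
      have := hz.root a ha
      simpa using this.symm
    · rw [hcnt1 true a ⟨head a, ha⟩ rfl, hcnt1 false a ⟨head a, ha⟩ rfl]
      rw [← hBz a]
      have h1 : (univ.filter (fun i => a ∈ B i)) =
          univ.filter (fun i => α i ⟨head a, ha⟩ = a) := by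
        refine filter_congr fun i _ => ?_
        constructor
        · intro h
          exact (hαuniq i ⟨head a, ha⟩ a h rfl).symm
        · intro h
          rw [← h]
          exact hαmem _ _
      rw [h1, ← card_filter_add_card_filter_not (s := univ.filter
        (fun i => α i ⟨head a, ha⟩ = a)) (fun i => χ (i, ⟨head a, ha⟩) = true),
        filter_filter, filter_filter]
      congr 2
      refine filter_congr fun i _ => ?_
      simp
  · intro a
    by_cases ha : head a = r
    · rw [hcnt0 _ a ha, hcnt0 _ a ha]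
      omega
    · rw [hcnt1 true a ⟨head a, ha⟩ rfl, hcnt1 false a ⟨head a, ha⟩ rfl]
      exact ⟨hχ2 true ⟨head a, ha⟩ a, hχ2 false ⟨head a, ha⟩ a⟩

/-- Reduction to vectors with entries in `{0,1}`. -/
theorem reduce_of_TK {tail head : A → V} {r : V} {k l : ℕ} (hTK : TK k)
    {c : A → ℕ} (hc : ∀ a, c a ≤ l) :
    ∀ n : ℕ, ∀ x : Fin l → A → ℕ, (∀ i, Good tail head r k (x i)) →
      (∀ a, ∑ i, x i a ≤ c a) → (∑ i, ∑ a, x i a * x i a) ≤ n →
      ∃ x' : Fin l → A → ℕ, (∀ i, Good tail head r k (x' i)) ∧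
        (∀ a, ∑ i, x' i a ≤ c a) ∧ ∀ i a, x' i a ≤ 1 := by
  classical
  intro n
  induction n with
  | zero =>
    intro x hx hxc hn
    refine ⟨x, hx, hxc, fun i a => ?_⟩
    have h1 : ∑ i, ∑ a, x i a * x i a = 0 := by omega
    have h2 := (sum_eq_zero_iff.1 h1) i (mem_univ _)
    have h3 := (sum_eq_zero_iff.1 h2) a (mem_univ _)
    have h4 : x i a = 0 := by
      rcases Nat.mul_eq_zero.1 h3 with h | h <;> exact h
    omega
  | succ n ih =>
    intro x hx hxc hn
    by_cases hall : ∀ i a, x i a ≤ 1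
    · exact ⟨x, hx, hxc, hall⟩
    push Not at hall
    obtain ⟨i, a, hia⟩ := hall
    have hj : ∃ j, x j a = 0 := by
      by_contra hcon
      push Not at hcon
      have h1 : ∑ m : Fin l, (1 + if m = i then 1 else 0) ≤ ∑ m, x m a := by
        refine sum_le_sum fun m _ => ?_
        have := hcon m
        split_ifs with h
        · subst h; omega
        · omega
      rw [sum_add_distrib, sum_ite_eq' univ i, sum_const, card_univ, Fintype.card_fin] at h1
      simp only [mem_univ, if_true, smul_eq_mul, mul_one] at h1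
      have h2 := hxc a
      have h3 := hc a
      omega
    obtain ⟨j, hja⟩ := hj
    have hij : i ≠ j := by
      rintro rfl
      omega
    obtain ⟨p, q, hp, hq, hpq, hbal⟩ := split_of_TK hTK (hx i) (hx j)
    let x' : Fin l → A → ℕ := Function.update (Function.update x i p) j q
    have hx'i : x' i = p := by simp [x', hij]
    have hx'j : x' j = q := by simp [x']
    have hx'm : ∀ m, m ∉ ({i, j} : Finset (Fin l)) → x' m = x m := by
      intro m hm
      simp only [mem_insert, mem_singleton, not_or] at hm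
      simp [x', hm.1, hm.2]
    have hsame : ∀ f : (A → ℕ) → ℕ, ∑ m ∈ ({i, j} : Finset (Fin l))ᶜ, f (x' m) =
        ∑ m ∈ ({i, j} : Finset (Fin l))ᶜ, f (x m) := by
      intro f
      refine sum_congr rfl fun m hm => ?_
      rw [hx'm m (mem_compl.1 hm)]
    refine ih x' ?_ ?_ ?_
    · intro m
      by_cases hm : m ∈ ({i, j} : Finset (Fin l))
      · rcases mem_insert.1 hm with rfl | hm
        · rw [hx'i]; exact hp
        · have : m = j := by simpa using hm
          subst this
          rw [hx'j]; exact hq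
      · rw [hx'm m hm]; exact hx m
    · intro b
      refine le_trans (le_of_eq ?_) (hxc b)
      rw [sum_two hij (fun m => x' m b), sum_two hij (fun m => x m b)]
      have h1 := hsame (fun z => z b)
      simp only [h1, hx'i, hx'j]
      have := hpq b
      omega
    · have hlt : ∑ m, ∑ b, x' m b * x' m b < ∑ m, ∑ b, x m b * x m b := by
        rw [sum_two hij (fun m => ∑ b, x' m b * x' m b),
          sum_two hij (fun m => ∑ b, x m b * x m b)]
        have h1 := hsame (fun z => ∑ b, z b * z b)
        simp only [h1, hx'i, hx'j]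
        refine Nat.add_lt_add_right ?_ _
        rw [← sum_add_distrib, ← sum_add_distrib]
        refine sum_lt_sum (fun b _ => ?_) ⟨a, mem_univ _, ?_⟩
        · exact sq_le_of_balanced (hpq b) (hbal b).1 (hbal b).2
        · have h2 := hpq a
          rw [hja, add_zero] at h2
          rw [hja]
          simpa using sq_lt_of_balanced h2 (by omega) (hbal a).1 (hbal a).2
      omega

/-- Packing theorem. -/
theorem packing_of_TK {tail head : A → V} {r : V} {c : A → ℕ} {k l : ℕ}
    (hTK : TK k) (hc : ∀ a, c a ≤ l)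
    (T : Fin (k * l) → Finset A) (hT : ∀ i, IsArb tail head r (T i))
    (hTc : ∀ a, (univ.filter (fun i => a ∈ T i)).card ≤ c a) :
    ∃ B : Fin l → Fin k → Finset A,
      (∀ i j, IsArb tail head r (B i j)) ∧
      (∀ i : Fin l, ∀ j j' : Fin k, j ≠ j' → Disjoint (B i j) (B i j')) ∧
      ∀ a : A, (univ.filter (fun p : Fin l × Fin k => a ∈ B p.1 p.2)).card ≤ c a := by
  classical
  let x : Fin l → A → ℕ := fun i a =>
    (univ.filter (fun j : Fin k => a ∈ T (finProdFinEquiv (j, i)))).card
  have hx : ∀ i, Good tail head r k (x i) := fun i => good_of_arbs (fun j => hT _)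
  have hxc : ∀ a, ∑ i, x i a ≤ c a := by
    intro a
    refine le_trans (le_of_eq ?_) (hTc a)
    simp only [x, card_filter]
    rw [sum_comm, ← Fintype.sum_prod_type' (f := fun (j : Fin k) (i : Fin l) =>
      if a ∈ T (finProdFinEquiv (j, i)) then 1 else 0)]
    exact Fintype.sum_equiv finProdFinEquiv _ _ (fun p => rfl)
  obtain ⟨x', hx', hxc', hx1⟩ := reduce_of_TK hTK hc _ x hx hxc le_rfl
  choose B hB hBx using fun i => edmonds k (x' i) (hx' i)
  refine ⟨B, hB, ?_, ?_⟩
  · intro i j j' hjj
    rw [Finset.disjoint_left]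
    intro a ha ha'
    have h1 : (univ.filter (fun j => a ∈ B i j)).card ≤ 1 := by
      rw [hBx i a]; exact hx1 i a
    exact hjj (card_le_one.1 h1 j (by simp [ha]) j' (by simp [ha']))
  · intro a
    have h1 : (univ.filter (fun p : Fin l × Fin k => a ∈ B p.1 p.2)).card =
        ∑ i, (univ.filter (fun j => a ∈ B i j)).card := by
      simp only [card_filter]
      rw [Fintype.sum_prod_type]
    rw [h1]
    simp only [hBx]
    exact hxc' a

/-- `Q1` for a given `k` (and all `l`) follows from `TK k`, in the wording of the problem. -/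
theorem q1_of_TK {k : ℕ} (hTK : TK k) :
    ∀ (V A : Type) [Fintype V] [Fintype A] [DecidableEq V] [DecidableEq A]
      (tail head : A → V) (r0 : V) (c : A → ℕ) (l : ℕ)
      (IsArb : Finset A → Prop),
      (∀ T : Finset A, IsArb T ↔
          ((∀ a ∈ T, head a ≠ r0) ∧
           (∀ v : V, v ≠ r0 → ∃! a : A, a ∈ T ∧ head a = v) ∧
           (∀ v : V, Relation.ReflTransGen
              (fun x y : V => ∃ a ∈ T, tail a = x ∧ head a = y) r0 v))) →
      (∀ a : A, c a ≤ l) →
      (∃ T : Fin (k * l) → Finset A,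
          (∀ i, IsArb (T i)) ∧
          ∀ a : A, (Finset.univ.filter (fun i => a ∈ T i)).card ≤ c a) →
      ∃ B : Fin l → Fin k → Finset A,
        (∀ i j, IsArb (B i j)) ∧
        (∀ i : Fin l, ∀ j j' : Fin k, j ≠ j' → Disjoint (B i j) (B i j')) ∧
        ∀ a : A, (Finset.univ.filter
            (fun p : Fin l × Fin k => a ∈ B p.1 p.2)).card ≤ c a := by
  intro V A _ _ _ _ tail head r0 c l IsArb hIsArb hc hT
  obtain ⟨T, hT, hTc⟩ := hT
  have hiff : ∀ T, IsArb T ↔ LibE457k.IsArb tail head r0 T := by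
    intro T
    rw [hIsArb]
    exact ⟨fun h => ⟨h.1, h.2.1, h.2.2⟩, fun h => ⟨h.1, h.2, h.3⟩⟩
  obtain ⟨B, hB, hdisj, hBc⟩ := packing_of_TK (tail := tail) (head := head) (r := r0)
    (c := c) (k := k) (l := l) hTK hc T (fun i => (hiff _).1 (hT i)) hTc
  exact ⟨B, fun i j => (hiff _).2 (hB i j), hdisj, hBc⟩

end Pool.Agent.LibE457g
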